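import Mathlib
import Pool.Agent.LRT.J3
import Pool.Agent.LRT.J5

set_option autoImplicit false

/-!
`MP_f1b527_co`, levels `4 m ≤ n`: definitions.  Notation of `Pool.Agent.LRT`.
-/

namespace Pool.Agent.LRF

open Finset
open Pool.Agent.LRE Pool.Agent.LRT

/-- the value (over `hh w m`) of `m - 1` rows `w` and one row `w - δ` -/
noncomputable def AA (m w δ : ℕ) : ℝ := 1 + (δ : ℝ) / ((m : ℝ) * ((w : ℝ) + 1 - δ))

/-- the second bound -/
noncomputable def GP (m w δ : ℕ) : ℝ := (1 + phi (m - 1) ((δ : ℝ) / ((w : ℝ) + 1))) / 2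

/-- `∏_{i=1}^{K} (w+i)/(L+i)` -/
noncomputable def gK (w L : ℝ) (K : ℕ) : ℝ :=
  ∏ i ∈ range K, ((w + ((i : ℝ) + 1)) / (L + ((i : ℝ) + 1)))

theorem gK_zero (w L : ℝ) : gK w L 0 = 1 := by simp [gK]

theorem gK_succ (w L : ℝ) (K : ℕ) :
    gK w L (K + 1) = gK w L K * ((w + ((K : ℝ) + 1)) / (L + ((K : ℝ) + 1))) := by
  unfold gK
  rw [prod_range_succ]

theorem gK_pos {w L : ℝ} (hw : 0 ≤ w) (hL : 0 ≤ L) (K : ℕ) : 0 < gK w L K := by
  unfold gK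
  apply prod_pos
  intro i _
  positivity

theorem AA_ge_one (m w δ : ℕ) (h : δ ≤ w) : 1 ≤ AA m w δ := by
  unfold AA
  have h1 : (δ : ℝ) ≤ w := by exact_mod_cast h
  have h2 : (0 : ℝ) ≤ (δ : ℝ) / ((m : ℝ) * ((w : ℝ) + 1 - δ)) := by
    apply div_nonneg (Nat.cast_nonneg _)
    apply mul_nonneg (Nat.cast_nonneg _)
    linarith
  linarith

/-- `1 ≤ phi r z` for `0 ≤ z < r` -/
theorem phi_ge_one (r : ℕ) (z : ℝ) (h0 : 0 ≤ z) (h1 : z < r) : 1 ≤ phi r z := by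
  have hr : (0 : ℝ) < r := lt_of_le_of_lt h0 h1
  have h2 : z / r < 1 := by
    rw [div_lt_one hr]
    exact h1
  have h3 : 0 ≤ z / r := div_nonneg h0 hr.le
  unfold phi
  apply (one_le_inv₀ (by
    apply pow_pos
    linarith)).2
  exact pow_le_one₀ (by linarith) (by linarith)

theorem GP_ge_one (m w δ : ℕ) (hm : 2 ≤ m) (h : δ ≤ w) : 1 ≤ GP m w δ := by
  unfold GP
  have h1 : (δ : ℝ) ≤ w := by exact_mod_cast h
  have hw : (0 : ℝ) < (w : ℝ) + 1 := by positivity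
  have h2 : (δ : ℝ) / ((w : ℝ) + 1) < ((m - 1 : ℕ) : ℝ) := by
    have h3 : (1 : ℝ) ≤ ((m - 1 : ℕ) : ℝ) := by
      have : 1 ≤ m - 1 := by omega
      exact_mod_cast this
    refine lt_of_lt_of_le ?_ h3
    rw [div_lt_one hw]
    linarith
  have h3 := phi_ge_one (m - 1) _ (by positivity) h2
  linarith

/-- range of the rough bound -/
def R1 (m w : ℕ) : Prop := m = 3 ∨ (m = 4 ∧ 7 ≤ w) ∨ (5 ≤ m ∧ 2 * m ≤ w)

/-- range of the crude tail bound -/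
def RC (r h : ℕ) : Prop := 3 * r ≤ h + 1 ∨ (5 ≤ r ∧ 3 * r ≤ h + 2)

end Pool.Agent.LRF
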