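import Mathlib
import Pool.Agent.LRF.Defs

set_option autoImplicit false

namespace Pool.Agent.LRF

open Finset
open Pool.Agent.LRE Pool.Agent.LRT

/-- Row LRF-A1. `(w+1) F r - H r = r (F (r-1) - F r)`: from `psi_rec`
(`(w + r + 1) F r = H r + r F (r-1)`, `r ≥ 1`). -/
theorem Fr_rec (w L r : ℕ) (hL : L ≤ w) :
    ((w : ℝ) + r + 2) * psi ({w} + Multiset.replicate (r + 1) L) =
      hh L ((r : ℝ) + 1) + ((r : ℝ) + 1) * psi ({w} + Multiset.replicate r L) := by
  have h1 := psi_rec ({w} + Multiset.replicate (r + 1) L)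
  have e1 : ({w} + Multiset.replicate (r + 1) L : Multiset ℕ).sup = w := by
    rw [Multiset.sup_add, h4_sup, Multiset.sup_singleton]
    exact sup_eq_left.2 hL
  have e2 : ({w} + Multiset.replicate (r + 1) L : Multiset ℕ).card = r + 2 := by
    rw [Multiset.card_add, Multiset.card_singleton, Multiset.card_replicate]
    omega
  have e3 : ({w} + Multiset.replicate (r + 1) L : Multiset ℕ).erase w =
      Multiset.replicate (r + 1) L := by
    rw [Multiset.singleton_add, Multiset.erase_cons_head]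
  have e4 : psi (({w} + Multiset.replicate (r + 1) L : Multiset ℕ).erase L) =
      psi ({w} + Multiset.replicate r L) := by
    rcases Nat.lt_or_ge L w with h | h
    · rw [Multiset.singleton_add, Multiset.erase_cons_tail _ (by omega),
        Multiset.replicate_succ, Multiset.erase_cons_head, Multiset.singleton_add]
    · have : L = w := by omega
      subst this
      rw [e3, Multiset.replicate_succ, Multiset.singleton_add]
  have e5 : (({w} + Multiset.replicate (r + 1) L : Multiset ℕ).map fun x =>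
      psi (({w} + Multiset.replicate (r + 1) L : Multiset ℕ).erase x)).sum =
      psi (Multiset.replicate (r + 1) L) + ((r : ℝ) + 1) * psi ({w} + Multiset.replicate r L) := by
    rw [Multiset.map_add, Multiset.sum_add, Multiset.map_singleton, Multiset.sum_singleton, e3,
      Multiset.map_replicate, Multiset.sum_replicate, e4, nsmul_eq_mul]
    push_cast
    ring
  rw [e1, e2, e5, Pool.Agent.LRT.psi_rect] at h1
  push_cast at h1
  rw [← h1]
  ring

/-- Row LRF-A1. Induction on `r`; write `F r = psi ({w} + replicate r L)`, `H r = hh L r`.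
`psi_rec` gives `(w + r + 2) F (r+1) = H (r+1) + (r+1) F r` (see the proof of
`Pool.Agent.LRT.row_rect` in LRT/J2.lean: `h1`, `e1`-`e5`, also valid for `L = w`), and
`H (r+1) (L + r + 1) = H r (r+1)` (`hh_nat_succ`).  Base case: `F 0 = 1/(w+1)`
(`psi_rect 1 w`, `Multiset.replicate_one`), `H 0 = 1`.  Step: with the induction hypothesis
`F r ≤ H r (w+r+1+Lr)/((w+1)(w+r+1))` the claim for `r+1` reduces to
`(w+1)(w+r+1) + (L+r+1)(w+r+1+Lr) ≤ (w+r+1)(w+r+2+L(r+1))`, i.e. `(L+r+1) L r ≤ (w+r+1) L r`. -/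
theorem Fr_bound (w L r : ℕ) (hL : L ≤ w) :
    ((w : ℝ) + 1) * ((w : ℝ) + r + 1) * psi ({w} + Multiset.replicate r L) ≤
      ((w : ℝ) + r + 1 + (L : ℝ) * r) * hh L (r : ℝ) := by
  induction r with
  | zero =>
    have h1 := Pool.Agent.LRT.psi_rect 1 w
    rw [Multiset.replicate_one] at h1
    rw [Multiset.replicate_zero, add_zero, h1, Nat.cast_zero, hh_zero_right]
    have e1 : ((1 : ℕ) : ℝ) = ((0 + 1 : ℕ) : ℝ) := by norm_num
    rw [e1, hh_nat_succ, Nat.cast_zero, hh_zero_right]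
    have hw : (w : ℝ) + 1 ≠ 0 := by positivity
    apply le_of_eq
    field_simp
    ring
  | succ r ih =>
    have hrec := Fr_rec w L r hL
    have hH : hh L ((r : ℝ) + 1) * ((r : ℝ) + L + 1) = hh L (r : ℝ) * ((r : ℝ) + 1) := by
      rw [hh_add_one L (Nat.cast_nonneg r)]
      have : (r : ℝ) + L + 1 ≠ 0 := by positivity
      field_simp
    have hH0 : 0 ≤ hh L ((r : ℝ) + 1) := (hh_pos L (by positivity)).le
    have hLw : (L : ℝ) ≤ w := by exact_mod_cast hL
    have hr0 : (0 : ℝ) ≤ r := Nat.cast_nonneg r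
    have hL0 : (0 : ℝ) ≤ L := Nat.cast_nonneg L
    have hw0 : (0 : ℝ) ≤ w := Nat.cast_nonneg w
    push_cast
    obtain ⟨F, hF⟩ : ∃ F : ℝ, F = psi ({w} + Multiset.replicate r L) := ⟨_, rfl⟩
    obtain ⟨F', hF'⟩ : ∃ F' : ℝ, F' = psi ({w} + Multiset.replicate (r + 1) L) := ⟨_, rfl⟩
    obtain ⟨H, hHd⟩ : ∃ H : ℝ, H = hh L (r : ℝ) := ⟨_, rfl⟩
    obtain ⟨H', hHd'⟩ : ∃ H' : ℝ, H' = hh L ((r : ℝ) + 1) := ⟨_, rfl⟩
    rw [← hF, ← hHd] at ih
    rw [← hF, ← hF', ← hHd'] at hrec
    rw [← hHd, ← hHd'] at hH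
    rw [← hHd'] at hH0
    rw [← hF', ← hHd']
    have hpos : (0 : ℝ) < (w : ℝ) + r + 1 := by positivity
    have h1 : ((r : ℝ) + 1) * (((w : ℝ) + 1) * ((w : ℝ) + r + 1) * F) ≤
        ((w : ℝ) + r + 1 + L * r) * (((r : ℝ) + L + 1) * H') := by
      have h2 := mul_le_mul_of_nonneg_left ih (show (0 : ℝ) ≤ (r : ℝ) + 1 by positivity)
      have h3 : ((r : ℝ) + 1) * (((w : ℝ) + r + 1 + L * r) * H) =
          ((w : ℝ) + r + 1 + L * r) * (((r : ℝ) + L + 1) * H') := by
        linear_combination -((w : ℝ) + r + 1 + L * r) * hH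
      linarith
    have h4 : 0 ≤ H' * ((L : ℝ) * r * (w - L)) :=
      mul_nonneg hH0 (mul_nonneg (mul_nonneg hL0 hr0) (by linarith))
    have h5 : ((w : ℝ) + r + 1) * (((w : ℝ) + 1) * ((w : ℝ) + (r + 1) + 1) * F') ≤
        ((w : ℝ) + r + 1) * (((w : ℝ) + (r + 1) + 1 + L * (r + 1)) * H') := by
      have e1 : ((w : ℝ) + r + 1) * (((w : ℝ) + 1) * ((w : ℝ) + (r + 1) + 1) * F') =
          ((w : ℝ) + r + 1) * ((w : ℝ) + 1) * H' +
            ((r : ℝ) + 1) * (((w : ℝ) + 1) * ((w : ℝ) + r + 1) * F) := by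
        linear_combination ((w : ℝ) + r + 1) * ((w : ℝ) + 1) * hrec
      have e2 : ((w : ℝ) + r + 1) * (((w : ℝ) + (r + 1) + 1 + L * (r + 1)) * H') =
          ((w : ℝ) + r + 1) * ((w : ℝ) + 1) * H' +
          ((w : ℝ) + r + 1 + L * r) * (((r : ℝ) + L + 1) * H') + H' * ((L : ℝ) * r * (w - L)) := by
        ring
      rw [e1, e2]
      linarith
    exact le_of_mul_le_mul_left h5 hpos

end Pool.Agent.LRF
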