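import Mathlib
import Pool.Agent.LRF.A1

set_option autoImplicit false

namespace Pool.Agent.LRF

open Finset
open Pool.Agent.LRE Pool.Agent.LRT

/-- ratio of rectangles (from the proof of `row_rect`) -/
theorem A2_hrat (w L : ℕ) (hL : L ≤ w) (r : ℕ) :
    hh L (r : ℝ) ≤ hh w (r : ℝ) * (((w : ℝ) + 1) / ((L : ℝ) + 1)) ^ r := by
  set u : ℝ := ((w : ℝ) + 1) / ((L : ℝ) + 1) with hu
  have hL1 : (0 : ℝ) < (L : ℝ) + 1 := by positivity
  have hLw : (L : ℝ) ≤ w := by exact_mod_cast hL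
  have hu1 : 1 ≤ u := by
    rw [hu, le_div_iff₀ hL1]
    linarith
  induction r with
  | zero =>
    rw [Nat.cast_zero, hh_zero_right, hh_zero_right, pow_zero, mul_one]
  | succ r ih =>
    rw [hh_nat_succ, hh_nat_succ]
    have h1 : ((r : ℝ) + 1) / ((r : ℝ) + L + 1) ≤ ((r : ℝ) + 1) / ((r : ℝ) + w + 1) * u := by
      rw [div_mul_eq_mul_div, div_le_div_iff₀ (by positivity) (by positivity)]
      have h2 : (r : ℝ) + w + 1 ≤ u * ((r : ℝ) + L + 1) := by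
        have h3 : u * ((L : ℝ) + 1) = (w : ℝ) + 1 := by
          rw [hu, div_mul_cancel₀ _ hL1.ne']
        have h4 : (r : ℝ) ≤ u * r := by
          have : (0 : ℝ) ≤ r := Nat.cast_nonneg r
          nlinarith
        linarith
      have h5 : (0 : ℝ) ≤ (r : ℝ) + 1 := by positivity
      nlinarith
    have h2 : 0 ≤ hh w (r : ℝ) * u ^ r := by
      have := (hh_pos w (Nat.cast_nonneg r : (0 : ℝ) ≤ (r : ℝ))).le
      positivity
    calc hh L (r : ℝ) * (((r : ℝ) + 1) / ((r : ℝ) + L + 1))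
        ≤ (hh w (r : ℝ) * u ^ r) * (((r : ℝ) + 1) / ((r : ℝ) + w + 1) * u) :=
          mul_le_mul ih h1 (by positivity) h2
      _ = hh w (r : ℝ) * (((r : ℝ) + 1) / ((r : ℝ) + w + 1)) * u ^ (r + 1) := by ring

/-- Row LRF-A2. `r ≥ 1`. Let `ν = {w}`, `F j = psi ({w} + replicate j L)`, `H j = hh L j`
(`psi_rect j L`), `u = (w+1)/(L+1)`.
`secant L (r-1) {w} τ` gives `σ ≥ 0` with (1) `σ (H (r-1) - H r) = F (r-1) - F r`,
(2) `σ H r ≤ F r`, (3) `psi ({w} + τ) ≤ F r + σ (psi τ - H r)`.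
With the hypothesis: `psi ({w} + τ) ≤ F r + σ (κ G H r - H r) = (F r - σ H r) + κ G σ H r
≤ κ ((F r - σ H r) + G σ H r) = κ (F r + σ H r (G - 1))` by (2), `κ ≥ 1`.
By `hh_nat_succ`, `H (r-1) - H r = H r L / r` (`H r (L + r) = H (r-1) r`), and by `Fr_rec`
(for `r - 1`) `r (F (r-1) - F r) = (w+1) F r - H r`; so (1) is `σ H r L = (w+1) F r - H r`, and
`Fr_bound` gives `σ (w + r + 1) ≤ r`.
Also `H r = hh L r ≤ hh w r * u^r` (this is `hrat` inside the proof of `row_rect`, LRT/J2.lean; copy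
its proof) and `hh w r = hh w (r+1) * ((w+r+1)/(r+1))` (`hh_nat_succ`), so
`σ H r ≤ hh w (r+1) * (r/(r+1)) * u^r`. Finally `F r ≤ hh w (r+1) (1 + u^r)/2` is `row_rect`. -/
theorem step_dom (w L r : ℕ) (τ : Multiset ℕ) (κ G : ℝ) (hL1 : 1 ≤ L) (hLw : L ≤ w) (hr : 1 ≤ r)
    (hκ : 1 ≤ κ) (hG : 1 ≤ G) (hτ : ∀ x ∈ τ, x ≤ L) (h : psi τ ≤ κ * (G * hh L (r : ℝ))) :
    psi ({w} + τ) ≤ κ * (hh w ((r : ℝ) + 1) *
      ((1 + (((w : ℝ) + 1) / ((L : ℝ) + 1)) ^ r) / 2 +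
        (r : ℝ) / ((r : ℝ) + 1) * (((w : ℝ) + 1) / ((L : ℝ) + 1)) ^ r * (G - 1))) := by
  obtain ⟨k, rfl⟩ : ∃ k, r = k + 1 := ⟨r - 1, by omega⟩
  obtain ⟨σ, hσ0, e1, e2, e3⟩ := secant L k {w} τ hL1
    (fun x hx => by rw [Multiset.mem_singleton] at hx; rw [hx]; exact hLw) hτ
  have hrow := row_rect w L (k + 1) hLw
  have hFr := Fr_bound w L (k + 1) hLw
  have hrec := Fr_rec w L k hLw
  have hra := A2_hrat w L hLw (k + 1)
  rw [psi_rect, psi_rect] at e1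
  rw [psi_rect] at e2 e3
  set u : ℝ := ((w : ℝ) + 1) / ((L : ℝ) + 1) with hu
  set F1 := psi ({w} + Multiset.replicate (k + 1) L) with hF1
  set F0 := psi ({w} + Multiset.replicate k L) with hF0
  have hH1 : hh L ((k + 1 : ℕ) : ℝ) = hh L (k : ℝ) * (((k : ℝ) + 1) / ((k : ℝ) + L + 1)) :=
    hh_nat_succ L k
  have hH1' : hh L ((k : ℝ) + 1) = hh L ((k + 1 : ℕ) : ℝ) := by push_cast; rfl
  rw [hH1'] at hrec
  have hH1pos : 0 < hh L ((k + 1 : ℕ) : ℝ) := hh_pos L (Nat.cast_nonneg _)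
  have hHw : hh w (((k + 1 : ℕ) : ℝ) + 1) =
      hh w ((k + 1 : ℕ) : ℝ) * ((((k + 1 : ℕ) : ℝ) + 1) / (((k + 1 : ℕ) : ℝ) + w + 1)) :=
    hh_add_one w (Nat.cast_nonneg _)
  set H0 := hh L (k : ℝ) with hH0
  set H1 := hh L ((k + 1 : ℕ) : ℝ) with hH1d
  set W1 := hh w ((k + 1 : ℕ) : ℝ) with hW1
  set W2 := hh w (((k + 1 : ℕ) : ℝ) + 1) with hW2
  have hkL : (0 : ℝ) < (k : ℝ) + L + 1 := by positivity
  have hk1 : (0 : ℝ) < (k : ℝ) + 1 := by positivity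
  have hLpos : (0 : ℝ) < L := by exact_mod_cast hL1
  -- H0 (k+1) = H1 (k+L+1)
  have a1 : H0 * ((k : ℝ) + 1) = H1 * ((k : ℝ) + L + 1) := by
    rw [hH1]
    field_simp
  -- σ H1 L = (w+1) F1 - H1
  have a2 : σ * H1 * L = ((w : ℝ) + 1) * F1 - H1 := by
    have b1 : ((k : ℝ) + 1) * (σ * (H0 - H1)) = ((k : ℝ) + 1) * (F0 - F1) := by rw [e1]
    have b2 : ((k : ℝ) + 1) * (σ * (H0 - H1)) = σ * H1 * L := by
      have : ((k : ℝ) + 1) * (σ * (H0 - H1)) = σ * (H0 * ((k : ℝ) + 1) - H1 * ((k : ℝ) + 1)) := by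
        ring
      rw [this, a1]
      ring
    rw [b2] at b1
    rw [b1]
    linarith
  have a3 : σ * ((w : ℝ) + k + 2) ≤ (k : ℝ) + 1 := by
    push_cast at hFr
    have b3 : (σ * ((w : ℝ) + k + 2)) * (H1 * L) ≤ ((k : ℝ) + 1) * (H1 * L) := by
      have b4 : (σ * ((w : ℝ) + k + 2)) * (H1 * L) = ((w : ℝ) + k + 2) * (σ * H1 * L) := by ring
      rw [b4, a2]
      have b5 : ((w : ℝ) + k + 2) * (((w : ℝ) + 1) * F1 - H1) =
          ((w : ℝ) + 1) * ((w : ℝ) + (k + 1) + 1) * F1 - ((w : ℝ) + k + 2) * H1 := by ring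
      rw [b5]
      nlinarith
    exact le_of_mul_le_mul_right b3 (mul_pos hH1pos hLpos)
  have hwk : (0 : ℝ) < (w : ℝ) + k + 2 := by positivity
  have a4 : W1 = W2 * (((w : ℝ) + k + 2) / ((k : ℝ) + 2)) := by
    rw [hHw]
    push_cast
    have : (0 : ℝ) < (k : ℝ) + 1 + w + 1 := by positivity
    field_simp
    ring
  have hu0 : 0 ≤ u := by positivity
  have hW2pos : 0 < W2 := hh_pos w (by positivity)
  have a5 : σ * H1 ≤ W2 * (((k : ℝ) + 1) / ((k : ℝ) + 2)) * u ^ (k + 1) := by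
    have b1 : σ * H1 ≤ σ * (W1 * u ^ (k + 1)) := mul_le_mul_of_nonneg_left hra hσ0
    have b2 : σ * (W1 * u ^ (k + 1)) =
        (σ * ((w : ℝ) + k + 2)) * (W2 / ((k : ℝ) + 2) * u ^ (k + 1)) := by
      rw [a4]
      field_simp
    have b3 : (σ * ((w : ℝ) + k + 2)) * (W2 / ((k : ℝ) + 2) * u ^ (k + 1)) ≤
        ((k : ℝ) + 1) * (W2 / ((k : ℝ) + 2) * u ^ (k + 1)) :=
      mul_le_mul_of_nonneg_right a3 (by positivity)
    have b4 : ((k : ℝ) + 1) * (W2 / ((k : ℝ) + 2) * u ^ (k + 1)) =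
        W2 * (((k : ℝ) + 1) / ((k : ℝ) + 2)) * u ^ (k + 1) := by ring
    linarith
  have a6 : psi ({w} + τ) ≤ F1 + σ * (κ * (G * H1) - H1) := by
    refine e3.trans ?_
    have := mul_le_mul_of_nonneg_left (sub_le_sub_right h H1) hσ0
    linarith
  have a7 : F1 + σ * (κ * (G * H1) - H1) ≤ κ * (F1 + σ * H1 * (G - 1)) := by
    have := mul_nonneg (sub_nonneg.mpr hκ) (sub_nonneg.mpr e2)
    nlinarith
  refine a6.trans (a7.trans (mul_le_mul_of_nonneg_left ?_ (by linarith)))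
  have a8 : σ * H1 * (G - 1) ≤ W2 * (((k : ℝ) + 1) / ((k : ℝ) + 2)) * u ^ (k + 1) * (G - 1) :=
    mul_le_mul_of_nonneg_right a5 (by linarith)
  have a9 : ((k + 1 : ℕ) : ℝ) / (((k + 1 : ℕ) : ℝ) + 1) = ((k : ℝ) + 1) / ((k : ℝ) + 2) := by
    push_cast
    congr 1
    ring
  rw [a9]
  calc F1 + σ * H1 * (G - 1)
      ≤ W2 * ((1 + u ^ (k + 1)) / 2) +
        W2 * (((k : ℝ) + 1) / ((k : ℝ) + 2)) * u ^ (k + 1) * (G - 1) := add_le_add hrow a8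
    _ = W2 * ((1 + u ^ (k + 1)) / 2 +
        ((k : ℝ) + 1) / ((k : ℝ) + 2) * u ^ (k + 1) * (G - 1)) := by ring

end Pool.Agent.LRF
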