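import Mathlib
import Pool.Agent.LRF.A1

set_option autoImplicit false

namespace Pool.Agent.LRF

open Finset
open Pool.Agent.LRE Pool.Agent.LRT

theorem a3_hh (w L r : ℕ) : hh L (r : ℝ) = hh w (r : ℝ) * gK w L r := by
  induction r with
  | zero => rw [Nat.cast_zero, hh_zero_right, hh_zero_right, gK_zero, one_mul]
  | succ r ih =>
    rw [hh_nat_succ, hh_nat_succ, gK_succ, ih]
    have h1 : (r : ℝ) + L + 1 ≠ 0 := by positivity
    have h2 : (r : ℝ) + w + 1 ≠ 0 := by positivity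
    have h3 : (L : ℝ) + ((r : ℝ) + 1) ≠ 0 := by positivity
    field_simp
    ring

theorem a3_hh2 (w r : ℕ) : hh w ((r : ℝ) + 2) * ((w : ℝ) + r + 2) =
    hh w ((r : ℝ) + 1) * ((r : ℝ) + 2) := by
  have h := hh_nat_succ w (r + 1)
  have e1 : ((r + 1 + 1 : ℕ) : ℝ) = (r : ℝ) + 2 := by
    push_cast
    ring
  have e2 : ((r + 1 : ℕ) : ℝ) = (r : ℝ) + 1 := by push_cast; ring
  rw [e1, e2] at h
  rw [h]
  have h1 : (r : ℝ) + 1 + w + 1 ≠ 0 := by positivity
  field_simp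
  ring

theorem a3_id (w L : ℕ) (r : ℕ) : ((w : ℝ) + 1) * (∑ K ∈ range (r + 1), gK w L K) -
    ((w : ℝ) + r + 1) * gK w L r = L * ∑ K ∈ range r, gK w L (K + 1) := by
  induction r with
  | zero => simp [gK_zero]
  | succ r ih =>
    rw [sum_range_succ, sum_range_succ (n := r) (f := fun K => gK w L (K + 1)), mul_add, mul_add,
      ← ih, gK_succ]
    have h3 : (L : ℝ) + ((r : ℝ) + 1) ≠ 0 := by positivity
    push_cast
    field_simp
    ring

/-- Row LRF-A3. Induction on `r` (for all `L ≤ w`), with `Fr_rec`, `hh_nat_succ`, `gK_succ` and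
`hh L r = hh w r * gK w L r` (induction on `r`). Equivalent form of the recursion:
`(w + r + 2) (r+1) Σ_{r+1} = (r + 2) (...)`; the identity needed is
`(w + 1) Σ_{K ≤ r} gK K + ... ` — just use
`F (r+1) (w+r+2) = H (r+1) + (r+1) F r`, `hh w (r+2) = hh w (r+1) (r+2)/(w+r+2)`,
`H (r+1) = hh w (r+1) gK (r+1)`. -/
theorem rect_exact (w L r : ℕ) (hL : L ≤ w) :
    psi ({w} + Multiset.replicate r L) =
      hh w ((r : ℝ) + 1) / ((r : ℝ) + 1) * ∑ K ∈ range (r + 1), gK w L K := by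
  induction r with
  | zero =>
    have h1 := psi_rect 1 w
    rw [Multiset.replicate_one] at h1
    rw [Multiset.replicate_zero, add_zero, h1, zero_add, range_one, sum_singleton, gK_zero]
    norm_num
  | succ r ih =>
    have h1 := Fr_rec w L r hL
    have h2 := a3_hh w L (r + 1)
    have h3 := a3_hh2 w r
    have e1 : (((r + 1 : ℕ) : ℝ)) = (r : ℝ) + 1 := by push_cast; ring
    rw [sum_range_succ]
    rw [ih] at h1
    rw [e1] at h2 ⊢
    rw [h2] at h1
    have e2 : (r : ℝ) + 1 + 1 = (r : ℝ) + 2 := by ring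
    rw [e2]
    have h4 : (w : ℝ) + r + 2 ≠ 0 := by positivity
    have h5 : (r : ℝ) + 1 ≠ 0 := by positivity
    have h6 : (r : ℝ) + 2 ≠ 0 := by positivity
    apply mul_left_cancel₀ h4
    rw [h1]
    have e3 : ((w : ℝ) + r + 2) * (hh w ((r : ℝ) + 2) / ((r : ℝ) + 2) *
        (∑ K ∈ range (r + 1), gK w L K + gK w L (r + 1))) =
        hh w ((r : ℝ) + 2) * ((w : ℝ) + r + 2) / ((r : ℝ) + 2) *
        (∑ K ∈ range (r + 1), gK w L K + gK w L (r + 1)) := by ring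
    rw [e3, h3, mul_div_assoc, div_self h6, mul_one]
    field_simp
    ring

/-- Row LRF-A3. Exact value of `w, L^{r-1}, L - b`. By `mix_one L (L-b)` (LRT/C5.lean):
`psi (ν + (L^{r-1} + {L-b})) = a psi (ν + L^{r-1}) + b' psi (ν + L^r)`, `a + b' = 1`, for `ν = ∅` and
`ν = {w}`; for `ν = ∅`, `j3_near L (r-1) b` (LRT/J3.lean) and `psi_rect` give
`a (H (r-1) - H r) = H r * b/(r (L+1-b))`, and `H (r-1) - H r = H r L/r`, so `a = b/(L (L+1-b))`.
For `ν = {w}`: the value is `F r + a (F (r-1) - F r)` and, by `Fr_rec`,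
`r (F (r-1) - F r) = (w+1) F r - H r`. With `rect_exact` the claim becomes
`(w+1) Σ_{K ≤ r} gK K - (r+1) gK r * ... `; the needed identity is
`(w + 1) ∑_{K<r} gK K - r gK r = L ∑_{K<r} gK (K+1)` (induction on `r`, `gK_succ`). -/
theorem near_exact (w L r b : ℕ) (hr : 1 ≤ r) (hL1 : 1 ≤ L) (hLw : L ≤ w) (hb : b ≤ L) :
    psi ({w} + (Multiset.replicate (r - 1) L + {L - b})) =
      hh w ((r : ℝ) + 1) / ((r : ℝ) + 1) * ((∑ K ∈ range (r + 1), gK w L K) +
        (b : ℝ) / ((L : ℝ) + 1 - b) * ((∑ K ∈ range r, gK w L (K + 1)) / r)) := by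
  obtain ⟨q, rfl⟩ : ∃ q, r = q + 1 := ⟨r - 1, by omega⟩
  rw [Nat.add_sub_cancel]
  obtain ⟨a, b', ha, hb', hab, hmix⟩ := mix_one L (L - b) (Nat.sub_le _ _)
  have e1 := hmix 0 (by simp) q
  have e2 := hmix {w} (fun x hx => by
    rw [Multiset.mem_singleton] at hx
    omega) q
  rw [zero_add, zero_add, zero_add, psi_rect, psi_rect, j3_near L q b hb, hh_nat_succ] at e1
  have hbL : (b : ℝ) ≤ L := by exact_mod_cast hb
  have hL0 : (0 : ℝ) < L := by exact_mod_cast hL1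
  have hy : (0 : ℝ) < (L : ℝ) + 1 - b := by linarith
  have hq : (0 : ℝ) < (q : ℝ) + 1 := by positivity
  have hbb : b' = 1 - a := by linarith
  have hH : 0 < hh L (q : ℝ) := hh_pos _ (Nat.cast_nonneg _)
  have e3 : hh L ((q : ℝ) + 1) = hh L (q : ℝ) * (((q : ℝ) + 1) / ((q : ℝ) + L + 1)) := by
    have := hh_nat_succ L q
    rw [← this]
    push_cast
    ring_nf
  have hqL : (0 : ℝ) < (q : ℝ) + L + 1 := by positivity
  -- the weight
  have ha' : a * (L * ((L : ℝ) + 1 - b)) = b := by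
    rw [e3, hbb] at e1
    have h1 : hh L (q : ℝ) * (((q : ℝ) + 1) / ((q : ℝ) + L + 1) *
        (1 + (b : ℝ) / (((q : ℝ) + 1) * ((L : ℝ) + 1 - b)))) =
        hh L (q : ℝ) * (a + (1 - a) * (((q : ℝ) + 1) / ((q : ℝ) + L + 1))) := by
      linarith
    have h2 := mul_left_cancel₀ hH.ne' h1
    have h3 := congrArg (fun x => x * (((q : ℝ) + L + 1) * ((L : ℝ) + 1 - b))) h2
    beta_reduce at h3
    have e4 : ((q : ℝ) + 1) / ((q : ℝ) + L + 1) *
        (1 + (b : ℝ) / (((q : ℝ) + 1) * ((L : ℝ) + 1 - b))) *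
          (((q : ℝ) + L + 1) * ((L : ℝ) + 1 - b)) = ((q : ℝ) + 1) * ((L : ℝ) + 1 - b) + b := by
      field_simp
    have e5 : (a + (1 - a) * (((q : ℝ) + 1) / ((q : ℝ) + L + 1))) *
          (((q : ℝ) + L + 1) * ((L : ℝ) + 1 - b)) =
          (a * ((q : ℝ) + L + 1) + (1 - a) * ((q : ℝ) + 1)) * ((L : ℝ) + 1 - b) := by
      field_simp
    rw [e4, e5] at h3
    linarith
  have h1 := Fr_rec w L q hLw
  have h2 := rect_exact w L (q + 1) hLw
  have h3 := a3_hh w L (q + 1)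
  have h4 := a3_hh2 w q
  have h5 := a3_id w L (q + 1)
  have c1 : (((q + 1 : ℕ) : ℝ)) = (q : ℝ) + 1 := by push_cast; ring
  rw [c1] at h2 h3 h5 ⊢
  have c2 : (q : ℝ) + 1 + 1 = (q : ℝ) + 2 := by ring
  rw [c2] at h2 ⊢
  rw [e2]
  set F0 := psi ({w} + Multiset.replicate q L) with hF0
  set F1 := psi ({w} + Multiset.replicate (q + 1) L) with hF1
  set S := ∑ K ∈ range (q + 1 + 1), gK w L K with hS
  set T := ∑ K ∈ range (q + 1), gK w L (K + 1) with hT
  set g := gK (w : ℝ) (L : ℝ) (q + 1) with hg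
  set C := hh w ((q : ℝ) + 2) / ((q : ℝ) + 2) with hC
  have hq2 : (q : ℝ) + 2 ≠ 0 := by positivity
  -- `H (q+1) = C (w + q + 2) g`
  have h6 : hh L ((q : ℝ) + 1) = C * ((w : ℝ) + q + 2) * g := by
    rw [h3]
    have : hh w ((q : ℝ) + 1) = C * ((w : ℝ) + q + 2) := by
      rw [hC, div_mul_eq_mul_div, h4, mul_div_assoc, div_self hq2, mul_one]
    rw [this]
  rw [h6, h2] at h1
  rw [h2, hbb]
  -- `(q+1) (F0 - F1) = C ((w+1) S - (w+q+2) g) = C L T`
  have h7 : ((q : ℝ) + 1) * (F0 - C * S) = C * (L * T) := by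
    rw [← h5]
    linarith
  have h8 : F0 = C * S + C * (L * T) / ((q : ℝ) + 1) := by
    field_simp
    linarith
  rw [h8]
  have h9 : (b : ℝ) / ((L : ℝ) + 1 - b) = a * L := by
    rw [div_eq_iff hy.ne']
    linarith
  rw [h9]
  ring

end Pool.Agent.LRF
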