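import Mathlib

set_option autoImplicit false

namespace Pool.Agent.LRF

open Finset

/-- Row LRF-B2. The function `∏ 1/(affine)` is convex. Weighted AM-GM
(`Real.geom_mean_le_arith_mean2_weighted`): `a^{1-t} b^t ≤ (1-t) a + t b`, so the product is at most
`(∏ 1/a)^{1-t} (∏ 1/b)^t ≤ (1-t) ∏ 1/a + t ∏ 1/b`. -/
theorem recip_chord (n : ℕ) (a b : ℕ → ℝ) (ha : ∀ i, i < n → 0 < a i) (hb : ∀ i, i < n → 0 < b i)
    (t : ℝ) (h0 : 0 ≤ t) (h1 : t ≤ 1) :
    ∏ i ∈ range n, ((1 - t) * a i + t * b i)⁻¹ ≤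
      (1 - t) * ∏ i ∈ range n, (a i)⁻¹ + t * ∏ i ∈ range n, (b i)⁻¹ := by
  have hA : ∀ m : ℕ, (∀ i, i < m → 0 < a i) → 0 < ∏ i ∈ range m, (a i)⁻¹ := fun m h =>
    prod_pos fun i hi => inv_pos.2 (h i (mem_range.1 hi))
  have hB : ∀ m : ℕ, (∀ i, i < m → 0 < b i) → 0 < ∏ i ∈ range m, (b i)⁻¹ := fun m h =>
    prod_pos fun i hi => inv_pos.2 (h i (mem_range.1 hi))
  have hA0 := hA n ha
  have hB0 := hB n hb
  have h2 : ∏ i ∈ range n, ((1 - t) * a i + t * b i)⁻¹ ≤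
      (∏ i ∈ range n, (a i)⁻¹) ^ (1 - t) * (∏ i ∈ range n, (b i)⁻¹) ^ t := by
    rw [← Real.finsetProd_rpow _ _ (fun i hi => (inv_pos.2 (ha i (mem_range.1 hi))).le),
      ← Real.finsetProd_rpow _ _ (fun i hi => (inv_pos.2 (hb i (mem_range.1 hi))).le),
      ← prod_mul_distrib]
    refine prod_le_prod (fun i hi => ?_) (fun i hi => ?_)
    · have h3 := ha i (mem_range.1 hi)
      have h4 := hb i (mem_range.1 hi)
      have h5 : 0 ≤ 1 - t := by linarith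
      positivity
    · have h3 := ha i (mem_range.1 hi)
      have h4 := hb i (mem_range.1 hi)
      have h5 := Real.geom_mean_le_arith_mean2_weighted (by linarith : 0 ≤ 1 - t) h0 h3.le h4.le
        (by ring)
      rw [Real.inv_rpow h3.le, Real.inv_rpow h4.le, ← mul_inv]
      exact inv_anti₀ (mul_pos (Real.rpow_pos_of_pos h3 _) (Real.rpow_pos_of_pos h4 _)) h5
  exact h2.trans (Real.geom_mean_le_arith_mean2_weighted (by linarith : 0 ≤ 1 - t) h0 hA0.le hB0.le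
    (by ring))

end Pool.Agent.LRF
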