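import Mathlib
import Pool.Agent.LRF.Defs

set_option autoImplicit false

namespace Pool.Agent.LRF

open Finset
open Pool.Agent.LRE Pool.Agent.LRT

/-- `(K+1)`-fold bound of the total growth by the last step -/
theorem B3_step (w L : ℝ) (hL : 0 ≤ L) (hw : L + 1 ≤ w) (r : ℕ) :
    gK w L (r + 1) - 1 ≤ ((r : ℝ) + 1) * (gK w L (r + 1) - gK w L r) := by
  have hd : ∀ K : ℕ, gK w L (K + 1) - gK w L K =
      gK w L K * ((w - L) / (L + ((K : ℝ) + 1))) := by
    intro K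
    rw [gK_succ]
    have : L + ((K : ℝ) + 1) ≠ 0 := by positivity
    field_simp
    ring
  have hmono : ∀ K : ℕ, gK w L (K + 1) - gK w L K ≤ gK w L (K + 2) - gK w L (K + 1) := by
    intro K
    rw [hd, show K + 2 = (K + 1) + 1 from rfl, hd, gK_succ, mul_assoc]
    refine mul_le_mul_of_nonneg_left ?_ (gK_pos (by linarith) hL K).le
    push_cast
    have h1 : (0 : ℝ) < L + ((K : ℝ) + 1) := by positivity
    have h2 : (0 : ℝ) < L + ((K : ℝ) + 1 + 1) := by positivity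
    rw [div_mul_div_comm, div_le_div_iff₀ h1 (mul_pos h1 h2)]
    have h3 : L + ((K : ℝ) + 1 + 1) ≤ w + ((K : ℝ) + 1) := by linarith
    have h4 : 0 ≤ (w - L) * (L + ((K : ℝ) + 1)) := mul_nonneg (by linarith) h1.le
    nlinarith [mul_le_mul_of_nonneg_left h3 h4]
  induction r with
  | zero =>
    rw [gK_zero]
    norm_num
  | succ r ih =>
    have h5 := hmono r
    have h6 : ((r : ℝ) + 1) * (gK w L (r + 1) - gK w L r) ≤
        ((r : ℝ) + 1) * (gK w L (r + 2) - gK w L (r + 1)) :=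
      mul_le_mul_of_nonneg_left h5 (by positivity)
    push_cast
    have e : ((r : ℝ) + 1 + 1) * (gK w L (r + 1 + 1) - gK w L (r + 1)) =
        ((r : ℝ) + 1) * (gK w L (r + 2) - gK w L (r + 1)) +
          (gK w L (r + 2) - gK w L (r + 1)) := by ring
    rw [e]
    have e2 : gK w L (r + 1 + 1) = gK w L (r + 2) := rfl
    rw [e2]
    linarith

/-- Row LRF-B3. `g K = gK w L K`, `θ = w - L ≥ 1`: `g (K+1) - g K = g K θ/(L+K+1)` is increasing in
`K` (as `g (K+1)/g K = (w+K+1)/(L+K+1) ≥ (L+K+2)/(L+K+1)`), so `g` is convex and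
`2 ∑_{K ≤ r} g K ≤ (r+1)(g 0 + g r)`.  Induction on `r` (cf. `j2_pow`): the step needs
`g 0 + g (r+1) + (r+1) (g (r+1) - g r) ≥ 2 g (r+1)`, i.e. `g (r+1) - g 0 ≤ (r+1)(g (r+1) - g r)`. -/
theorem gK_avg (w L : ℝ) (hL : 0 ≤ L) (hw : L + 1 ≤ w) (r : ℕ) :
    2 * ∑ K ∈ range (r + 1), gK w L K ≤ ((r : ℝ) + 1) * (1 + gK w L r) := by
  induction r with
  | zero =>
    rw [zero_add, sum_range_one, gK_zero]
    norm_num
  | succ r ih =>
    rw [sum_range_succ, mul_add]
    have h := B3_step w L hL hw r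
    push_cast
    linarith

/-- Row LRF-B3. Each factor `(w+i)/(L+i) ≤ (w+1)/(L+1)`. -/
theorem gK_le_pow (w L : ℝ) (hL : 0 ≤ L) (hw : L ≤ w) (r : ℕ) :
    gK w L r ≤ ((w + 1) / (L + 1)) ^ r := by
  have hw0 : 0 ≤ w := hL.trans hw
  induction r with
  | zero => rw [gK_zero, pow_zero]
  | succ r ih =>
    rw [gK_succ, pow_succ]
    refine mul_le_mul ih ?_ (by positivity) (by positivity)
    rw [div_le_div_iff₀ (by positivity) (by positivity)]
    have : (0 : ℝ) ≤ r := Nat.cast_nonneg r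
    nlinarith [mul_nonneg this (sub_nonneg.mpr hw)]

/-- Row LRF-B3. `((w+1)/(w - δ/r + 1))^r = phi r (δ/(w+1))`. -/
theorem pow_eq_phi (r : ℕ) (hr : 1 ≤ r) (w δ : ℝ) (hw : 0 ≤ w) (hδ : δ / r < w + 1) :
    ((w + 1) / (w - δ / r + 1)) ^ r = phi r (δ / (w + 1)) := by
  unfold phi
  rw [← inv_pow]
  congr 1
  have hr0 : (r : ℝ) ≠ 0 := by
    have : (0 : ℝ) < r := by exact_mod_cast hr
    exact this.ne'
  have h1 : w + 1 ≠ 0 := by positivity
  have h2 : w - δ / r + 1 ≠ 0 := by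
    have : 0 < w - δ / r + 1 := by linarith
    exact this.ne'
  have h3 : 1 - δ / (w + 1) / r = (w - δ / r + 1) / (w + 1) := by
    field_simp
    ring
  rw [h3, inv_div]

end Pool.Agent.LRF
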