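import Mathlib
import Pool.Agent.LRF.B2
import Pool.Agent.LRF.B3

set_option autoImplicit false

namespace Pool.Agent.LRF

open Finset
open Pool.Agent.LRE Pool.Agent.LRT

theorem b4_g (w L : ℝ) (K : ℕ) : gK w L K =
    (∏ i ∈ range K, (w + ((i : ℝ) + 1))) * ∏ i ∈ range K, (L + ((i : ℝ) + 1))⁻¹ := by
  unfold gK
  rw [← prod_mul_distrib]
  exact prod_congr rfl fun i _ => div_eq_mul_inv _ _

theorem b4_g2 (w L y : ℝ) (hL : 0 ≤ L) (K : ℕ) : (L + 1) * gK w L (K + 1) / y =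
    (∏ i ∈ range (K + 1), (w + ((i : ℝ) + 1))) *
      ∏ i ∈ range (K + 1), (if i = 0 then y else L + ((i : ℝ) + 1))⁻¹ := by
  rw [b4_g, prod_range_succ' (fun i : ℕ => (L + ((i : ℝ) + 1))⁻¹),
    prod_range_succ' (fun i : ℕ => (if i = 0 then y else L + ((i : ℝ) + 1))⁻¹)]
  simp only [Nat.add_eq_zero_iff, one_ne_zero, and_false, if_false, if_true, Nat.cast_zero,
    zero_add]
  have h : L + 1 ≠ 0 := by positivity
  rw [div_eq_mul_inv]
  have e : ∀ A B : ℝ, (L + 1) * (A * (B * (L + 1)⁻¹)) * y⁻¹ = A * (B * y⁻¹) * ((L + 1) * (L + 1)⁻¹) := by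
    intro A B
    ring
  rw [e, mul_inv_cancel₀ h, mul_one]

theorem b4_conv1 (w L L0 t : ℝ) (hw : 0 ≤ w) (hL0 : 0 ≤ L0) (ht0 : 0 ≤ t) (ht1 : t ≤ 1)
    (hL : L = (1 - t) * w + t * L0) (K : ℕ) : gK w L K ≤ (1 - t) + t * gK w L0 K := by
  have h := recip_chord K (fun i => w + ((i : ℝ) + 1)) (fun i => L0 + ((i : ℝ) + 1))
    (fun i _ => by positivity) (fun i _ => by positivity) t ht0 ht1
  have hP : 0 < ∏ i ∈ range K, (w + ((i : ℝ) + 1)) := prod_pos fun i _ => by positivity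
  have e1 : ∏ i ∈ range K, ((1 - t) * (w + ((i : ℝ) + 1)) + t * (L0 + ((i : ℝ) + 1)))⁻¹ =
      ∏ i ∈ range K, (L + ((i : ℝ) + 1))⁻¹ := prod_congr rfl fun i _ => by
    congr 1
    rw [hL]
    ring
  rw [e1] at h
  have e2 := b4_g w w K
  have e3 : gK w w K = 1 := by
    unfold gK
    exact prod_eq_one fun i _ => div_self (by positivity)
  rw [e3] at e2
  rw [b4_g w L K, b4_g w L0 K]
  have h2 := mul_le_mul_of_nonneg_left h hP.le
  refine h2.trans (le_of_eq ?_)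
  rw [mul_add]
  nlinarith [e2]

theorem b4_conv2 (w L L0 t y yw : ℝ) (hw : 0 ≤ w) (hL0 : 0 ≤ L0) (hLn : 0 ≤ L) (ht0 : 0 ≤ t)
    (ht1 : t ≤ 1) (hL : L = (1 - t) * w + t * L0) (hy : y = (1 - t) * yw + t * (L0 + 1))
    (hyw : 0 < yw) (K : ℕ) :
    (L + 1) * gK w L (K + 1) / y ≤ (1 - t) * ((w + 1) / yw) + t * gK w L0 (K + 1) := by
  have h := recip_chord (K + 1) (fun i => if i = 0 then yw else w + ((i : ℝ) + 1))
    (fun i => if i = 0 then L0 + 1 else L0 + ((i : ℝ) + 1))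
    (fun i _ => by split_ifs <;> positivity) (fun i _ => by split_ifs <;> positivity) t ht0 ht1
  have hP : 0 < ∏ i ∈ range (K + 1), (w + ((i : ℝ) + 1)) := prod_pos fun i _ => by positivity
  have e1 : ∏ i ∈ range (K + 1), ((1 - t) * (if i = 0 then yw else w + ((i : ℝ) + 1)) +
        t * (if i = 0 then L0 + 1 else L0 + ((i : ℝ) + 1)))⁻¹ =
      ∏ i ∈ range (K + 1), (if i = 0 then y else L + ((i : ℝ) + 1))⁻¹ := prod_congr rfl fun i _ => by
    congr 1
    split_ifs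
    · exact hy.symm
    · rw [hL]
      ring
  rw [e1] at h
  have e2 := b4_g2 w w yw hw K
  have e3 : gK w w (K + 1) = 1 := by
    unfold gK
    exact prod_eq_one fun i _ => div_self (by positivity)
  rw [e3, mul_one] at e2
  have e4 := b4_g2 w L0 (L0 + 1) hL0 K
  have e5 : (L0 + 1) * gK w L0 (K + 1) / (L0 + 1) = gK w L0 (K + 1) := by
    have : L0 + 1 ≠ 0 := by positivity
    field_simp
  rw [e5] at e4
  rw [b4_g2 w L y hLn K, e2, e4]
  have h2 := mul_le_mul_of_nonneg_left h hP.le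
  refine h2.trans (le_of_eq ?_)
  ring

/-- Row LRF-B4. Let `y = L + 1 - b = (w + 1 - δ) + (r-1)(w - L) > 0`. As `b/y = (L+1)/y - 1`, the
left side is `1 + ∑_{K<r} ((r-1)/r) g_{K+1} + (1/r) ∑_{K<r} (L+1) g_{K+1}/y`,
`g_{K+1} = ∏_{i=1}^{K+1} (w+i)/(L+i)` and `(L+1) g_{K+1}/y = (w+1) ∏_{i=2}^{K+1} (w+i)/(L+i) · 1/y`.
With `w, δ, r` fixed, every term is a constant times a product of reciprocals of positive affine
functions of `L`; so by `recip_chord` the left side at `L = (1-t) w + t (w - δ/r)`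
(`t = r (w-L)/δ ∈ [0,1]`, since `b ≥ 0`) is at most `(1-t)` times its value at `L = w` plus `t` times
its value at `L = w - δ/r =: L₀` (where `y = L₀ + 1`).
Value at `w`: `g = 1`, `1 + (r-1) + (w+1)/(w+1-δ) = (r+1)(1 + δ/((r+1)(w+1-δ)))`.
Value at `L₀`: `∑_{K ≤ r} g_K ≤ (r+1)(1 + g_r)/2` (`gK_avg`, `w - L₀ = δ/r ≥ w - L ≥ 1`) and
`g_r ≤ phi r (δ/(w+1))` (`gK_le_pow`, `pow_eq_phi`). -/
theorem N1_num (r : ℕ) (w L δ b : ℝ) (hr : 1 ≤ r) (hb : 0 ≤ b) (hL : 1 ≤ L) (hLw : L + 1 ≤ w)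
    (hδ : δ = b + r * (w - L)) (hδw : δ ≤ w) :
    (∑ K ∈ range (r + 1), gK w L K) + b / (L + 1 - b) * ((∑ K ∈ range r, gK w L (K + 1)) / r) ≤
      ((r : ℝ) + 1) * max (1 + δ / (((r : ℝ) + 1) * (w + 1 - δ))) ((1 + phi r (δ / (w + 1))) / 2) := by
  have hr1 : (1 : ℝ) ≤ r := by exact_mod_cast hr
  have hr0 : (0 : ℝ) < r := by linarith
  have hwL : 1 ≤ w - L := by linarith
  have hrwL : (r : ℝ) ≤ r * (w - L) := by nlinarith
  have hδ1 : (r : ℝ) ≤ δ := by linarith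
  have hδ0 : 0 < δ := by linarith
  have hw0 : 0 ≤ w := by linarith
  set L0 : ℝ := w - δ / r with hL0
  have hδr : δ / r ≤ δ := div_le_self hδ0.le hr1
  have hL00 : 0 ≤ L0 := by linarith
  have hδr2 : w - L ≤ δ / r := by
    rw [le_div_iff₀ hr0]
    linarith
  have hL01 : L0 + 1 ≤ w := by linarith
  set t : ℝ := r * (w - L) / δ with ht
  have ht0 : 0 ≤ t := by
    rw [ht]
    apply div_nonneg _ hδ0.le
    nlinarith
  have ht1 : t ≤ 1 := by
    rw [ht, div_le_one hδ0]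
    linarith
  have htδ : t * δ = r * (w - L) := by
    rw [ht]
    field_simp
  have htr : t * (δ / r) = w - L := by
    rw [← mul_div_assoc, htδ]
    field_simp
  have hLt : L = (1 - t) * w + t * L0 := by
    rw [hL0]
    linarith
  set y : ℝ := L + 1 - b with hy
  set yw : ℝ := w + 1 - δ with hyw
  have hyw0 : 0 < yw := by linarith
  have hyt : y = (1 - t) * yw + t * (L0 + 1) := by
    have e1 : (1 - t) * yw + t * (L0 + 1) = w + 1 - δ + t * δ - t * (δ / r) := by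
      rw [hyw, hL0]
      ring
    rw [e1, htδ, htr, hy]
    linarith
  have hy0 : 0 < y := by
    rw [hy]
    nlinarith
  -- the left side
  have hr' : (r : ℝ) ≠ 0 := hr0.ne'
  have e1 : (∑ K ∈ range (r + 1), gK w L K) + b / y * ((∑ K ∈ range r, gK w L (K + 1)) / r) =
      1 + ∑ K ∈ range r, (((r : ℝ) - 1) / r * gK w L (K + 1) +
        1 / r * ((L + 1) * gK w L (K + 1) / y)) := by
    rw [sum_range_succ', gK_zero, sum_add_distrib, ← mul_sum, ← mul_sum]
    have e2 : ∑ K ∈ range r, (L + 1) * gK w L (K + 1) / y =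
        (L + 1) / y * ∑ K ∈ range r, gK w L (K + 1) := by
      rw [mul_sum]
      exact sum_congr rfl fun K _ => by ring
    rw [e2]
    have e3 : b / y = (L + 1) / y - 1 := by
      have e3' : b = (L + 1) - y := by
        rw [hy]
        ring
      calc b / y = ((L + 1) - y) / y := congrArg (fun z => z / y) e3'
        _ = (L + 1) / y - 1 := by rw [sub_div, div_self hy0.ne']
    rw [e3]
    field_simp
    ring
  rw [e1]
  have e2 : ∑ K ∈ range r, (((r : ℝ) - 1) / r * gK w L (K + 1) +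
        1 / r * ((L + 1) * gK w L (K + 1) / y)) ≤
      ∑ K ∈ range r, (((r : ℝ) - 1) / r * ((1 - t) + t * gK w L0 (K + 1)) +
        1 / r * ((1 - t) * ((w + 1) / yw) + t * gK w L0 (K + 1))) := by
    refine sum_le_sum fun K _ => ?_
    have h1 := b4_conv1 w L L0 t hw0 hL00 ht0 ht1 hLt (K + 1)
    have h2 := b4_conv2 w L L0 t y yw hw0 hL00 (by linarith) ht0 ht1 hLt hyt hyw0 K
    have h3 : 0 ≤ ((r : ℝ) - 1) / r := div_nonneg (by linarith) hr0.le
    have h4 : (0 : ℝ) ≤ 1 / r := by positivity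
    exact add_le_add (mul_le_mul_of_nonneg_left h1 h3) (mul_le_mul_of_nonneg_left h2 h4)
  have e3 : 1 + ∑ K ∈ range r, (((r : ℝ) - 1) / r * ((1 - t) + t * gK w L0 (K + 1)) +
        1 / r * ((1 - t) * ((w + 1) / yw) + t * gK w L0 (K + 1))) =
      (1 - t) * (r + (w + 1) / yw) + t * ∑ K ∈ range (r + 1), gK w L0 K := by
    rw [sum_range_succ', gK_zero]
    have e4 : ∀ K : ℕ, (((r : ℝ) - 1) / r * ((1 - t) + t * gK w L0 (K + 1)) +
        1 / r * ((1 - t) * ((w + 1) / yw) + t * gK w L0 (K + 1))) =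
        (1 - t) * (((r : ℝ) - 1) / r + 1 / r * ((w + 1) / yw)) + t * gK w L0 (K + 1) := fun K => by
      field_simp
      ring
    simp only [e4]
    rw [sum_add_distrib, sum_const, card_range, nsmul_eq_mul, ← mul_sum]
    field_simp
    ring
  have e5 : (r : ℝ) + (w + 1) / yw = ((r : ℝ) + 1) * (1 + δ / (((r : ℝ) + 1) * (w + 1 - δ))) := by
    rw [← hyw]
    have h1 : (r : ℝ) + 1 ≠ 0 := by positivity
    have h2 : w + 1 = yw + δ := by
      rw [hyw]
      ring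
    rw [h2]
    field_simp
    ring
  have h6 := gK_avg w L0 hL00 hL01 r
  have h7 := gK_le_pow w L0 hL00 (by linarith) r
  have h8 := pow_eq_phi r hr w δ hw0 (by linarith)
  rw [← hL0] at h8
  rw [h8] at h7
  set A := 1 + δ / (((r : ℝ) + 1) * (w + 1 - δ)) with hA
  set G := (1 + phi r (δ / (w + 1))) / 2 with hG
  have h9 : ∑ K ∈ range (r + 1), gK w L0 K ≤ ((r : ℝ) + 1) * G := by
    rw [hG]
    nlinarith
  have h10 : A ≤ max A G := le_max_left _ _
  have h11 : G ≤ max A G := le_max_right _ _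
  have h12 : (1 - t) * (((r : ℝ) + 1) * A) ≤ (1 - t) * (((r : ℝ) + 1) * max A G) :=
    mul_le_mul_of_nonneg_left (mul_le_mul_of_nonneg_left h10 (by positivity)) (by linarith)
  have h13 : t * (∑ K ∈ range (r + 1), gK w L0 K) ≤ t * (((r : ℝ) + 1) * max A G) :=
    mul_le_mul_of_nonneg_left (h9.trans (mul_le_mul_of_nonneg_left h11 (by positivity))) ht0
  rw [e5] at e3
  linarith

end Pool.Agent.LRF
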