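import Mathlib
import Pool.Agent.LRF.A3
import Pool.Agent.LRF.B4

set_option autoImplicit false

namespace Pool.Agent.LRF

open Finset
open Pool.Agent.LRE Pool.Agent.LRT

theorem A4_gK_self (w : ℝ) (hw : 0 ≤ w) (K : ℕ) : gK w w K = 1 := by
  unfold gK
  apply prod_eq_one
  intro i _
  exact div_self (by positivity)

/-- Row LRF-A4. `near_exact`, then `N1_num` with real arguments `w, L, δ, b` if `L < w`
(`hδ`: `δ = b + r (w - L)`), and if `L = w` the value is exactly
`hh w (r+1) * AA (r+1) w δ` (`b = δ`, `gK w w K = 1`). `GP (r+1) w δ = (1 + phi r (δ/(w+1)))/2`. -/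
theorem near_le (w L r b δ : ℕ) (hr : 1 ≤ r) (hL1 : 1 ≤ L) (hLw : L ≤ w) (hb : b ≤ L)
    (hδ : δ + r * L = b + r * w) (hδw : δ ≤ w) :
    psi ({w} + (Multiset.replicate (r - 1) L + {L - b})) ≤
      hh w ((r : ℝ) + 1) * max (AA (r + 1) w δ) (GP (r + 1) w δ) := by
  rw [near_exact w L r b hr hL1 hLw hb]
  have hhp : 0 < hh w ((r : ℝ) + 1) := hh_pos w (by positivity)
  have hr1 : (0 : ℝ) < (r : ℝ) + 1 := by positivity
  have hδw' : (δ : ℝ) ≤ w := by exact_mod_cast hδw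
  have hδR : (δ : ℝ) + r * L = b + r * w := by exact_mod_cast hδ
  have hAA : AA (r + 1) w δ = 1 + (δ : ℝ) / (((r : ℝ) + 1) * ((w : ℝ) + 1 - δ)) := by
    unfold AA
    push_cast
    rfl
  have hGP : GP (r + 1) w δ = (1 + phi r ((δ : ℝ) / ((w : ℝ) + 1))) / 2 := by
    unfold GP
    rw [Nat.add_sub_cancel]
  rw [hAA, hGP]
  rcases Nat.lt_or_ge L w with hlt | hge
  · have h := N1_num r (w : ℝ) (L : ℝ) (δ : ℝ) (b : ℝ) hr (Nat.cast_nonneg b)
      (by exact_mod_cast hL1) (by exact_mod_cast hlt) (by linarith) hδw'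
    have h2 := mul_le_mul_of_nonneg_left h (div_pos hhp hr1).le
    refine h2.trans (le_of_eq ?_)
    field_simp
  · have hLw' : L = w := le_antisymm hLw hge
    subst hLw'
    have hδb : δ = b := by omega
    subst hδb
    have hs1 : ∑ K ∈ range (r + 1), gK (L : ℝ) (L : ℝ) K = (r : ℝ) + 1 := by
      rw [sum_congr rfl fun K _ => A4_gK_self (L : ℝ) (Nat.cast_nonneg L) K]
      simp
    have hs2 : ∑ K ∈ range r, gK (L : ℝ) (L : ℝ) (K + 1) = (r : ℝ) := by
      rw [sum_congr rfl fun K _ => A4_gK_self (L : ℝ) (Nat.cast_nonneg L) (K + 1)]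
      simp
    rw [hs1, hs2]
    have hr0 : (r : ℝ) ≠ 0 := by
      have : (0 : ℝ) < r := by exact_mod_cast hr
      exact this.ne'
    rw [div_self hr0, mul_one]
    refine le_trans (le_of_eq ?_) (mul_le_mul_of_nonneg_left (le_max_left _ _) hhp.le)
    have h3 : (0 : ℝ) < (L : ℝ) + 1 - δ := by linarith
    field_simp

end Pool.Agent.LRF
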