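import Mathlib
import Pool.Agent.LRF.Defs

set_option autoImplicit false

namespace Pool.Agent.LRF

open Finset
open Pool.Agent.LRE Pool.Agent.LRT

/-- Row LRF-A5. As the case (two lines) in `Pool.Agent.LRT.bgen` (LRT/J3.lean): `s = {w} + τ`,
`|τ| = w - δ ≥ 1`, `tl1` gives `psi τ ≤ psi {|τ|}`, `dom_near w 0 |τ| {w} τ 1` gives
`psi s ≤ psi ({w} + {w - δ})`, and `j3_near w 1 δ` is the exact value. -/
theorem two_rows (w δ : ℕ) (s : Multiset ℕ) (hsup : s.sup = w) (hsum : s.sum + δ = 2 * w)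
    (hδ : δ < w) : psi s ≤ hh w (2 : ℝ) * AA 2 w δ := by
  have hs0 : s ≠ 0 := by
    rintro rfl
    rw [Multiset.sup_zero] at hsup
    have : (⊥ : ℕ) = 0 := rfl
    omega
  have hw : w ∈ s := hsup ▸ a2_sup_mem s hs0
  obtain ⟨τ, rfl⟩ := Multiset.exists_cons_of_mem hw
  rw [← Multiset.singleton_add] at *
  have hτw : τ.sup ≤ w := by
    rw [← hsup, Multiset.sup_add]
    exact le_sup_right
  rw [Multiset.sum_add, Multiset.sum_singleton] at hsum
  have hK1 : 1 ≤ τ.sum := by omega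
  have hKw : τ.sum ≤ w := by omega
  have h1 : psi τ ≤ 1 * psi (Multiset.replicate 0 w + {τ.sum}) := by
    rw [one_mul, Multiset.replicate_zero, zero_add]
    have h2 := psi_rect 1 τ.sum
    rw [Multiset.replicate_one] at h2
    rw [h2, Nat.cast_one]
    obtain ⟨h, hh'⟩ : ∃ h, τ.sum = h + 1 := ⟨τ.sum - 1, by omega⟩
    have h3 := tl1 h τ hh'.ge
    rw [hh']
    exact h3
  have h2 := dom_near w 0 τ.sum {w} τ 1 (by omega) le_rfl hKw
    (fun x hx => by rw [Multiset.mem_singleton] at hx; omega)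
    (fun x hx => (Multiset.le_sup hx).trans hτw) h1
  rw [one_mul, Multiset.replicate_zero, zero_add] at h2
  refine h2.trans ?_
  have h3 := j3_near w 1 δ hδ.le
  rw [Multiset.replicate_one] at h3
  have h4 : τ.sum = w - δ := by omega
  rw [h4, h3]
  unfold AA
  have e1 : ((1 : ℕ) : ℝ) + 1 = 2 := by norm_num
  have e2 : ((2 : ℕ) : ℝ) = 2 := by norm_num
  rw [e1, e2]

end Pool.Agent.LRF
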