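import Mathlib
import Pool.Agent.LRF.Defs
import Pool.Agent.LRF.B3

set_option autoImplicit false

namespace Pool.Agent.LRF

open Finset
open Pool.Agent.LRE Pool.Agent.LRT

theorem A6_sum_le (h : ℕ) (τ : Multiset ℕ) (hc : τ.card ≤ h) (hs : τ.sup ≤ h) :
    τ.sum ≤ h * h := by
  have h1 : τ.sum ≤ τ.card • h := Multiset.sum_le_card_nsmul τ h fun x hx =>
    (Multiset.le_sup hx).trans hs
  rw [smul_eq_mul] at h1
  exact h1.trans (Nat.mul_le_mul_right h hc)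

/-- Row LRF-A6a. `N = |τ| ≤ h²`, so `r < h`; `j = N - r h`, `0 < j ≤ r ≤ h`. `sb τ h`:
`psi τ ≤ hh h (N/h) = hh h (r + j/h)`; `hh_rpow h r (j/h)` and Bernoulli
(`rpow_one_add_le_one_add_mul_self`, as in the proof of `hh_ml`, LRT/H3.lean):
`≤ hh h r (1 - (j/h) (h/(r+h+1))) = hh h r (r + h + 1 - j)/(r+h+1)`, and
`hh (h+1) r = hh h r (h+1)/(r+h+1)` (`hh_succ`). So `psi τ ≤ hh (h+1) r (r+h+1-j)/(h+1)`. -/
theorem tail_rough (r h : ℕ) (τ : Multiset ℕ) (hr : 1 ≤ r) (hc : τ.card ≤ h) (hs : τ.sup ≤ h)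
    (h1 : r * h < τ.sum) (h2 : τ.sum ≤ r * (h + 1)) :
    psi τ ≤ hh (h + 1) (r : ℝ) * (1 + ((r : ℝ) * ((h : ℝ) + 1) - (τ.sum : ℝ)) / ((h : ℝ) + 1)) := by
  have hsum := A6_sum_le h τ hc hs
  have hrh : r < h := by
    by_contra hcon
    rw [not_lt] at hcon
    have := Nat.mul_le_mul_right h hcon
    omega
  have hh1 : 1 ≤ h := by omega
  have hh0 : (0 : ℝ) < h := by exact_mod_cast hh1
  have hr0 : (0 : ℝ) ≤ r := Nat.cast_nonneg r
  have hrhR : (r : ℝ) ≤ h := by exact_mod_cast hrh.le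
  have h1R : (r : ℝ) * h < τ.sum := by exact_mod_cast h1
  have h2R : (τ.sum : ℝ) ≤ (r : ℝ) * ((h : ℝ) + 1) := by exact_mod_cast h2
  set N : ℝ := (τ.sum : ℝ) with hN
  set j : ℝ := N - r * h with hj
  have hj0 : 0 < j := by linarith
  have hjr : j ≤ r := by linarith
  have hjh0 : 0 ≤ j / h := by positivity
  have hjh1 : j / h ≤ 1 := by
    rw [div_le_one hh0]
    linarith
  have e1 : N / h = r + j / h := by
    rw [hj]
    field_simp
    ring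
  have h3 := sb τ h hh1 hc hs
  rw [← hN, e1] at h3
  have h4 := hh_rpow h r (j / h) hr0 hjh0 hjh1
  have hy : 0 < ((r : ℝ) + 1) / ((r : ℝ) + h + 1) := by positivity
  have h5 := rpow_one_add_le_one_add_mul_self (s := ((r : ℝ) + 1) / ((r : ℝ) + h + 1) - 1)
    (p := j / h) (by linarith) hjh0 hjh1
  rw [add_sub_cancel] at h5
  have h6 : hh h (r : ℝ) * (1 + j / h * (((r : ℝ) + 1) / ((r : ℝ) + h + 1) - 1)) =
      hh (h + 1) (r : ℝ) * (1 + ((r : ℝ) * ((h : ℝ) + 1) - N) / ((h : ℝ) + 1)) := by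
    rw [hh_succ]
    have hN' : N = r * h + j := by rw [hj]; ring
    rw [hN']
    have d1 : (r : ℝ) + h + 1 ≠ 0 := by positivity
    have d2 : (r : ℝ) + ((h : ℝ) + 1) ≠ 0 := by positivity
    field_simp
    ring
  rw [← h6]
  exact h3.trans (h4.trans (mul_le_mul_of_nonneg_left h5 (hh_pos h hr0).le))

/-- Row LRF-A6b. Trivial tail bound. -/
theorem crude_top (r h : ℕ) (τ : Multiset ℕ) (hr : 1 ≤ r) (hc : τ.card ≤ h) (hs : τ.sup ≤ h)
    (h1 : r * h < τ.sum) (h2 : τ.sum = r * (h + 1)) : psi τ ≤ hh (h + 1) (r : ℝ) := by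
  have h3 := tail_rough r h τ hr hc hs h1 h2.le
  have h4 : ((τ.sum : ℕ) : ℝ) = (r : ℝ) * ((h : ℝ) + 1) := by
    rw [h2]
    push_cast
    ring
  rw [h4, sub_self, zero_div, add_zero, mul_one] at h3
  exact h3

theorem A6_ineq (r h j : ℝ) (hr : 2 ≤ r) (h0 : 0 ≤ h) (hj : 0 ≤ j) (hjr : j ≤ r)
    (hc : (1 ≤ j ∧ 2 * r ≤ h + 1) ∨ j = r) :
    (r - j) / (h + 1) ≤ 1 / 5 + 3 / 5 * ((r - j) / (h + 1 + j / r)) := by
  have hr0 : 0 < r := by linarith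
  rcases hc with ⟨h1, h2⟩ | rfl
  · have h3 : j / r ≤ 1 := (div_le_one hr0).2 hjr
    have h4 : 0 ≤ j / r := by positivity
    have h5 : (r - j) / (h + 1 + 1) ≤ (r - j) / (h + 1 + j / r) :=
      div_le_div_of_nonneg_left (by linarith) (by positivity) (by linarith)
    have h6 : (r - j) / (h + 1) ≤ 1 / 5 + 3 / 5 * ((r - j) / (h + 1 + 1)) := by
      have e : 1 / 5 + 3 / 5 * ((r - j) / (h + 1 + 1)) =
          ((h + 1 + 1) + 3 * (r - j)) / (5 * (h + 1 + 1)) := by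
        field_simp
      rw [e, div_le_div_iff₀ (by positivity) (by positivity)]
      nlinarith
    linarith
  · rw [sub_self, zero_div, zero_div]
    norm_num

theorem A6_comb (k U P A : ℝ) (hU : 1 ≤ U) (hP : 1 ≤ P) (hk : k ≤ 3 / 5 * (1 + P)) (hA : 0 ≤ A) :
    k * (A * ((1 + U) / 2)) ≤ A * (6 / 5 * ((1 + U * P) / 2)) := by
  have h1 : k * (1 + U) ≤ 3 / 5 * (1 + P) * (1 + U) :=
    mul_le_mul_of_nonneg_right hk (by linarith)
  have h2 : 0 ≤ (U - 1) * (P - 1) := mul_nonneg (by linarith) (by linarith)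
  have h3 : k * (1 + U) ≤ 6 / 5 * (1 + U * P) := by nlinarith
  calc k * (A * ((1 + U) / 2)) = A * (k * (1 + U) / 2) := by ring
    _ ≤ A * (6 / 5 * (1 + U * P) / 2) := by
        apply mul_le_mul_of_nonneg_left _ hA
        linarith
    _ = A * (6 / 5 * ((1 + U * P) / 2)) := by ring

/-- Row LRF-A6b. `psi τ ≤ κ' psi ((h+1)^r)`, `κ' = 1 + (r - j)/(h+1)`, `j = |τ| - r h` (`tail_rough`,
`psi_rect`); `dom (h+1) r {w} τ κ'` and `row_rect w (h+1) r`: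
`psi ({w} + τ) ≤ κ' hh w (r+1) (1 + u^r)/2`, `u = (w+1)/(h+2) ≥ 1`. With `N = |τ|`, `δ = r w - N`:
`phi r (δ/(w+1)) = ((w+1)/(N/r+1))^r` (`pow_eq_phi`) `= u^r P`, `P = ((h+2)/(N/r+1))^r`,
`P ≥ 1 + (r-j)/(h+1+j/r)` (Bernoulli, `(h+2)/(N/r+1) = 1 + (1-j/r)/(h+1+j/r)`).
Needed: `κ' (1 + u^r) ≤ 6/5 (1 + u^r P)`; as `u^r ≥ 1` and `P ≥ 1`, and `κ' ≤ (3/5)(1+P)`
(then `κ' (1+u^r) ≤ (6/5)(1+P)/2 (1+u^r) ≤ (6/5)(1+u^r P)`). The last inequality:
`(r-j)/(h+1) ≤ 1/5 + (3/5)(r-j)/(h+1+j/r)`: it holds for `j = r`; for `j ≤ r - 1`,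
`h + 1 ≥ 2 r`: `(r-j)/(h+1) ≤ (r-1)/(2r)`, `(h+1)/(h+1+j/r) ≥ (h+1)/(h+2) ≥ 2r/(2r+1)`, and
`(r-1)/(2r) (1 - (3/5) 2r/(2r+1)) ≤ 1/5` iff `(r-1)(4r+5) ≤ 2r(2r+1)`. -/
theorem B65 (w h r : ℕ) (τ : Multiset ℕ) (hr : 2 ≤ r) (hc : τ.card ≤ h) (hs : τ.sup ≤ h)
    (h1 : r * h < τ.sum) (h2 : τ.sum ≤ r * (h + 1)) (hhw : h + 1 ≤ w)
    (hcase : 2 * r ≤ h + 1 ∨ τ.sum = r * (h + 1)) :
    psi ({w} + τ) ≤ hh w ((r : ℝ) + 1) * (6 / 5 * GP (r + 1) w (r * w - τ.sum)) := by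
  have hr0 : (2 : ℝ) ≤ r := by exact_mod_cast hr
  have hrp : (0 : ℝ) < r := by linarith
  have hh0 : (0 : ℝ) ≤ h := Nat.cast_nonneg h
  have hw0 : (0 : ℝ) ≤ w := Nat.cast_nonneg w
  have h1R : (r : ℝ) * h < τ.sum := by exact_mod_cast h1
  have h2R : (τ.sum : ℝ) ≤ (r : ℝ) * ((h : ℝ) + 1) := by exact_mod_cast h2
  have hwR : (h : ℝ) + 1 ≤ w := by exact_mod_cast hhw
  have hNw : τ.sum ≤ r * w := h2.trans (Nat.mul_le_mul_left r hhw)
  have hδ : ((r * w - τ.sum : ℕ) : ℝ) = (r : ℝ) * w - τ.sum := by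
    rw [Nat.cast_sub hNw]
    push_cast
    ring
  have hrough := tail_rough r h τ (by omega) hc hs h1 h2
  set N : ℝ := (τ.sum : ℝ) with hN
  set j : ℝ := N - r * h with hj
  have hj0 : 0 < j := by linarith
  have hjr : j ≤ r := by linarith
  have hκe : ((r : ℝ) * ((h : ℝ) + 1) - N) / ((h : ℝ) + 1) = ((r : ℝ) - j) / ((h : ℝ) + 1) := by
    rw [hj]
    ring
  rw [hκe] at hrough
  set κ : ℝ := 1 + ((r : ℝ) - j) / ((h : ℝ) + 1) with hκ
  have hκ1 : 1 ≤ κ := by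
    have : 0 ≤ ((r : ℝ) - j) / ((h : ℝ) + 1) := div_nonneg (by linarith) (by positivity)
    linarith
  have h3 : psi τ ≤ κ * psi (Multiset.replicate r (h + 1)) := by
    rw [LRT.psi_rect, mul_comm]
    exact hrough
  have h4 := dom (h + 1) r {w} τ κ (by omega) hκ1
    (fun x hx => by
      rw [Multiset.mem_singleton] at hx
      omega)
    (fun x hx => ((Multiset.le_sup hx).trans hs).trans (Nat.le_succ h)) h3
  have h5 := row_rect w (h + 1) r hhw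
  set U : ℝ := (((w : ℝ) + 1) / (((h + 1 : ℕ) : ℝ) + 1)) ^ r with hU
  have hu1 : 1 ≤ ((w : ℝ) + 1) / (((h + 1 : ℕ) : ℝ) + 1) := by
    rw [one_le_div (by positivity)]
    push_cast
    linarith
  have hU1 : 1 ≤ U := one_le_pow₀ hu1
  have hden : 0 < (h : ℝ) + 1 + j / r := by positivity
  set P : ℝ := (((h : ℝ) + 2) / ((h : ℝ) + 1 + j / r)) ^ r with hP
  have hx0 : 0 ≤ (1 - j / r) / ((h : ℝ) + 1 + j / r) := by
    apply div_nonneg _ hden.le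
    rw [sub_nonneg, div_le_one hrp]
    exact hjr
  have hPB : 1 + ((r : ℝ) - j) / ((h : ℝ) + 1 + j / r) ≤ P := by
    have h6 := one_add_mul_le_pow (a := (1 - j / r) / ((h : ℝ) + 1 + j / r)) (by linarith) r
    have e1 : 1 + (r : ℝ) * ((1 - j / r) / ((h : ℝ) + 1 + j / r)) =
        1 + ((r : ℝ) - j) / ((h : ℝ) + 1 + j / r) := by
      rw [← mul_div_assoc]
      congr 2
      field_simp
    have e2 : 1 + (1 - j / r) / ((h : ℝ) + 1 + j / r) = ((h : ℝ) + 2) / ((h : ℝ) + 1 + j / r) := by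
      rw [eq_div_iff hden.ne', add_mul, div_mul_cancel₀ _ hden.ne']
      ring
    rw [e1, e2] at h6
    exact h6
  have hP1 : 1 ≤ P := by
    have : 0 ≤ ((r : ℝ) - j) / ((h : ℝ) + 1 + j / r) := div_nonneg (by linarith) hden.le
    linarith
  have hcase' : (1 ≤ j ∧ 2 * (r : ℝ) ≤ (h : ℝ) + 1) ∨ j = r := by
    rcases hcase with h6 | h6
    · left
      constructor
      · have h7 : r * h + 1 ≤ τ.sum := h1
        have h8 : (r : ℝ) * h + 1 ≤ N := by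
          rw [hN]
          exact_mod_cast h7
        linarith
      · exact_mod_cast h6
    · right
      have h7 : N = (r : ℝ) * ((h : ℝ) + 1) := by
        rw [hN]
        exact_mod_cast h6
      rw [hj, h7]
      ring
  have h7 := A6_ineq r h j hr0 hh0 hj0.le hjr hcase'
  have hκP : κ ≤ 3 / 5 * (1 + P) := by
    have h8 : κ ≤ 3 / 5 * (2 + ((r : ℝ) - j) / ((h : ℝ) + 1 + j / r)) := by
      rw [hκ]
      linarith
    linarith
  have hphi : phi r (((r * w - τ.sum : ℕ) : ℝ) / ((w : ℝ) + 1)) = U * P := by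
    rw [hδ]
    have h8 : ((r : ℝ) * w - N) / r < (w : ℝ) + 1 := by
      rw [div_lt_iff₀ hrp]
      have : 0 ≤ (r : ℝ) * h := by positivity
      nlinarith
    have h9 := pow_eq_phi r (by omega) w ((r : ℝ) * w - N) hw0 h8
    rw [← h9, hU, hP, ← mul_pow]
    congr 1
    have e3 : (w : ℝ) - ((r : ℝ) * w - N) / r + 1 = (h : ℝ) + 1 + j / r := by
      rw [hj]
      field_simp
      ring
    rw [e3]
    push_cast
    have d1 : (h : ℝ) + 1 + 1 ≠ 0 := by positivity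
    rw [div_mul_div_comm, div_eq_div_iff hden.ne' (mul_ne_zero d1 hden.ne')]
    ring
  have hGP : GP (r + 1) w (r * w - τ.sum) = (1 + U * P) / 2 := by
    unfold GP
    rw [Nat.add_sub_cancel, hphi]
  rw [hGP]
  have hA : 0 ≤ hh w ((r : ℝ) + 1) := (hh_pos w (by linarith)).le
  refine h4.trans ((mul_le_mul_of_nonneg_left h5 (by linarith)).trans ?_)
  exact A6_comb κ U P _ hU1 hP1 hκP hA

end Pool.Agent.LRF
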