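import Mathlib
import Pool.Agent.LRF.Defs
import Pool.Agent.LRF.B3

set_option autoImplicit false

namespace Pool.Agent.LRF

open Finset
open Pool.Agent.LRE Pool.Agent.LRT

/-- Row LRF-A7. `dom (h+1) r {w} τ 1` (`psi_rect`), `row_rect w (h+1) r`, and
`((w+1)/(h+2))^r ≤ ((w+1)/(N/r+1))^r = phi r ((r w - N)/(w+1))` (`pow_eq_phi`, `N = |τ| ≤ r (h+1)`). -/
theorem B_one (w h r : ℕ) (τ : Multiset ℕ) (hr : 1 ≤ r) (hs : τ.sup ≤ h + 1) (h2 : τ.sum ≤ r * (h + 1))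
    (hhw : h + 1 ≤ w) (h3 : psi τ ≤ hh (h + 1) (r : ℝ)) :
    psi ({w} + τ) ≤ hh w ((r : ℝ) + 1) * (1 * GP (r + 1) w (r * w - τ.sum)) := by
  have hhw' : ((h + 1 : ℕ) : ℝ) ≤ w := by exact_mod_cast hhw
  have h4 := dom (h + 1) r {w} τ 1 (by omega) le_rfl (fun x hx => by
    rw [Multiset.mem_singleton] at hx
    omega) (fun x hx => (Multiset.le_sup hx).trans hs) (by
      rw [psi_rect, one_mul]
      exact h3)
  have h5 := row_rect w (h + 1) r hhw
  rw [one_mul] at h4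
  refine (h4.trans h5).trans ?_
  rw [one_mul]
  apply mul_le_mul_of_nonneg_left _ (hh_pos _ (by positivity)).le
  unfold GP
  rw [Nat.add_sub_cancel]
  have hN : τ.sum ≤ r * w := h2.trans (Nat.mul_le_mul_left r hhw)
  have hr0 : (0 : ℝ) < r := by
    have : 0 < r := by omega
    exact_mod_cast this
  have hc : ((r * w - τ.sum : ℕ) : ℝ) = r * w - τ.sum := by
    rw [Nat.cast_sub hN]
    push_cast
    ring
  rw [hc]
  have hN0 : (0 : ℝ) ≤ τ.sum := Nat.cast_nonneg _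
  have hN1 : ((τ.sum : ℕ) : ℝ) ≤ r * ((h + 1 : ℕ) : ℝ) := by exact_mod_cast h2
  have e1 : ((r : ℝ) * w - τ.sum) / r = w - τ.sum / r := by
    field_simp
  have h6 : (τ.sum : ℝ) / r ≤ ((h + 1 : ℕ) : ℝ) := by
    rw [div_le_iff₀ hr0]
    linarith
  have h7 : 0 ≤ (τ.sum : ℝ) / r := by positivity
  have h8 := pow_eq_phi r hr w ((r : ℝ) * w - τ.sum) (Nat.cast_nonneg _) (by
    rw [e1]
    linarith)
  rw [← h8, e1]
  have h9 : (((w : ℝ) + 1) / (((h + 1 : ℕ) : ℝ) + 1)) ^ r ≤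
      (((w : ℝ) + 1) / ((w : ℝ) - (w - (τ.sum : ℝ) / r) + 1)) ^ r := by
    apply pow_le_pow_left₀ (by positivity)
    apply div_le_div_of_nonneg_left (by positivity)
    · linarith
    · linarith
  linarith

end Pool.Agent.LRF
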