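import Mathlib
import Pool.Agent.LRF.Defs

set_option autoImplicit false

namespace Pool.Agent.LRF

open Finset
open Pool.Agent.LRE Pool.Agent.LRT

/-- `phi m θ ≥ e^θ` for `θ < m` (copy of `exp_le_phi`). -/
theorem B1_exp_le_phi (m : ℕ) (hm : 1 ≤ m) (θ : ℝ) (h : θ < m) : Real.exp θ ≤ phi m θ := by
  have hm0 : (0 : ℝ) < m := by exact_mod_cast hm
  have h1 : 0 < 1 - θ / m := by
    rw [sub_pos, div_lt_one hm0]
    exact h
  have h2 : 1 - θ / m ≤ Real.exp (-(θ / m)) := by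
    have := Real.add_one_le_exp (-(θ / m))
    linarith
  have h3 : (1 - θ / m) ^ m ≤ Real.exp (-θ) := by
    have h4 := pow_le_pow_left₀ h1.le h2 m
    rw [← Real.exp_nat_mul] at h4
    have e : (m : ℝ) * -(θ / m) = -θ := by
      field_simp
    rw [e] at h4
    exact h4
  unfold phi
  rw [← inv_inv (Real.exp θ), ← Real.exp_neg]
  exact inv_anti₀ (pow_pos h1 m) h3

/-- the ratio of two consecutive values, `r = k + 1` -/
theorem B1_ratio (k : ℕ) (hk : 1 ≤ k) (x : ℝ) (h1 : x ≤ 1) :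
    phi k x * (1 - x ^ 2 / ((k : ℝ) + 1 - x) ^ 2) ≤ phi (k + 1) x := by
  have hk0 : (1 : ℝ) ≤ k := by exact_mod_cast hk
  rcases eq_or_lt_of_le (h1.trans hk0) with hxk | hxk
  · -- x = k
    have : phi k x = 0 := by
      unfold phi
      rw [hxk, div_self (by linarith), sub_self, zero_pow (by omega), inv_zero]
    rw [this, zero_mul]
    unfold phi
    have h3 : x / ((k + 1 : ℕ) : ℝ) ≤ 1 := by
      rw [div_le_one (by positivity)]
      push_cast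
      linarith
    exact inv_nonneg.mpr (pow_nonneg (by linarith) _)
  have hR : (0 : ℝ) < (k : ℝ) + 1 - x := by linarith
  have hq : (0 : ℝ) < 1 - x / k := by
    rw [sub_pos, div_lt_one (by linarith)]
    exact hxk
  have hq1 : (0 : ℝ) < 1 - x / ((k + 1 : ℕ) : ℝ) := by
    rw [sub_pos, div_lt_one (by positivity)]
    push_cast
    linarith
  have hkne : (k : ℝ) ≠ 0 := by linarith
  have hRne : (k : ℝ) + 1 - x ≠ 0 := hR.ne'
  have hk1ne : (k : ℝ) + 1 ≠ 0 := by linarith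
  have hρ : (1 - x / k) = (1 - x / ((k + 1 : ℕ) : ℝ)) * (1 + -(x / (k * ((k : ℝ) + 1 - x)))) := by
    push_cast
    field_simp
    ring
  have hx2 : -2 ≤ -(x / (k * ((k : ℝ) + 1 - x))) := by
    have h4 : x / (k * ((k : ℝ) + 1 - x)) ≤ 1 := by
      rw [div_le_one (by positivity)]
      nlinarith
    linarith
  have hbern := one_add_mul_le_pow hx2 k
  have hbern2 : 1 - x / ((k : ℝ) + 1 - x) ≤ (1 + -(x / (k * ((k : ℝ) + 1 - x)))) ^ k := by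
    refine le_trans (le_of_eq ?_) hbern
    field_simp
    ring
  unfold phi
  have hA : 0 < (1 - x / (k : ℝ)) ^ k := pow_pos hq k
  have hB : 0 < (1 - x / ((k + 1 : ℕ) : ℝ)) ^ (k + 1) := pow_pos hq1 _
  rw [inv_mul_le_iff₀ hA, ← div_eq_mul_inv, le_div_iff₀ hB]
  have e1 : (1 - x / (k : ℝ)) ^ k = (1 - x / ((k + 1 : ℕ) : ℝ)) ^ k *
      (1 + -(x / (k * ((k : ℝ) + 1 - x)))) ^ k := by
    rw [← mul_pow, ← hρ]
  rw [e1, pow_succ]
  have e2 : (1 - x ^ 2 / ((k : ℝ) + 1 - x) ^ 2) * (1 - x / ((k + 1 : ℕ) : ℝ)) =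
      1 - x / ((k : ℝ) + 1 - x) := by
    push_cast
    field_simp
    ring
  calc (1 - x ^ 2 / ((k : ℝ) + 1 - x) ^ 2) *
        ((1 - x / ((k + 1 : ℕ) : ℝ)) ^ k * (1 - x / ((k + 1 : ℕ) : ℝ)))
      = (1 - x / ((k + 1 : ℕ) : ℝ)) ^ k *
        ((1 - x ^ 2 / ((k : ℝ) + 1 - x) ^ 2) * (1 - x / ((k + 1 : ℕ) : ℝ))) := by ring
    _ = (1 - x / ((k + 1 : ℕ) : ℝ)) ^ k * (1 - x / ((k : ℝ) + 1 - x)) := by rw [e2]
    _ ≤ (1 - x / ((k + 1 : ℕ) : ℝ)) ^ k * (1 + -(x / (k * ((k : ℝ) + 1 - x)))) ^ k :=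
        mul_le_mul_of_nonneg_left hbern2 (pow_pos hq1 k).le

/-- Row LRF-B1. `phi q θ = ((1 - θ/q)^q)⁻¹`.
For `r ≥ 4`: `phi r x / phi (r-1) x = ((1 - x/(r-1))/(1 - x/r))^{r-1} / (1 - x/r)`,
`(1 - x/(r-1))/(1 - x/r) = 1 - x/((r-1)(r-x))`, Bernoulli (`one_add_mul_le_pow`):
`(...)^{r-1} ≥ 1 - x/(r-x)`, so `phi r x ≥ phi (r-1) x * (1 - x²/(r-x)²)`.
It remains `phi (r-1) x * (1 - (r+1) x²/(r-x)²) ≥ 1`; `phi (r-1) x ≥ exp x ≥ 1 + x + x²/2`
(`exp_le_phi` in LRP/A1.lean, or directly), and `(r+1)/(r-x)² ≤ 5/(4-x)²` for `r ≥ 4`, so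
`(1 + x + x²/2)((4-x)² - 5x²) ≥ (4-x)²` on `[0,1]` is enough.
For `r = 3`: `(3/4)((1-x/2)^{-2} - 1) ≤ (1-x/3)^{-3} - 1`, a polynomial inequality on `[0,1]`. -/
theorem phi_N2 (r : ℕ) (hr : 3 ≤ r) (x : ℝ) (h0 : 0 ≤ x) (h1 : x ≤ 1) :
    (r : ℝ) / ((r : ℝ) + 1) * (phi (r - 1) x - 1) ≤ phi r x - 1 := by
  rcases eq_or_lt_of_le hr with h3 | h4
  · subst h3
    unfold phi
    norm_num
    have hA : 0 < (1 - x / 2) ^ 2 := pow_pos (by linarith) 2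
    have hB : 0 < (1 - x / 3) ^ 3 := pow_pos (by linarith) 3
    rw [← sub_nonneg]
    have e0 : ∀ A B : ℝ, A ≠ 0 → B ≠ 0 → B⁻¹ - 1 - 3 / 4 * (A⁻¹ - 1) =
        ((1 - B) * A - 3 / 4 * ((1 - A) * B)) * (B⁻¹ * A⁻¹) := by
      intro A B hA' hB'
      field_simp
    have e : ((1 - x / 3) ^ 3)⁻¹ - 1 - 3 / 4 * (((1 - x / 2) ^ 2)⁻¹ - 1) =
        (x * (1 / 4 - 19 / 48 * x + 79 / 432 * x ^ 2 - 13 / 432 * x ^ 3 + 1 / 432 * x ^ 4)) *
          (((1 - x / 3) ^ 3)⁻¹ * ((1 - x / 2) ^ 2)⁻¹) := by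
      rw [e0 _ _ hA.ne' hB.ne']
      congr 1
      ring
    have h5 : 0 ≤ 1 / 4 - 19 / 48 * x + 79 / 432 * x ^ 2 - 13 / 432 * x ^ 3 + 1 / 432 * x ^ 4 := by
      nlinarith [mul_nonneg h0 (sub_nonneg.mpr h1), pow_nonneg h0 4, pow_nonneg h0 3,
        mul_nonneg (pow_nonneg h0 2) (sub_nonneg.mpr h1), sq_nonneg (1 - x),
        mul_nonneg h0 (sq_nonneg (1 - x))]
    have := mul_nonneg (mul_nonneg h0 h5) (mul_nonneg (inv_nonneg.mpr hB.le)
      (inv_nonneg.mpr hA.le))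
    rw [← e] at this
    exact this
  · obtain ⟨k, rfl⟩ : ∃ k, r = k + 1 := ⟨r - 1, by omega⟩
    have hk3 : 3 ≤ k := by omega
    have hk3' : (3 : ℝ) ≤ k := by exact_mod_cast hk3
    simp only [Nat.add_sub_cancel]
    have hrat := B1_ratio k (by omega) x h1
    have ha : 1 + x + x ^ 2 / 2 ≤ phi k x :=
      (Real.quadratic_le_exp_of_nonneg h0).trans
        (B1_exp_le_phi k (by omega) x (by linarith))
    set a := phi k x
    set b := phi (k + 1) x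
    push_cast
    have hR : (0 : ℝ) < (k : ℝ) + 1 - x := by linarith
    have hR4 : (0 : ℝ) < 4 - x := by linarith
    have h5 : ((k : ℝ) + 2) / ((k : ℝ) + 1 - x) ^ 2 ≤ 5 / (4 - x) ^ 2 := by
      rw [div_le_div_iff₀ (by positivity) (by positivity)]
      nlinarith [mul_nonneg (sub_nonneg.mpr hk3') (by linarith : (0 : ℝ) ≤ 6 + x),
        mul_nonneg (mul_nonneg (sub_nonneg.mpr hk3') (by linarith : (0 : ℝ) ≤ 6 + x)) hR4.le,
        mul_nonneg (sub_nonneg.mpr hk3') (sub_nonneg.mpr hk3')]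
    have h6 : 1 ≤ (1 + x + x ^ 2 / 2) * (1 - 5 / (4 - x) ^ 2 * x ^ 2) := by
      have e : (1 + x + x ^ 2 / 2) * (1 - 5 / (4 - x) ^ 2 * x ^ 2) =
          1 + x * (16 - 5 * x - 8 * x ^ 2 - 2 * x ^ 3) / (4 - x) ^ 2 := by
        field_simp
        ring
      rw [e]
      have h7 : 0 ≤ 16 - 5 * x - 8 * x ^ 2 - 2 * x ^ 3 := by
        have : x ^ 2 ≤ 1 := pow_le_one₀ h0 h1
        have : x ^ 3 ≤ 1 := pow_le_one₀ h0 h1
        linarith
      have : 0 ≤ x * (16 - 5 * x - 8 * x ^ 2 - 2 * x ^ 3) / (4 - x) ^ 2 := by positivity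
      linarith
    have h8 : 0 ≤ 1 - 5 / (4 - x) ^ 2 * x ^ 2 := by
      by_contra hneg
      rw [not_le] at hneg
      have : (1 + x + x ^ 2 / 2) * (1 - 5 / (4 - x) ^ 2 * x ^ 2) ≤ 0 :=
        mul_nonpos_of_nonneg_of_nonpos (by positivity) hneg.le
      linarith
    have h9 : 1 ≤ a * (1 - ((k : ℝ) + 2) / ((k : ℝ) + 1 - x) ^ 2 * x ^ 2) := by
      refine h6.trans ?_
      refine mul_le_mul ha ?_ h8 ?_
      · have := mul_le_mul_of_nonneg_right h5 (sq_nonneg x)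
        linarith
      · refine le_trans ?_ ha
        positivity
    have h10 : ((k : ℝ) + 1) * (a - 1) ≤ ((k : ℝ) + 1 + 1) * (b - 1) := by
      have h11 := mul_le_mul_of_nonneg_left hrat (by positivity : (0 : ℝ) ≤ (k : ℝ) + 2)
      have e : ((k : ℝ) + 2) * (a * (1 - x ^ 2 / ((k : ℝ) + 1 - x) ^ 2)) =
          ((k : ℝ) + 1) * a + a * (1 - ((k : ℝ) + 2) / ((k : ℝ) + 1 - x) ^ 2 * x ^ 2) := by
        ring
      rw [e] at h11
      linarith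
    rw [div_mul_eq_mul_div, div_le_iff₀ (by positivity)]
    linarith

end Pool.Agent.LRF
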