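import Mathlib
import Pool.Agent.LRF.A2
import Pool.Agent.LRF.A4
import Pool.Agent.LRF.A5
import Pool.Agent.LRF.B1

set_option autoImplicit false

namespace Pool.Agent.LRF

open Finset
open Pool.Agent.LRE Pool.Agent.LRT

theorem a8_phi (r : ℕ) (w L δ b : ℝ) (hr : 1 ≤ r) (hw : 0 ≤ w) (hL : 0 ≤ L) (hbL : b ≤ L)
    (hδ : δ = b + r * (w - L)) :
    ((w + 1) / (L + 1)) ^ r * phi r (b / (L + 1)) = phi r (δ / (w + 1)) := by
  have hr0 : (1 : ℝ) ≤ r := by exact_mod_cast hr
  have hr' : (r : ℝ) ≠ 0 := by positivity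
  have h1 : w + 1 ≠ 0 := by positivity
  have h2 : L + 1 ≠ 0 := by positivity
  have hpos : 0 < L + 1 - b / r := by
    have h3 : b / r ≤ L := by
      rcases le_total 0 b with hb | hb
      · exact (div_le_self hb hr0).trans hbL
      · have : b / r ≤ 0 := div_nonpos_of_nonpos_of_nonneg hb (by linarith)
        linarith
    linarith
  unfold phi
  have e1 : 1 - b / (L + 1) / r = (L + 1 - b / r) / (L + 1) := by
    field_simp
  have e2 : 1 - δ / (w + 1) / r = (L + 1 - b / r) / (w + 1) := by
    rw [hδ]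
    field_simp
    ring
  rw [e1, e2, ← inv_pow, ← inv_pow, ← mul_pow]
  congr 1
  have h4 : L + 1 - b / r ≠ 0 := hpos.ne'
  rw [inv_div, inv_div]
  field_simp

/-- the induction -/
theorem stageF (κ : ℝ) (hκ : 1 ≤ κ) (R : ℕ → ℕ → Prop)
    (hRA : ∀ r w L : ℕ, 3 ≤ r → R (r + 1) w → (r - 1) * w < r * L → L ≤ w → R r L)
    (hRB : ∀ (r w h : ℕ) (τ : Multiset ℕ), 2 ≤ r → R (r + 1) w → (∀ x ∈ τ, 0 < x) → τ.card ≤ h →
      τ.sup ≤ h → r * h < τ.sum → τ.sum ≤ r * (h + 1) → (r - 1) * w < τ.sum → τ.sum ≤ r * w →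
      h + 1 ≤ w →
      psi ({w} + τ) ≤ hh w ((r : ℝ) + 1) * (κ * GP (r + 1) w (r * w - τ.sum))) :
    ∀ (m w δ : ℕ) (s : Multiset ℕ), 3 ≤ m → R m w → (∀ x ∈ s, 0 < x) → s.sup = w → s.card ≤ w →
      s.sum + δ = m * w → δ < w → psi s ≤ hh w (m : ℝ) * max (AA m w δ) (κ * GP m w δ) := by
  intro m
  induction m with
  | zero =>
    intro w δ s h1
    omega
  | succ r ih =>
    intro w δ s hm3 hR hpos hsup hcard hsum hδ
    have hr2 : 2 ≤ r := by omega
    have hκ0 : 0 ≤ κ := by linarith
    have hs0 : s ≠ 0 := by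
      rintro rfl
      rw [Multiset.sup_zero] at hsup
      have : (⊥ : ℕ) = 0 := rfl
      omega
    have hw : w ∈ s := hsup ▸ a2_sup_mem s hs0
    obtain ⟨τ, rfl⟩ := Multiset.exists_cons_of_mem hw
    rw [← Multiset.singleton_add] at *
    have hτpos : ∀ x ∈ τ, 0 < x := fun x hx => hpos x (Multiset.mem_add.2 (Or.inr hx))
    have hτw : τ.sup ≤ w := by
      rw [← hsup, Multiset.sup_add]
      exact le_sup_right
    rw [Multiset.card_add, Multiset.card_singleton] at hcard
    rw [Multiset.sum_add, Multiset.sum_singleton, Nat.succ_mul] at hsum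
    have hK : τ.sum + δ = r * w := by omega
    have e3 : ((r + 1 : ℕ) : ℝ) = (r : ℝ) + 1 := by push_cast; ring
    rw [e3]
    have hhw : 0 < hh w ((r : ℝ) + 1) := hh_pos _ (by positivity)
    have hGP := GP_ge_one (r + 1) w δ (by omega) hδ.le
    obtain ⟨L, hL⟩ : ∃ L, L = max τ.card τ.sup := ⟨_, rfl⟩
    have hcL : τ.card ≤ L := hL ▸ le_max_left _ _
    have hsL : τ.sup ≤ L := hL ▸ le_max_right _ _
    have hLw : L ≤ w := by
      rw [hL]
      exact max_le (by omega) hτw
    obtain ⟨q, hq⟩ : ∃ q, r = q + 1 := ⟨r - 1, by omega⟩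
    have hrw : r * w = q * w + w := by rw [hq, Nat.succ_mul]
    have hq' : r - 1 = q := by omega
    have hKlow : q * w < τ.sum := by omega
    have hτL : ∀ x ∈ τ, x ≤ L := fun x hx => (Multiset.le_sup hx).trans hsL
    rcases Nat.lt_or_ge (r * L) τ.sum with hA | hA
    · -- (B)
      have hdiv : ∃ h, r * h < τ.sum ∧ τ.sum ≤ r * (h + 1) := by
        refine ⟨(τ.sum - 1) / r, ?_, ?_⟩
        · have := Nat.mul_div_le (τ.sum - 1) r
          omega
        · have h1 := Nat.lt_mul_div_succ (τ.sum - 1) (show 0 < r by omega)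
          omega
      obtain ⟨h, hh1, hh2⟩ := hdiv
      have hLh : L ≤ h := by
        have : r * L < r * (h + 1) := lt_of_lt_of_le hA hh2
        have := Nat.lt_of_mul_lt_mul_left this
        omega
      have hhw' : h < w := by
        have : r * h < r * w := by omega
        exact Nat.lt_of_mul_lt_mul_left this
      have h1 := hRB r w h τ hr2 hR hτpos (by omega) (by omega) hh1 hh2 (by rw [hq']; exact hKlow)
        (by omega) hhw'
      have e4 : r * w - τ.sum = δ := by omega
      rw [e4] at h1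
      exact h1.trans (mul_le_mul_of_nonneg_left (le_max_right _ _) hhw.le)
    · -- (A)
      obtain ⟨b, hb⟩ : ∃ b, τ.sum + b = r * L := ⟨r * L - τ.sum, by omega⟩
      have hbL : b < L := by
        have h1 : r * L = q * L + L := by rw [hq, Nat.succ_mul]
        have h2 : q * L ≤ q * w := Nat.mul_le_mul_left q hLw
        omega
      have hL1 : 1 ≤ L := by omega
      have hbr : (b : ℝ) ≤ L := by exact_mod_cast hbL.le
      -- the bound for the tail
      have hmain : ∀ τ' : Multiset ℕ, (∀ x ∈ τ', 0 < x) → τ'.sup = L → τ'.card ≤ L →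
          τ'.sum + b = r * L → psi τ' ≤ hh L (r : ℝ) * AA r L b ∨
            (3 ≤ r ∧ psi τ' ≤ hh L (r : ℝ) * (κ * GP r L b)) := by
        intro τ' c1 c2 c3 c4
        rcases Nat.lt_or_ge r 3 with hr3 | hr3
        · have hr : r = 2 := by omega
          subst hr
          left
          exact_mod_cast two_rows L b τ' c2 c4 hbL
        · have hRL : R r L := hRA r w L hr3 hR (by rw [hq']; omega) hLw
          have h1 := ih L b τ' hr3 hRL c1 c2 c3 c4 hbL
          rcases le_total (AA r L b) (κ * GP r L b) with h2 | h2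
          · rw [max_eq_right h2] at h1
            exact Or.inr ⟨hr3, h1⟩
          · rw [max_eq_left h2] at h1
            exact Or.inl h1
      have hIH : psi τ ≤ hh L (r : ℝ) * AA r L b ∨
            (3 ≤ r ∧ psi τ ≤ hh L (r : ℝ) * (κ * GP r L b)) := by
        rcases le_total τ.card τ.sup with h | h
        · have hLs : τ.sup = L := by rw [hL, max_eq_right h]
          exact hmain τ hτpos hLs hcL hb
        · have hLs : τ.card = L := by rw [hL, max_eq_left h]
          have h1 := hmain (conj τ) (conj_pos τ) (by rw [conj_sup τ hτpos, hLs])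
            (by rw [conj_card]; exact hsL) (by rw [conj_sum]; exact hb)
          rwa [psi_conj] at h1
      have hνL : ∀ x ∈ ({w} : Multiset ℕ), L ≤ x := fun x hx => by
        rw [Multiset.mem_singleton] at hx
        omega
      rcases hIH with hI | ⟨hr3, hI⟩
      · -- near rectangle
        have h1 : psi τ ≤ 1 * psi (Multiset.replicate (r - 1) L + {L - b}) := by
          rw [one_mul, j3_near L (r - 1) b hbL.le, hq']
          unfold AA at hI
          have e1 : (r : ℝ) = (q : ℝ) + 1 := by rw [hq]; push_cast; ring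
          rw [e1] at hI
          exact hI
        have h2 := dom_near L (r - 1) (L - b) {w} τ 1 hL1 le_rfl (by omega) hνL hτL h1
        rw [one_mul] at h2
        have h3 := near_le w L r b δ (by omega) hL1 hLw hbL.le (by omega) hδ.le
        refine (h2.trans h3).trans (mul_le_mul_of_nonneg_left ?_ hhw.le)
        apply max_le_max le_rfl
        exact le_mul_of_one_le_left (by linarith) hκ
      · have hG := GP_ge_one r L b hr2 hbL.le
        have h1 := step_dom w L r τ κ (GP r L b) hL1 hLw (by omega) hκ hG hτL (by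
          calc psi τ ≤ hh L (r : ℝ) * (κ * GP r L b) := hI
            _ = κ * (GP r L b * hh L (r : ℝ)) := by ring)
        refine h1.trans ?_
        have hL1r : (0 : ℝ) < (L : ℝ) + 1 := by positivity
        have hx0 : (0 : ℝ) ≤ (b : ℝ) / ((L : ℝ) + 1) := by positivity
        have hx1 : (b : ℝ) / ((L : ℝ) + 1) ≤ 1 := by
          rw [div_le_one hL1r]
          linarith
        have h2 := phi_N2 r hr3 ((b : ℝ) / ((L : ℝ) + 1)) hx0 hx1
        have hr1 : (r : ℝ) * w = τ.sum + δ := by exact_mod_cast hK.symm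
        have hr2' : (r : ℝ) * L = τ.sum + b := by exact_mod_cast hb.symm
        have h3 := a8_phi r (w : ℝ) (L : ℝ) (δ : ℝ) (b : ℝ) (by omega) (Nat.cast_nonneg _)
          (Nat.cast_nonneg _) hbr (by linarith)
        set u : ℝ := ((w : ℝ) + 1) / ((L : ℝ) + 1) with hu
        have hu0 : 0 < u ^ r := by
          have : 0 < u := by
            rw [hu]
            positivity
          exact pow_pos this r
        have h4 : (1 + u ^ r) / 2 + (r : ℝ) / ((r : ℝ) + 1) * u ^ r * (GP r L b - 1) ≤
            GP (r + 1) w δ := by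
          unfold GP
          rw [Nat.add_sub_cancel, ← h3]
          have h5 := mul_le_mul_of_nonneg_left h2 hu0.le
          have e5 : (1 + u ^ r) / 2 + (r : ℝ) / ((r : ℝ) + 1) * u ^ r *
              ((1 + phi (r - 1) ((b : ℝ) / ((L : ℝ) + 1))) / 2 - 1) =
              (1 + u ^ r) / 2 + u ^ r * ((r : ℝ) / ((r : ℝ) + 1) *
                (phi (r - 1) ((b : ℝ) / ((L : ℝ) + 1)) - 1)) / 2 := by ring
          rw [e5]
          linarith
        calc κ * (hh w ((r : ℝ) + 1) *
              ((1 + u ^ r) / 2 + (r : ℝ) / ((r : ℝ) + 1) * u ^ r * (GP r L b - 1)))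
            ≤ κ * (hh w ((r : ℝ) + 1) * GP (r + 1) w δ) :=
              mul_le_mul_of_nonneg_left (mul_le_mul_of_nonneg_left h4 hhw.le) hκ0
          _ = hh w ((r : ℝ) + 1) * (κ * GP (r + 1) w δ) := by ring
          _ ≤ hh w ((r : ℝ) + 1) * max (AA (r + 1) w δ) (κ * GP (r + 1) w δ) :=
              mul_le_mul_of_nonneg_left (le_max_right _ _) hhw.le

end Pool.Agent.LRF
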