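import Mathlib
import Pool.Agent.LRF.A6
import Pool.Agent.LRF.A8

set_option autoImplicit false

namespace Pool.Agent.LRF

open Finset
open Pool.Agent.LRE Pool.Agent.LRT

theorem A9_ar (r w L : ℕ) (hr : 4 ≤ r) (hw : 2 * (r + 1) ≤ w) (h : (r - 1) * w < r * L) :
    2 * r ≤ L := by
  by_contra hc
  obtain ⟨k, rfl⟩ : ∃ k, r = k + 4 := ⟨r - 4, by omega⟩
  have e : k + 4 - 1 = k + 3 := by omega
  rw [e] at h
  have h1 : (k + 3) * (2 * (k + 4 + 1)) ≤ (k + 3) * w := Nat.mul_le_mul_left _ hw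
  have h2 : (k + 4) * L ≤ (k + 4) * (2 * (k + 4) - 1) := Nat.mul_le_mul_left _ (by omega)
  have e2 : 2 * (k + 4) - 1 = 2 * k + 7 := by omega
  rw [e2] at h2
  nlinarith

/-- Row LRF-A9. `stageF (6/5) _ R1`.
`hRA`: `r = 3`: `R1 3 L` holds always. `r = 4`: `w ≥ 10`, `4 L > 3 w ≥ 30`, `L ≥ 8`. `r ≥ 5`:
`w ≥ 2(r+1)`, `r L > (r-1) w ≥ 2 (r-1)(r+1) = 2 r² - 2`, so `L ≥ 2 r` (`r (2r-1) = 2r² - r ≤ 2r²-2`).
`hRB`: `B65`; its case hypothesis: `r = 2`: `2 h < N ≤ h²` gives `h ≥ 3`. `r = 3` (`w ≥ 7`):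
`N > 2 w ≥ 14`, `N ≤ 3 (h+1)`: `h ≥ 4`; if `h = 4` then `N = 15 = 3 (h+1)`, else `6 ≤ h + 1`.
`r ≥ 4`: `w ≥ 2 (r+1)`, `r (h+1) ≥ N > (r-1) w ≥ 2r² - 2`, so `h + 1 ≥ 2 r`. (`N ≤ h²`:
`sum_le_card_mul τ τ.sup`, in LRT/T2.lean.) -/
theorem S1 (m w δ : ℕ) (s : Multiset ℕ) (hm : 3 ≤ m) (hR : R1 m w) (hpos : ∀ x ∈ s, 0 < x)
    (hsup : s.sup = w) (hcard : s.card ≤ w) (hsum : s.sum + δ = m * w) (hδ : δ < w) :
    psi s ≤ hh w (m : ℝ) * max (AA m w δ) (6 / 5 * GP m w δ) := by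
  refine stageF (6 / 5) (by norm_num) R1 ?_ ?_ m w δ s hm hR hpos hsup hcard hsum hδ
  · intro r w L hr hR hlt hL
    unfold R1 at hR ⊢
    by_cases h3 : r = 3
    · exact Or.inl h3
    by_cases h4 : r = 4
    · subst h4
      right; left
      refine ⟨rfl, ?_⟩
      omega
    · right; right
      refine ⟨by omega, A9_ar r w L (by omega) (by omega) hlt⟩
  · intro r w h τ hr hR hpos hc hs h1 h2 hlow hup hhw
    refine B65 w h r τ hr hc hs h1 h2 hhw ?_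
    unfold R1 at hR
    have hle : ∀ x ∈ τ, x ≤ h := fun x hx => (Multiset.le_sup hx).trans hs
    have hN : τ.sum ≤ h * h := by
      have h5 := Multiset.sum_le_card_nsmul τ h hle
      rw [smul_eq_mul] at h5
      exact h5.trans (Nat.mul_le_mul_right _ hc)
    by_cases h22 : r = 2
    · subst h22
      left
      have h6 : 2 * h < h * h := lt_of_lt_of_le h1 hN
      have h7 : 2 < h := lt_of_mul_lt_mul_right h6 (Nat.zero_le _)
      omega
    by_cases h33 : r = 3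
    · subst h33
      by_cases h8 : 6 ≤ h + 1
      · left
        exact h8
      · right
        omega
    · left
      exact A9_ar r w (h + 1) (by omega) (by omega) (lt_of_lt_of_le hlow h2)

end Pool.Agent.LRF
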