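import Mathlib
import Pool.Agent.LRF.Defs

set_option autoImplicit false

namespace Pool.Agent.LRF

open Finset
open Pool.Agent.LRE Pool.Agent.LRT

theorem C0_three (n : ℕ) : (0 : ℝ) ≤ (n : ℝ) * ((n : ℝ) - 1) * ((n : ℝ) - 2) := by
  rcases n with _ | _ | _ | n
  · norm_num
  · norm_num
  · norm_num
  · push_cast
    have e : ((n : ℝ) + 1 + 1 + 1) * ((n : ℝ) + 1 + 1 + 1 - 1) * ((n : ℝ) + 1 + 1 + 1 - 2) =
        ((n : ℝ) + 3) * ((n : ℝ) + 2) * ((n : ℝ) + 1) := by ring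
    rw [e]
    positivity

theorem C0_five (n : ℕ) : (0 : ℝ) ≤ (n : ℝ) * ((n : ℝ) - 1) * ((n : ℝ) - 2) * ((n : ℝ) - 3) *
    ((n : ℝ) - 4) := by
  rcases n with _ | _ | _ | _ | _ | n
  · norm_num
  · norm_num
  · norm_num
  · norm_num
  · norm_num
  · push_cast
    have e : ((n : ℝ) + 1 + 1 + 1 + 1 + 1) * ((n : ℝ) + 1 + 1 + 1 + 1 + 1 - 1) *
        ((n : ℝ) + 1 + 1 + 1 + 1 + 1 - 2) * ((n : ℝ) + 1 + 1 + 1 + 1 + 1 - 3) *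
        ((n : ℝ) + 1 + 1 + 1 + 1 + 1 - 4) =
        ((n : ℝ) + 5) * ((n : ℝ) + 4) * ((n : ℝ) + 3) * ((n : ℝ) + 2) * ((n : ℝ) + 1) := by ring
    rw [e]
    positivity

/-- Row LRF-C0. Induction on `n` (Bonferroni): multiply the bound for `n` by `1 - x ≥ 0`; the only
extra term is `C(n,3) x⁴ ≥ 0`. -/
theorem bonf3 (n : ℕ) (x : ℝ) (h0 : 0 ≤ x) (h1 : x ≤ 1) :
    1 - (n : ℝ) * x + (n : ℝ) * ((n : ℝ) - 1) / 2 * x ^ 2 -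
      (n : ℝ) * ((n : ℝ) - 1) * ((n : ℝ) - 2) / 6 * x ^ 3 ≤ (1 - x) ^ n := by
  induction n with
  | zero => norm_num
  | succ n ih =>
    have h2 := mul_le_mul_of_nonneg_right ih (sub_nonneg.mpr h1)
    have h3 : 0 ≤ (n : ℝ) * ((n : ℝ) - 1) * ((n : ℝ) - 2) / 6 * x ^ 4 :=
      mul_nonneg (div_nonneg (C0_three n) (by norm_num)) (pow_nonneg h0 4)
    rw [pow_succ (1 - x) n]
    push_cast
    have e : (1 - (n : ℝ) * x + (n : ℝ) * ((n : ℝ) - 1) / 2 * x ^ 2 -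
        (n : ℝ) * ((n : ℝ) - 1) * ((n : ℝ) - 2) / 6 * x ^ 3) * (1 - x) =
        1 - ((n : ℝ) + 1) * x + ((n : ℝ) + 1) * ((n : ℝ) + 1 - 1) / 2 * x ^ 2 -
        ((n : ℝ) + 1) * ((n : ℝ) + 1 - 1) * ((n : ℝ) + 1 - 2) / 6 * x ^ 3 +
        (n : ℝ) * ((n : ℝ) - 1) * ((n : ℝ) - 2) / 6 * x ^ 4 := by ring
    rw [e] at h2
    linarith

/-- Row LRF-C0. The same with two more terms. -/
theorem bonf5 (n : ℕ) (x : ℝ) (h0 : 0 ≤ x) (h1 : x ≤ 1) :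
    1 - (n : ℝ) * x + (n : ℝ) * ((n : ℝ) - 1) / 2 * x ^ 2 -
      (n : ℝ) * ((n : ℝ) - 1) * ((n : ℝ) - 2) / 6 * x ^ 3 +
      (n : ℝ) * ((n : ℝ) - 1) * ((n : ℝ) - 2) * ((n : ℝ) - 3) / 24 * x ^ 4 -
      (n : ℝ) * ((n : ℝ) - 1) * ((n : ℝ) - 2) * ((n : ℝ) - 3) * ((n : ℝ) - 4) / 120 * x ^ 5 ≤
      (1 - x) ^ n := by
  induction n with
  | zero => norm_num
  | succ n ih =>
    have h2 := mul_le_mul_of_nonneg_right ih (sub_nonneg.mpr h1)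
    have h3 : 0 ≤ (n : ℝ) * ((n : ℝ) - 1) * ((n : ℝ) - 2) * ((n : ℝ) - 3) *
        ((n : ℝ) - 4) / 120 * x ^ 6 :=
      mul_nonneg (div_nonneg (C0_five n) (by norm_num)) (pow_nonneg h0 6)
    rw [pow_succ (1 - x) n]
    push_cast
    have e : (1 - (n : ℝ) * x + (n : ℝ) * ((n : ℝ) - 1) / 2 * x ^ 2 -
        (n : ℝ) * ((n : ℝ) - 1) * ((n : ℝ) - 2) / 6 * x ^ 3 +
        (n : ℝ) * ((n : ℝ) - 1) * ((n : ℝ) - 2) * ((n : ℝ) - 3) / 24 * x ^ 4 -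
        (n : ℝ) * ((n : ℝ) - 1) * ((n : ℝ) - 2) * ((n : ℝ) - 3) * ((n : ℝ) - 4) / 120 * x ^ 5) *
        (1 - x) =
        1 - ((n : ℝ) + 1) * x + ((n : ℝ) + 1) * ((n : ℝ) + 1 - 1) / 2 * x ^ 2 -
        ((n : ℝ) + 1) * ((n : ℝ) + 1 - 1) * ((n : ℝ) + 1 - 2) / 6 * x ^ 3 +
        ((n : ℝ) + 1) * ((n : ℝ) + 1 - 1) * ((n : ℝ) + 1 - 2) * ((n : ℝ) + 1 - 3) / 24 * x ^ 4 -
        ((n : ℝ) + 1) * ((n : ℝ) + 1 - 1) * ((n : ℝ) + 1 - 2) * ((n : ℝ) + 1 - 3) *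
          ((n : ℝ) + 1 - 4) / 120 * x ^ 5 +
        (n : ℝ) * ((n : ℝ) - 1) * ((n : ℝ) - 2) * ((n : ℝ) - 3) *
          ((n : ℝ) - 4) / 120 * x ^ 6 := by ring
    rw [e] at h2
    linarith

end Pool.Agent.LRF
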