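import Mathlib
import Pool.Agent.LRF.C0

set_option autoImplicit false

namespace Pool.Agent.LRF

open Finset
open Pool.Agent.LRE Pool.Agent.LRT

theorem C1_poly5 (r H : ℝ) (hr : 5 ≤ r) (hH : 3 * r - 1 ≤ H) :
    18 * (r + 1) * H ^ 3 * r ^ 2 ≤ (12 * H ^ 2 * r ^ 2 + 3 * r * (r - 1) * H * (H - 2) ^ 2 -
      (r - 1) * (r - 2) * (H - 2) ^ 3) * (5 * H - 3 * (r + 1)) := by
  obtain ⟨b, rfl⟩ : ∃ b, r = 5 + b := ⟨r - 5, by ring⟩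
  obtain ⟨a, rfl⟩ : ∃ a, H = 3 * (5 + b) - 1 + a := ⟨H - (3 * (5 + b) - 1), by ring⟩
  have hb : 0 ≤ b := by linarith
  have ha : 0 ≤ a := by linarith
  rw [← sub_nonneg]
  have e : (12 * (3 * (5 + b) - 1 + a) ^ 2 * (5 + b) ^ 2 +
      3 * (5 + b) * ((5 + b) - 1) * (3 * (5 + b) - 1 + a) * ((3 * (5 + b) - 1 + a) - 2) ^ 2 -
      ((5 + b) - 1) * ((5 + b) - 2) * ((3 * (5 + b) - 1 + a) - 2) ^ 3) *
      (5 * (3 * (5 + b) - 1 + a) - 3 * ((5 + b) + 1)) -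
      18 * ((5 + b) + 1) * (3 * (5 + b) - 1 + a) ^ 3 * (5 + b) ^ 2 =
      860448 + 872352 * a + 1366176 * b + 975240 * a * b + 158376 * a ^ 2 + 859440 * b ^ 2 + 432072 * a * b ^ 2 + 137088 * a ^ 2 * b + 10536 * a ^ 3 + 277488 * b ^ 3 + 94608 * a * b ^ 3 + 44106 * a ^ 2 * b ^ 2 + 6716 * a ^ 3 * b + 240 * a ^ 4 + 48762 * b ^ 4 + 10206 * a * b ^ 4 + 6228 * a ^ 2 * b ^ 3 + 1406 * a ^ 3 * b ^ 2 + 100 * a ^ 4 * b + 4428 * b ^ 5 + 432 * a * b ^ 5 + 324 * a ^ 2 * b ^ 4 + 96 * a ^ 3 * b ^ 3 + 10 * a ^ 4 * b ^ 2 + 162 * b ^ 6 := by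
    ring
  rw [e]
  positivity

theorem C1_poly2 (H : ℝ) (hH : 6 ≤ H) :
    18 * (2 + 1) * H ^ 3 * 2 ^ 2 ≤ (12 * H ^ 2 * 2 ^ 2 + 3 * 2 * (2 - 1) * H * (H - 2) ^ 2 -
      (2 - 1) * (2 - 2) * (H - 2) ^ 3) * (5 * H - 3 * (2 + 1)) := by
  obtain ⟨a, rfl⟩ : ∃ a, H = 6 + a := ⟨H - 6, by ring⟩
  have ha : 0 ≤ a := by linarith
  rw [← sub_nonneg]
  have e : (12 * (6 + a) ^ 2 * 2 ^ 2 + 3 * 2 * (2 - 1) * (6 + a) * ((6 + a) - 2) ^ 2 -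
      (2 - 1) * (2 - 2) * ((6 + a) - 2) ^ 3) * (5 * (6 + a) - 3 * (2 + 1)) -
      18 * (2 + 1) * (6 + a) ^ 3 * 2 ^ 2 = 1728 + 8352 * a + 3684 * a ^ 2 + 570 * a ^ 3 + 30 * a ^ 4 := by
    ring
  rw [e]
  positivity

theorem C1_poly3 (H : ℝ) (hH : 9 ≤ H) :
    18 * (3 + 1) * H ^ 3 * 3 ^ 2 ≤ (12 * H ^ 2 * 3 ^ 2 + 3 * 3 * (3 - 1) * H * (H - 2) ^ 2 -
      (3 - 1) * (3 - 2) * (H - 2) ^ 3) * (5 * H - 3 * (3 + 1)) := by
  obtain ⟨a, rfl⟩ : ∃ a, H = 9 + a := ⟨H - 9, by ring⟩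
  have ha : 0 ≤ a := by linarith
  rw [← sub_nonneg]
  have e : (12 * (9 + a) ^ 2 * 3 ^ 2 + 3 * 3 * (3 - 1) * (9 + a) * ((9 + a) - 2) ^ 2 -
      (3 - 1) * (3 - 2) * ((9 + a) - 2) ^ 3) * (5 * (9 + a) - 3 * (3 + 1)) -
      18 * (3 + 1) * (9 + a) ^ 3 * 3 ^ 2 = 55608 + 80936 * a + 22344 * a ^ 2 + 2280 * a ^ 3 + 80 * a ^ 4 := by
    ring
  rw [e]
  positivity

theorem C1_poly4 (H : ℝ) (hH : 11 ≤ H) :
    18 * (4 + 1) * H ^ 3 * 4 ^ 2 ≤ (12 * H ^ 2 * 4 ^ 2 + 3 * 4 * (4 - 1) * H * (H - 2) ^ 2 -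
      (4 - 1) * (4 - 2) * (H - 2) ^ 3) * (5 * H - 3 * (4 + 1)) := by
  obtain ⟨a, rfl⟩ : ∃ a, H = 11 + a := ⟨H - 11, by ring⟩
  have ha : 0 ≤ a := by linarith
  rw [← sub_nonneg]
  have e : (12 * (11 + a) ^ 2 * 4 ^ 2 + 3 * 4 * (4 - 1) * (11 + a) * ((11 + a) - 2) ^ 2 -
      (4 - 1) * (4 - 2) * ((11 + a) - 2) ^ 3) * (5 * (11 + a) - 3 * (4 + 1)) -
      18 * (4 + 1) * (11 + a) ^ 3 * 4 ^ 2 = 120720 + 244350 * a + 59490 * a ^ 2 + 5130 * a ^ 3 + 150 * a ^ 4 := by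
    ring
  rw [e]
  positivity

theorem C1_mono (q : ℕ) (hq : 2 ≤ q) (x θ : ℝ) (hx : x ≤ θ) (h1 : θ ≤ 1) :
    phi q x ≤ phi q θ := by
  have hq2 : (2 : ℝ) ≤ q := by exact_mod_cast hq
  have hq0 : (0 : ℝ) < q := by linarith
  have hpθ : 0 < 1 - θ / q := by
    have : θ / q < 1 := by
      rw [div_lt_one hq0]
      linarith
    linarith
  unfold phi
  apply inv_anti₀ (by positivity)
  apply pow_le_pow_left₀ hpθ.le
  have : x / q ≤ θ / q := div_le_div_of_nonneg_right hx hq0.le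
  linarith

theorem C1_phi (r : ℕ) (H y : ℝ) (hr : 2 ≤ r) (hH : 3 * (r + 1) < 5 * H) (hH2 : 2 ≤ H)
    (hy : y = (H - 2) / H)
    (hp : 18 * ((r : ℝ) + 1) * H ^ 3 * r ^ 2 ≤ (12 * H ^ 2 * r ^ 2 + 3 * r * (r - 1) * H * (H - 2) ^ 2 -
      (r - 1) * (r - 2) * (H - 2) ^ 3) * (5 * H - 3 * (r + 1))) :
    3 * ((r : ℝ) + 1) * (1 + phi r y) ≤ 5 * H := by
  have hr2 : (2 : ℝ) ≤ r := by exact_mod_cast hr
  have hr0 : (0 : ℝ) < r := by linarith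
  have hH0 : 0 < H := by linarith
  have hy0 : 0 ≤ y := by
    rw [hy]
    exact div_nonneg (by linarith) hH0.le
  have hy1 : y ≤ 1 := by
    rw [hy, div_le_one hH0]
    linarith
  have hx0 : 0 ≤ y / r := div_nonneg hy0 hr0.le
  have hx1 : y / r ≤ 1 := by
    rw [div_le_one hr0]
    linarith
  have hb := bonf3 r (y / r) hx0 hx1
  set Q := (1 - y / r) ^ r with hQ
  have e : 1 - (r : ℝ) * (y / r) + (r : ℝ) * ((r : ℝ) - 1) / 2 * (y / r) ^ 2 -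
      (r : ℝ) * ((r : ℝ) - 1) * ((r : ℝ) - 2) / 6 * (y / r) ^ 3 =
      (12 * H ^ 2 * r ^ 2 + 3 * r * (r - 1) * H * (H - 2) ^ 2 -
      (r - 1) * (r - 2) * (H - 2) ^ 3) / (6 * H ^ 3 * r ^ 2) := by
    rw [hy]
    field_simp
    ring
  rw [e, div_le_iff₀ (by positivity)] at hb
  have hd : 0 < 5 * H - 3 * ((r : ℝ) + 1) := by linarith
  have h1 : 18 * ((r : ℝ) + 1) * H ^ 3 * r ^ 2 ≤ Q * (6 * H ^ 3 * r ^ 2) * (5 * H - 3 * (r + 1)) :=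
    hp.trans (mul_le_mul_of_nonneg_right hb hd.le)
  have h2 : 3 * ((r : ℝ) + 1) ≤ Q * (5 * H - 3 * (r + 1)) := by
    have h3 : 0 < 6 * H ^ 3 * (r : ℝ) ^ 2 := by positivity
    apply le_of_mul_le_mul_left _ h3
    linarith
  have hQ0 : 0 < Q := by
    rcases lt_or_ge 0 Q with h | h
    · exact h
    · exfalso
      have := mul_nonneg_of_nonpos_of_nonpos h (neg_nonpos.2 hd.le)
      nlinarith
  have h4 : phi r y = Q⁻¹ := by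
    unfold phi
    rw [hQ]
  rw [h4]
  have h5 : 3 * ((r : ℝ) + 1) * (1 + Q) ≤ 5 * H * Q := by linarith
  have h6 : 3 * ((r : ℝ) + 1) * (1 + Q⁻¹) = 3 * ((r : ℝ) + 1) * (1 + Q) / Q := by
    field_simp
    ring
  rw [h6, div_le_iff₀ hQ0]
  exact h5

/-- Row LRF-C1. `GP (r+1) h δ = (1 + phi r (δ/(h+1)))/2`, `phi r z = ((1 - z/r)^r)⁻¹`.
`AA` part: `(r+1) AA = r + 1 + δ/(h+1-δ) ≤ r + 1 + (h-1)/2 ≤ h + 1` (`2r - 1 ≤ h`).
`GP` part: `δ/(h+1) ≤ y = (h-1)/(h+1)`. For `r = 2`: `phi 2 y = (1 - y/2)^{-2}` directly, `h ≥ 5`.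
For `r ≥ 3`: by `bonf3` with `n = r`, `x = y/r`:
`(1 - y/r)^r ≥ c := 1 - y + (1-1/r) y²/2 - (1-1/r)(1-2/r) y³/6`, and
`(3/5)(r+1)(1 + c) ≤ (h+1) c`: multiply by `(h+1)³ r²`; after the substitution `h = 3r - 2 + a`,
`r = 5 + b` (for `r ≥ 5`), `h = 8 + a` (`r = 3`), `h = 10 + a` (`r = 4`) ALL COEFFICIENTS of the
polynomial `RHS - LHS` in `a, b` are positive (checked), so `positivity`/`nlinarith` after `ring_nf`.
The range: `hR` or `r = 4, h = 10`. -/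
theorem C1_num (r h δ : ℕ) (hr : 2 ≤ r) (hR : RC r h ∨ (r = 4 ∧ h = 10)) (hδ : δ + 1 ≤ h) :
    ((r : ℝ) + 1) * max (AA (r + 1) h δ) (6 / 5 * GP (r + 1) h δ) ≤ (h : ℝ) + 1 := by
  have hr2 : (2 : ℝ) ≤ r := by exact_mod_cast hr
  have hδ' : (δ : ℝ) + 1 ≤ h := by exact_mod_cast hδ
  have h2r : 2 * r ≤ h + 1 := by
    unfold RC at hR
    omega
  have h2r' : 2 * (r : ℝ) ≤ h + 1 := by exact_mod_cast h2r
  rw [mul_max_of_nonneg _ _ (by linarith)]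
  apply max_le
  · unfold AA
    have h1 : (δ : ℝ) / (h + 1 - δ) ≤ ((h : ℝ) - 1) / 2 := by
      rw [div_le_div_iff₀ (by linarith) (by norm_num)]
      nlinarith
    have h2 : ((r : ℝ) + 1) * (1 + (δ : ℝ) / (((r + 1 : ℕ) : ℝ) * ((h : ℝ) + 1 - δ))) =
        r + 1 + (δ : ℝ) / (h + 1 - δ) := by
      have h3 : (h : ℝ) + 1 - δ ≠ 0 := by
        have : 0 < (h : ℝ) + 1 - δ := by linarith
        exact this.ne'
      push_cast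
      field_simp
    rw [h2]
    linarith
  · unfold GP
    have e1 : r + 1 - 1 = r := by omega
    rw [e1]
    have hH0 : (0 : ℝ) < (h : ℝ) + 1 := by positivity
    have h1 : (δ : ℝ) / ((h : ℝ) + 1) ≤ ((h : ℝ) + 1 - 2) / ((h : ℝ) + 1) :=
      div_le_div_of_nonneg_right (by linarith) hH0.le
    have h2 : ((h : ℝ) + 1 - 2) / ((h : ℝ) + 1) ≤ 1 := by
      rw [div_le_one hH0]
      linarith
    have h3 := C1_mono r hr _ _ h1 h2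
    have hpoly : 18 * ((r : ℝ) + 1) * ((h : ℝ) + 1) ^ 3 * r ^ 2 ≤
        (12 * ((h : ℝ) + 1) ^ 2 * r ^ 2 + 3 * r * (r - 1) * ((h : ℝ) + 1) * (((h : ℝ) + 1) - 2) ^ 2 -
        (r - 1) * (r - 2) * (((h : ℝ) + 1) - 2) ^ 3) * (5 * ((h : ℝ) + 1) - 3 * (r + 1)) := by
      by_cases h5 : 5 ≤ r
      · apply C1_poly5
        · exact_mod_cast h5
        · have : 3 * r ≤ h + 2 := by
            unfold RC at hR
            omega
          have : 3 * (r : ℝ) ≤ h + 2 := by exact_mod_cast this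
          linarith
      · have h6 : (r = 2 ∧ 5 ≤ h) ∨ (r = 3 ∧ 8 ≤ h) ∨ (r = 4 ∧ 10 ≤ h) := by
          unfold RC at hR
          omega
        rcases h6 with ⟨rfl, hh⟩ | ⟨rfl, hh⟩ | ⟨rfl, hh⟩
        · have hh' : (5 : ℝ) ≤ h := by exact_mod_cast hh
          have := C1_poly2 ((h : ℝ) + 1) (by linarith)
          push_cast
          exact this
        · have hh' : (8 : ℝ) ≤ h := by exact_mod_cast hh
          have := C1_poly3 ((h : ℝ) + 1) (by linarith)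
          push_cast
          exact this
        · have hh' : (10 : ℝ) ≤ h := by exact_mod_cast hh
          have := C1_poly4 ((h : ℝ) + 1) (by linarith)
          push_cast
          exact this
    have h4 := C1_phi r ((h : ℝ) + 1) _ hr (by linarith) (by linarith) rfl hpoly
    have h5 : 3 * ((r : ℝ) + 1) * (1 + phi r ((δ : ℝ) / ((h : ℝ) + 1))) ≤
        3 * ((r : ℝ) + 1) * (1 + phi r (((h : ℝ) + 1 - 2) / ((h : ℝ) + 1))) := by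
      apply mul_le_mul_of_nonneg_left _ (by linarith)
      linarith
    linarith

end Pool.Agent.LRF
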