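import Mathlib
import Pool.Agent.LRF.Defs

set_option autoImplicit false

namespace Pool.Agent.LRF

open Finset
open Pool.Agent.LRE Pool.Agent.LRT

theorem C2_sqrt (t : ℝ) (ht : 0 < t) : ∃ y, 0 < y ∧ y ≤ t + 1 / 4 ∧
    ∀ ε : ℝ, t ^ ε = y ^ (2 * ε) := by
  refine ⟨√t, Real.sqrt_pos.2 ht, ?_, fun ε => ?_⟩
  · have h1 := Real.sq_sqrt ht.le
    nlinarith [sq_nonneg (√t - 1 / 2)]
  · rw [Real.rpow_mul (Real.sqrt_nonneg t), Real.rpow_two, Real.sq_sqrt ht.le]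

theorem C2_pow (c : ℝ) (hc : 6 ≤ c) :
    (3 / (c + 3)) ^ (3 / c) ≤ (c + 1) * (c + 2) / ((c + 3) * (c + 4)) := by
  have hc0 : 0 < c := by linarith
  obtain ⟨y, hy0, hys, hy⟩ := C2_sqrt (3 / (c + 3)) (by positivity)
  have hε0 : 0 ≤ 2 * (3 / c) := by positivity
  have hε1 : 2 * (3 / c) ≤ 1 := by
    rw [← mul_div_assoc, div_le_one hc0]
    linarith
  have h6 := rpow_one_add_le_one_add_mul_self (s := y - 1) (p := 2 * (3 / c)) (by linarith) hε0 hε1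
  rw [add_sub_cancel] at h6
  rw [hy]
  have h7 : 1 + 2 * (3 / c) * (y - 1) ≤ 1 + 2 * (3 / c) * (3 / (c + 3) + 1 / 4 - 1) := by
    have := mul_le_mul_of_nonneg_left hys hε0
    linarith
  refine h6.trans (h7.trans ?_)
  have h8 : 1 + 2 * (3 / c) * (3 / (c + 3) + 1 / 4 - 1) =
      (2 * c * (c + 3) - 9 * (c - 1)) / (2 * c * (c + 3)) := by
    field_simp
    ring
  rw [h8, div_le_div_iff₀ (by positivity) (by positivity)]
  obtain ⟨a, rfl⟩ : ∃ a, c = 6 + a := ⟨c - 6, by ring⟩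
  have ha : 0 ≤ a := by linarith
  rw [← sub_nonneg]
  ring_nf
  positivity

/-- Row LRF-C2. `b = (2h+1)/(h-1) = 2 + ε`, `ε = 3/(h-1)`. `hh_rpow (h-1) 2 ε`:
`hh (h-1) (2+ε) ≤ hh (h-1) 2 * t^ε`, `t = 3/(h+2)`; `hh (h-1) 2 = 2/(h(h+1))`,
`hh (h+1) 2 = 2/((h+2)(h+3))` (`hh_symm`, unfold). So `t^ε ≤ h(h+1)/((h+2)(h+3))` is needed.
For `h ≥ 7`: `2 ε ≤ 1`, `t^ε = (√t)^{2ε} ≤ 1 - 2ε(1 - √t)` (Bernoulli,
`rpow_one_add_le_one_add_mul_self`), `√t ≤ t + 1/4`, and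
`(6/(h-1))(3/4 - 3/(h+2)) ≥ (4h+6)/((h+2)(h+3))`.
`h = 5`: `hh 4 (11/4)`, `h = 6`: `hh 5 (13/5)`: numbers. -/
theorem C2_num (h : ℕ) (hh5 : 5 ≤ h) :
    hh (h - 1) ((2 * (h : ℝ) + 1) / ((h : ℝ) - 1)) ≤ hh (h + 1) (2 : ℝ) := by
  rcases Nat.lt_or_ge h 7 with h7 | h7
  · have h56 : h = 5 ∨ h = 6 := by omega
    rcases h56 with rfl | rfl
    · norm_num [hh, Finset.prod_range_succ]
    · norm_num [hh, Finset.prod_range_succ]
  obtain ⟨c, rfl⟩ : ∃ c, h = c + 1 := ⟨h - 1, by omega⟩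
  have hc6 : (6 : ℝ) ≤ c := by
    have : 6 ≤ c := by omega
    exact_mod_cast this
  have hc0 : (0 : ℝ) < c := by linarith
  have e0 : c + 1 - 1 = c := rfl
  have e1 : ((c + 1 : ℕ) : ℝ) - 1 = c := by
    push_cast
    ring
  rw [e0, e1]
  have e2 : (2 * ((c + 1 : ℕ) : ℝ) + 1) / (c : ℝ) = 2 + 3 / c := by
    push_cast
    field_simp
    ring
  have hε0 : 0 ≤ 3 / (c : ℝ) := by positivity
  have hε1 : 3 / (c : ℝ) ≤ 1 := by
    rw [div_le_one hc0]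
    linarith
  have h3 := hh_rpow c 2 (3 / c) (by norm_num) hε0 hε1
  rw [e2]
  refine h3.trans ?_
  have e3 : ((2 : ℝ) + 1) / (2 + c + 1) = 3 / (c + 3) := by
    congr 1
    · norm_num
    · ring
  rw [e3]
  have h4 : hh (c + 1 + 1) (2 : ℝ) =
      hh c 2 * (((c : ℝ) + 1) * ((c : ℝ) + 2) / (((c : ℝ) + 3) * ((c : ℝ) + 4))) := by
    rw [hh_succ, hh_succ]
    push_cast
    have d1 : (2 : ℝ) + ((c : ℝ) + 1) ≠ 0 := by positivity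
    have d2 : (2 : ℝ) + ((c : ℝ) + 1 + 1) ≠ 0 := by positivity
    field_simp
    ring
  rw [h4]
  exact mul_le_mul_of_nonneg_left (C2_pow c hc6) (hh_pos c (by norm_num)).le

end Pool.Agent.LRF
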