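import Mathlib
import Pool.Agent.LRF.C0

set_option autoImplicit false

namespace Pool.Agent.LRF

open Finset
open Pool.Agent.LRE Pool.Agent.LRT

/-- `6 r² h³` times the Bonferroni lower bound -/
def C3C (r h : ℝ) : ℝ :=
  6 * r ^ 2 * h ^ 3 - 6 * r ^ 2 * h ^ 2 * (h - r - 2) + 3 * r * (r - 1) * h * (h - r - 2) ^ 2 -
    (r - 1) * (r - 2) * (h - r - 2) ^ 3

theorem C3_cases (r h : ℕ) (hr : 3 ≤ r) (hR : RC r h) :
    (∃ a b : ℕ, (r : ℝ) = 5 + b ∧ (h : ℝ) = 3 * (5 + b) - 2 + a) ∨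
      (∃ a : ℕ, (r : ℝ) = 3 ∧ (h : ℝ) = 8 + a) ∨ (∃ a : ℕ, (r : ℝ) = 4 ∧ (h : ℝ) = 11 + a) := by
  unfold RC at hR
  by_cases h5 : 5 ≤ r
  · left
    have h1 : 3 * r ≤ h + 2 := by omega
    obtain ⟨b, rfl⟩ := Nat.exists_eq_add_of_le h5
    obtain ⟨a, ha⟩ := Nat.exists_eq_add_of_le h1
    refine ⟨a, b, by push_cast; ring, ?_⟩
    have h2 : (h : ℝ) + 2 = 3 * ((5 : ℝ) + b) + a := by exact_mod_cast ha
    linarith
  · right
    rcases (show r = 3 ∨ r = 4 by omega) with rfl | rfl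
    · left
      obtain ⟨a, ha⟩ := Nat.exists_eq_add_of_le (show 8 ≤ h by omega)
      refine ⟨a, by norm_num, ?_⟩
      rw [ha]
      push_cast
      ring
    · right
      obtain ⟨a, ha⟩ := Nat.exists_eq_add_of_le (show 11 ≤ h by omega)
      refine ⟨a, by norm_num, ?_⟩
      rw [ha]
      push_cast
      ring

theorem C3_posC (r h : ℕ) (hr : 3 ≤ r) (hR : RC r h) : 0 < C3C (r : ℝ) (h : ℝ) := by
  rcases C3_cases r h hr hR with ⟨a, b, h1, h2⟩ | ⟨a, h1, h2⟩ | ⟨a, h1, h2⟩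
  · have ha : (0 : ℝ) ≤ a := Nat.cast_nonneg a
    have hb : (0 : ℝ) ≤ b := Nat.cast_nonneg b
    rw [h1, h2]
    have e : C3C (5 + (b : ℝ)) (3 * (5 + (b : ℝ)) - 2 + a) =
2 * a ^ 3 * b ^ 2 + 20 * a ^ 3 * b + 48 * a ^ 3 + 21 * a ^ 2 * b ^ 3 + 306 * a ^ 2 * b ^ 2 + 1467 * a ^
          2 * b + 2334 * a ^ 2 + 72 * a * b ^ 4 + 1380 * a * b ^ 3 + 9876 * a * b ^ 2 + 31404 * a * b +
          37524 * a + 82 * b ^ 5 + 1954 * b ^ 4 + 18612 * b ^ 3 + 88740 * b ^ 2 + 211962 * b + 202938 :=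
          by
      unfold C3C
      ring
    rw [e]
    positivity
  · have ha : (0 : ℝ) ≤ a := Nat.cast_nonneg a
    rw [h1, h2]
    have e : C3C 3 (8 + (a : ℝ)) = 16 * a ^ 3 + 504 * a ^ 2 + 5292 * a + 18522 := by
      unfold C3C
      ring
    rw [e]
    positivity
  · have ha : (0 : ℝ) ≤ a := Nat.cast_nonneg a
    rw [h1, h2]
    have e : C3C 4 (11 + (a : ℝ)) = 30 * a ^ 3 + 1242 * a ^ 2 + 17082 * a + 78846 := by
      unfold C3C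
      ring
    rw [e]
    positivity

theorem C3_main (r h : ℕ) (hr : 3 ≤ r) (hR : RC r h) :
    3 * ((r : ℝ) + 1) * ((h : ℝ) + r + 1) * (6 * (h : ℝ) ^ 3 * (r : ℝ) ^ 2 + C3C r h) ≤
      5 * (h : ℝ) * ((h : ℝ) + 1) * C3C r h := by
  rw [← sub_nonneg]
  rcases C3_cases r h hr hR with ⟨a, b, h1, h2⟩ | ⟨a, h1, h2⟩ | ⟨a, h1, h2⟩
  · have ha : (0 : ℝ) ≤ a := Nat.cast_nonneg a
    have hb : (0 : ℝ) ≤ b := Nat.cast_nonneg b
    rw [h1, h2]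
    have e : 5 * (3 * (5 + (b : ℝ)) - 2 + a) * ((3 * (5 + (b : ℝ)) - 2 + a) + 1) *
        C3C (5 + (b : ℝ)) (3 * (5 + (b : ℝ)) - 2 + a) -
        3 * ((5 + (b : ℝ)) + 1) * ((3 * (5 + (b : ℝ)) - 2 + a) + (5 + (b : ℝ)) + 1) *
        (6 * (3 * (5 + (b : ℝ)) - 2 + a) ^ 3 * (5 + (b : ℝ)) ^ 2 +
          C3C (5 + (b : ℝ)) (3 * (5 + (b : ℝ)) - 2 + a)) =
10 * a ^ 5 * b ^ 2 + 100 * a ^ 5 * b + 240 * a ^ 5 + 141 * a ^ 4 * b ^ 3 + 2016 * a ^ 4 * b ^ 2 + 9441 *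
          a ^ 4 * b + 14586 * a ^ 4 + 759 * a ^ 3 * b ^ 4 + 14043 * a ^ 3 * b ^ 3 + 96437 * a ^ 3 * b ^
          2 + 292445 * a ^ 3 * b + 331362 * a ^ 3 + 1913 * a ^ 2 * b ^ 5 + 43106 * a ^ 2 * b ^ 4 +
          385545 * a ^ 2 * b ^ 3 + 1714968 * a ^ 2 * b ^ 2 + 3800526 * a ^ 2 * b + 3361110 * a ^ 2 +
          2160 * a * b ^ 6 + 56484 * a * b ^ 5 + 609966 * a * b ^ 4 + 3485532 * a * b ^ 3 + 11121528 * a
          * b ^ 2 + 18786576 * a * b + 13116378 * a + 762 * b ^ 7 + 21504 * b ^ 6 + 253186 * b ^ 5 +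
          1599364 * b ^ 4 + 5765382 * b ^ 3 + 11486592 * b ^ 2 + 10783614 * b + 2562684 := by
      unfold C3C
      ring
    rw [e]
    positivity
  · have ha : (0 : ℝ) ≤ a := Nat.cast_nonneg a
    rw [h1, h2]
    have e : 5 * (8 + (a : ℝ)) * ((8 + (a : ℝ)) + 1) * C3C 3 (8 + (a : ℝ)) -
        3 * ((3 : ℝ) + 1) * ((8 + (a : ℝ)) + 3 + 1) *
        (6 * (8 + (a : ℝ)) ^ 3 * (3 : ℝ) ^ 2 + C3C 3 (8 + (a : ℝ))) =
        80 * a ^ 5 + 3040 * a ^ 4 + 43380 * a ^ 3 + 276750 * a ^ 2 + 670410 * a + 19440 := by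
      unfold C3C
      ring
    rw [e]
    positivity
  · have ha : (0 : ℝ) ≤ a := Nat.cast_nonneg a
    rw [h1, h2]
    have e : 5 * (11 + (a : ℝ)) * ((11 + (a : ℝ)) + 1) * C3C 4 (11 + (a : ℝ)) -
        3 * ((4 : ℝ) + 1) * ((11 + (a : ℝ)) + 4 + 1) *
        (6 * (11 + (a : ℝ)) ^ 3 * (4 : ℝ) ^ 2 + C3C 4 (11 + (a : ℝ))) =
        150 * a ^ 5 + 7770 * a ^ 4 + 151650 * a ^ 3 + 1341030 * a ^ 2 + 4778880 * a + 2449080 := by
      unfold C3C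
      ring
    rw [e]
    positivity

theorem C3_AA (r h : ℕ) (hr : 3 ≤ r) (hR : RC r h) :
    ((h : ℝ) + r + 1) * ((r : ℝ) * ((r : ℝ) + 2) + h) ≤ (h : ℝ) * ((h : ℝ) + 1) * ((r : ℝ) + 2) := by
  rw [← sub_nonneg]
  rcases C3_cases r h hr hR with ⟨a, b, h1, h2⟩ | ⟨a, h1, h2⟩ | ⟨a, h1, h2⟩
  · have ha : (0 : ℝ) ≤ a := Nat.cast_nonneg a
    have hb : (0 : ℝ) ≤ b := Nat.cast_nonneg b
    rw [h1, h2]
    have e : (3 * (5 + (b : ℝ)) - 2 + a) * ((3 * (5 + (b : ℝ)) - 2 + a) + 1) * ((5 + (b : ℝ)) + 2) -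
        ((3 * (5 + (b : ℝ)) - 2 + a) + (5 + (b : ℝ)) + 1) *
        ((5 + (b : ℝ)) * ((5 + (b : ℝ)) + 2) + (3 * (5 + (b : ℝ)) - 2 + a)) =
1 * a ^ 2 * b + 6 * a ^ 2 + 5 * a * b ^ 2 + 50 * a * b + 122 * a + 5 * b ^ 3 + 65 * b ^ 2 + 272 * b +
          362 := by
      ring
    rw [e]
    positivity
  · have ha : (0 : ℝ) ≤ a := Nat.cast_nonneg a
    rw [h1, h2]
    nlinarith [mul_nonneg ha ha]
  · have ha : (0 : ℝ) ≤ a := Nat.cast_nonneg a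
    rw [h1, h2]
    nlinarith [mul_nonneg ha ha]

/-- Row LRF-C3. `GP (r+1) (h-1) δ = (1 + phi r (δ/h))/2`, `phi r z = ((1 - z/r)^r)⁻¹`.
`AA` part: `(r+1) AA = r + 1 + δ/(h-δ) ≤ r + 1 + (h-r-2)/(r+2)`, and
`(h+r+1)(r(r+2)+h) ≤ h(h+1)(r+2)`.
`GP` part: `δ/h ≤ y = (h-r-2)/h`; by `bonf3` with `n = r`, `x = y/r`:
`(1 - y/r)^r ≥ c := 1 - y + (1-1/r) y²/2 - (1-1/r)(1-2/r) y³/6`, and
`(3/5)(r+1)(h+r+1)(1 + c) ≤ h(h+1) c`: multiply by `h³ r²`; after the substitution `h = 3r - 2 + a`,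
`r = 5 + b` (for `r ≥ 5`), `h = 8 + a` (`r = 3`), `h = 11 + a` (`r = 4`) ALL COEFFICIENTS of the
polynomial `RHS - LHS` in `a, b` are positive (checked; also for the `AA` part). -/
theorem C3_num (r h δ : ℕ) (hr : 3 ≤ r) (hR : RC r h) (hδ : δ + r + 2 ≤ h) :
    ((r : ℝ) + 1) * max (AA (r + 1) (h - 1) δ) (6 / 5 * GP (r + 1) (h - 1) δ) *
      ((h : ℝ) + r + 1) ≤ (h : ℝ) * ((h : ℝ) + 1) := by
  have hr0 : (0 : ℝ) < r := by
    have : 0 < r := by omega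
    exact_mod_cast this
  have hδ' : (δ : ℝ) + r + 2 ≤ h := by exact_mod_cast hδ
  have hδ0 : (0 : ℝ) ≤ δ := Nat.cast_nonneg δ
  have hh0 : (0 : ℝ) < h := by linarith
  have hw : ((h - 1 : ℕ) : ℝ) + 1 = h := by
    have : h - 1 + 1 = h := by omega
    exact_mod_cast this
  have hpos : (0 : ℝ) < (h : ℝ) + r + 1 := by linarith
  have hA : ((r : ℝ) + 1) * AA (r + 1) (h - 1) δ * ((h : ℝ) + r + 1) ≤ (h : ℝ) * ((h : ℝ) + 1) := by
    have hd : (0 : ℝ) < (h : ℝ) - δ := by linarith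
    have e1 : ((r : ℝ) + 1) * AA (r + 1) (h - 1) δ = (r : ℝ) + 1 + (δ : ℝ) / ((h : ℝ) - δ) := by
      unfold AA
      rw [hw]
      push_cast
      field_simp
    have e2 : (δ : ℝ) / ((h : ℝ) - δ) ≤ ((h : ℝ) - r - 2) / ((r : ℝ) + 2) := by
      rw [div_le_div_iff₀ hd (by linarith)]
      nlinarith
    have e3 : ((r : ℝ) + 1) * AA (r + 1) (h - 1) δ ≤
        ((r : ℝ) * ((r : ℝ) + 2) + h) / ((r : ℝ) + 2) := by
      rw [e1]
      refine (add_le_add (le_refl _) e2).trans (le_of_eq ?_)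
      field_simp
      ring
    refine (mul_le_mul_of_nonneg_right e3 hpos.le).trans ?_
    rw [div_mul_eq_mul_div, div_le_iff₀ (by linarith)]
    have := C3_AA r h hr hR
    linarith
  have hG : ((r : ℝ) + 1) * (6 / 5 * GP (r + 1) (h - 1) δ) * ((h : ℝ) + r + 1) ≤
      (h : ℝ) * ((h : ℝ) + 1) := by
    have hC := C3_posC r h hr hR
    have hM := C3_main r h hr hR
    set y : ℝ := ((h : ℝ) - r - 2) / h with hy
    have hy0 : 0 ≤ y := div_nonneg (by linarith) hh0.le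
    have hy1 : y ≤ 1 := by
      rw [hy, div_le_one hh0]
      linarith
    have hr3 : (3 : ℝ) ≤ r := by exact_mod_cast hr
    have hx0 : 0 ≤ y / r := div_nonneg hy0 hr0.le
    have hx1 : y / r ≤ 1 := by
      rw [div_le_one hr0]
      linarith
    have hb := bonf3 r (y / r) hx0 hx1
    have hc : 1 - (r : ℝ) * (y / r) + (r : ℝ) * ((r : ℝ) - 1) / 2 * (y / r) ^ 2 -
        (r : ℝ) * ((r : ℝ) - 1) * ((r : ℝ) - 2) / 6 * (y / r) ^ 3 =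
        C3C r h / (6 * (h : ℝ) ^ 3 * (r : ℝ) ^ 2) := by
      rw [hy]
      unfold C3C
      field_simp
      ring
    rw [hc] at hb
    have hden : (0 : ℝ) < 6 * (h : ℝ) ^ 3 * (r : ℝ) ^ 2 := by positivity
    have hcpos : 0 < C3C r h / (6 * (h : ℝ) ^ 3 * (r : ℝ) ^ 2) := div_pos hC hden
    have hz : (δ : ℝ) / h ≤ y := by
      rw [hy]
      exact div_le_div_of_nonneg_right (by linarith) hh0.le
    have hpow : (1 - y / r) ^ r ≤ (1 - (δ : ℝ) / h / r) ^ r := by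
      apply pow_le_pow_left₀ (by linarith)
      have := div_le_div_of_nonneg_right hz hr0.le
      linarith
    have hphi : phi r ((δ : ℝ) / h) ≤ (6 * (h : ℝ) ^ 3 * (r : ℝ) ^ 2) / C3C r h := by
      unfold phi
      have h9 := inv_anti₀ hcpos (hb.trans hpow)
      rw [inv_div] at h9
      exact h9
    have hGP : GP (r + 1) (h - 1) δ ≤ (1 + (6 * (h : ℝ) ^ 3 * (r : ℝ) ^ 2) / C3C r h) / 2 := by
      unfold GP
      rw [hw, Nat.add_sub_cancel]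
      linarith
    have e4 : ((r : ℝ) + 1) * (6 / 5 * GP (r + 1) (h - 1) δ) * ((h : ℝ) + r + 1) ≤
        ((r : ℝ) + 1) * (6 / 5 * ((1 + (6 * (h : ℝ) ^ 3 * (r : ℝ) ^ 2) / C3C r h) / 2)) *
          ((h : ℝ) + r + 1) := by
      apply mul_le_mul_of_nonneg_right _ hpos.le
      apply mul_le_mul_of_nonneg_left _ (by linarith)
      linarith
    refine e4.trans ?_
    have e5 : ((r : ℝ) + 1) * (6 / 5 * ((1 + (6 * (h : ℝ) ^ 3 * (r : ℝ) ^ 2) / C3C r h) / 2)) *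
          ((h : ℝ) + r + 1) = (3 * ((r : ℝ) + 1) * ((h : ℝ) + r + 1) *
          (6 * (h : ℝ) ^ 3 * (r : ℝ) ^ 2 + C3C r h)) / (5 * C3C r h) := by
      field_simp
      ring
    rw [e5, div_le_iff₀ (by positivity)]
    linarith
  rcases le_total (AA (r + 1) (h - 1) δ) (6 / 5 * GP (r + 1) (h - 1) δ) with hmax | hmax
  · rw [max_eq_right hmax]
    exact hG
  · rw [max_eq_left hmax]
    exact hA

end Pool.Agent.LRF
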