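import Mathlib
import Pool.Agent.LRF.Defs

set_option autoImplicit false

namespace Pool.Agent.LRF

open Finset
open Pool.Agent.LRE Pool.Agent.LRT

theorem C4_poly1 (r h : ℝ) (hr : 3 ≤ r) (hh : 4 * r + 4 ≤ h) :
    2 * (h - 2) * ((r + h - 1) * (r + h) * (r + h + 1) - (h - 1) * h * (h + 1)) ≤
      (2 * r + 1) * (3 * h - r - 7) * (r + h) * (r + h + 1) := by
  obtain ⟨b, rfl⟩ : ∃ b, r = 3 + b := ⟨r - 3, by ring⟩
  obtain ⟨a, rfl⟩ : ∃ a, h = 4 * (3 + b) + 4 + a := ⟨h - (4 * (3 + b) + 4), by ring⟩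
  have ha : 0 ≤ a := by linarith
  have hb : 0 ≤ b := by linarith
  rw [← sub_nonneg]
  ring_nf
  positivity

theorem C4_poly2 (r h : ℝ) (hr : 5 ≤ r) (hh : 3 * r - 2 ≤ h) :
    (5 * r + h + 3) * (4 * (h - 2) * (r + h - 1) - (4 * r + 4 - h) * (3 * h - r - 7)) *
      (r + h) * (r + h + 1) ≤ 16 * (h - 2) * (r + h - 1) * (h - 1) * h * (h + 1) := by
  obtain ⟨b, rfl⟩ : ∃ b, r = 5 + b := ⟨r - 5, by ring⟩
  obtain ⟨a, rfl⟩ : ∃ a, h = 3 * (5 + b) - 2 + a := ⟨h - (3 * (5 + b) - 2), by ring⟩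
  have ha : 0 ≤ a := by linarith
  have hb : 0 ≤ b := by linarith
  rw [← sub_nonneg]
  ring_nf
  positivity

theorem C4_poly3 (h : ℝ) (hh : 8 ≤ h) :
    (5 * 3 + h + 3) * (4 * (h - 2) * (3 + h - 1) - (4 * 3 + 4 - h) * (3 * h - 3 - 7)) *
      (3 + h) * (3 + h + 1) ≤ 16 * (h - 2) * (3 + h - 1) * (h - 1) * h * (h + 1) := by
  obtain ⟨a, rfl⟩ : ∃ a, h = 8 + a := ⟨h - 8, by ring⟩
  have ha : 0 ≤ a := by linarith
  rw [← sub_nonneg]
  ring_nf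
  positivity

theorem C4_poly4 (h : ℝ) (hh : 11 ≤ h) :
    (5 * 4 + h + 3) * (4 * (h - 2) * (4 + h - 1) - (4 * 4 + 4 - h) * (3 * h - 4 - 7)) *
      (4 + h) * (4 + h + 1) ≤ 16 * (h - 2) * (4 + h - 1) * (h - 1) * h * (h + 1) := by
  obtain ⟨a, rfl⟩ : ∃ a, h = 11 + a := ⟨h - 11, by ring⟩
  have ha : 0 ≤ a := by linarith
  rw [← sub_nonneg]
  ring_nf
  positivity

theorem C4_sqrt (t : ℝ) (ht : 0 < t) : ∃ y, 0 < y ∧ y ≤ t + 1 / 4 ∧
    ∀ ε : ℝ, t ^ ε = y ^ (2 * ε) := by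
  refine ⟨√t, Real.sqrt_pos.2 ht, ?_, fun ε => ?_⟩
  · have h1 := Real.sq_sqrt ht.le
    nlinarith [sq_nonneg (√t - 1 / 2)]
  · rw [Real.rpow_mul (Real.sqrt_nonneg t), Real.rpow_two, Real.sq_sqrt ht.le]

theorem C4_pow1 (r h : ℝ) (hr : 3 ≤ r) (hh : 4 * r + 4 ≤ h) :
    ((r + 1) / (r + h - 1)) ^ ((2 * r + 1) / (h - 2)) ≤
      (h - 1) * h * (h + 1) / ((r + h - 1) * (r + h) * (r + h + 1)) := by
  have h2 : 0 < h - 2 := by linarith
  have h3 : 0 < r + h - 1 := by linarith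
  have h4 : 0 < r + h := by linarith
  have h5 : 0 < r + h + 1 := by linarith
  obtain ⟨y, hy0, hys, hy⟩ := C4_sqrt ((r + 1) / (r + h - 1)) (div_pos (by linarith) h3)
  set ε : ℝ := (2 * r + 1) / (h - 2) with hε
  have hε0 : 0 ≤ 2 * ε := by
    rw [hε]
    have : 0 ≤ 2 * r + 1 := by linarith
    positivity
  have hε1 : 2 * ε ≤ 1 := by
    rw [hε, ← mul_div_assoc, div_le_one h2]
    linarith
  have h6 := rpow_one_add_le_one_add_mul_self (s := y - 1) (p := 2 * ε) (by linarith) hε0 hε1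
  rw [add_sub_cancel] at h6
  rw [hy]
  have h7 : 1 + 2 * ε * (y - 1) ≤ 1 + 2 * ε * ((r + 1) / (r + h - 1) + 1 / 4 - 1) := by
    have := mul_le_mul_of_nonneg_left hys hε0
    linarith
  refine h6.trans (h7.trans ?_)
  have h8 : 1 + 2 * ε * ((r + 1) / (r + h - 1) + 1 / 4 - 1) =
      (2 * (h - 2) * (r + h - 1) - (2 * r + 1) * (3 * h - r - 7)) / (2 * (h - 2) * (r + h - 1)) := by
    rw [hε]
    field_simp
    ring
  rw [h8, div_le_div_iff₀ (by positivity) (by positivity)]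
  have h9 := mul_le_mul_of_nonneg_left (C4_poly1 r h hr hh) h3.le
  linarith

theorem C4_pow2 (r h : ℝ) (hr : 3 ≤ r) (hh1 : 2 * r + 3 ≤ h) (hh2 : h ≤ 4 * r + 4)
    (hP : (5 * r + h + 3) * (4 * (h - 2) * (r + h - 1) - (4 * r + 4 - h) * (3 * h - r - 7)) *
      (r + h) * (r + h + 1) ≤ 16 * (h - 2) * (r + h - 1) * (h - 1) * h * (h + 1)) :
    ((r + 1) / (r + h - 1)) ^ ((2 * r + 1) / (h - 2)) ≤
      (h - 1) * h * (h + 1) / ((r + h - 1) * (r + h) * (r + h + 1)) := by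
  have h2 : 0 < h - 2 := by linarith
  have h3 : 0 < r + h - 1 := by linarith
  have h4 : 0 < r + h := by linarith
  have h5 : 0 < r + h + 1 := by linarith
  obtain ⟨y, hy0, hys, hy⟩ := C4_sqrt ((r + 1) / (r + h - 1)) (div_pos (by linarith) h3)
  set ε : ℝ := (2 * r + 1) / (h - 2) with hε
  have hε0 : 0 ≤ 2 * ε - 1 := by
    rw [hε, sub_nonneg, ← mul_div_assoc, one_le_div h2]
    linarith
  have hε1 : 2 * ε - 1 ≤ 1 := by
    have : ε ≤ 1 := by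
      rw [hε, div_le_one h2]
      linarith
    linarith
  have h6 := rpow_one_add_le_one_add_mul_self (s := y - 1) (p := 2 * ε - 1) (by linarith) hε0 hε1
  rw [add_sub_cancel] at h6
  have h10 : y ^ (2 * ε) = y * y ^ (2 * ε - 1) := by
    have e : 2 * ε = 1 + (2 * ε - 1) := by ring
    conv_lhs => rw [e]
    rw [Real.rpow_add hy0, Real.rpow_one]
  rw [hy, h10]
  have h7 : 1 + (2 * ε - 1) * (y - 1) ≤
      1 + (2 * ε - 1) * ((r + 1) / (r + h - 1) + 1 / 4 - 1) := by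
    have := mul_le_mul_of_nonneg_left hys hε0
    linarith
  have hs0 : 0 ≤ (r + 1) / (r + h - 1) + 1 / 4 := hy0.le.trans hys
  have h11 : y * y ^ (2 * ε - 1) ≤ ((r + 1) / (r + h - 1) + 1 / 4) *
      (1 + (2 * ε - 1) * ((r + 1) / (r + h - 1) + 1 / 4 - 1)) :=
    mul_le_mul hys (h6.trans h7) (Real.rpow_nonneg hy0.le _) hs0
  refine h11.trans ?_
  have h8 : ((r + 1) / (r + h - 1) + 1 / 4) *
      (1 + (2 * ε - 1) * ((r + 1) / (r + h - 1) + 1 / 4 - 1)) =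
      (5 * r + h + 3) * (4 * (h - 2) * (r + h - 1) - (4 * r + 4 - h) * (3 * h - r - 7)) /
        (16 * (h - 2) * (r + h - 1) * (r + h - 1)) := by
    rw [hε]
    field_simp
    ring
  rw [h8, div_le_div_iff₀ (by positivity) (by positivity)]
  have h9 := mul_le_mul_of_nonneg_left hP h3.le
  linarith

/-- Row LRF-C4. `(r h + 1)/(h-2) = r + ε`, `ε = (2r+1)/(h-2)`. Except for `r = 3, h = 8`: `ε ≤ 1`, and
`hh_rpow (h-2) r ε`: `hh (h-2) (r+ε) ≤ hh (h-2) r * t^ε`, `t = (r+1)/(r+h-1)`;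
`hh (h+1) r = hh (h-2) r * T`, `T = (h-1)h(h+1)/((r+h-1)(r+h)(r+h+1))` (`hh_succ` three times).
Needed: `t^ε ≤ T`. With `s = t + 1/4 ≥ √t`:
* `ε ≤ 1/2`: `t^ε = (√t)^{2ε} ≤ 1 - 2ε(1-√t) ≤ 1 - 2ε(1-s)` (`h ≥ 4r + 4`);
* `ε ≥ 1/2`: `t^ε = √t (√t)^{2ε-1} ≤ √t (1 - (2ε-1)(1-√t)) ≤ s (1 - (2ε-1)(1-s))`.
(`rpow_one_add_le_one_add_mul_self`.) In both cases the bound is `≤ T`: clear denominators; with
`h = 4r + 4 + a`, `r = 3 + b` in the first case, `h = 3r - 2 + a`, `r = 5 + b` (or `r = 3`,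
`h = 8 + a`, or `r = 4`, `h = 11 + a`) in the second case ALL COEFFICIENTS of the difference in
`a, b` are positive (checked).
`r = 3, h = 8`: `hh 6 (25/6) ≤ hh 9 3`, numbers. -/
theorem C4_num (r h : ℕ) (hr : 3 ≤ r) (hR : RC r h) :
    hh (h - 2) (((r : ℝ) * h + 1) / ((h : ℝ) - 2)) ≤ hh (h + 1) (r : ℝ) := by
  have h8 : 8 ≤ h := by
    rcases hR with h1 | ⟨h1, h2⟩ <;> omega
  by_cases hex : r = 3 ∧ h = 8
  · obtain ⟨rfl, rfl⟩ := hex
    norm_num [hh, Finset.prod_range_succ]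
  have hr3 : (3 : ℝ) ≤ r := by exact_mod_cast hr
  have hh8 : (8 : ℝ) ≤ h := by exact_mod_cast h8
  have hε : 2 * (r : ℝ) + 3 ≤ h := by
    have : 2 * r + 3 ≤ h := by
      rcases hR with h1 | ⟨h1, h2⟩ <;> omega
    exact_mod_cast this
  have h2 : (0 : ℝ) < (h : ℝ) - 2 := by linarith
  have key : (((r : ℝ) + 1) / ((r : ℝ) + h - 1)) ^ ((2 * (r : ℝ) + 1) / ((h : ℝ) - 2)) ≤
      ((h : ℝ) - 1) * h * ((h : ℝ) + 1) /
        (((r : ℝ) + h - 1) * ((r : ℝ) + h) * ((r : ℝ) + h + 1)) := by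
    by_cases hc : 4 * (r : ℝ) + 4 ≤ h
    · exact C4_pow1 r h hr3 hc
    · rw [not_le] at hc
      refine C4_pow2 r h hr3 hε hc.le ?_
      by_cases h5 : 5 ≤ r
      · have h5' : (5 : ℝ) ≤ r := by exact_mod_cast h5
        have h6 : 3 * (r : ℝ) - 2 ≤ h := by
          have : 3 * r ≤ h + 2 := by
            rcases hR with h1 | ⟨h1, h2⟩ <;> omega
          have h7 : 3 * (r : ℝ) ≤ (h : ℝ) + 2 := by exact_mod_cast this
          linarith
        exact C4_poly2 r h h5' h6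
      · have h6 : r = 3 ∨ r = 4 := by omega
        rcases h6 with rfl | rfl
        · exact C4_poly3 h hh8
        · have h7 : 11 ≤ h := by
            rcases hR with h1 | ⟨h1, h2⟩ <;> omega
          exact C4_poly4 h (by exact_mod_cast h7)
  obtain ⟨c, rfl⟩ : ∃ c, h = c + 2 := ⟨h - 2, by omega⟩
  have e0 : c + 2 - 2 = c := rfl
  have e1 : ((c + 2 : ℕ) : ℝ) - 2 = c := by
    push_cast
    ring
  rw [e1] at h2 key
  rw [e0, e1]
  have e2 : ((r : ℝ) * ((c + 2 : ℕ) : ℝ) + 1) / (c : ℝ) = r + (2 * (r : ℝ) + 1) / c := by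
    push_cast
    field_simp
    ring
  have hε0 : 0 ≤ (2 * (r : ℝ) + 1) / c := by positivity
  have hε1 : (2 * (r : ℝ) + 1) / c ≤ 1 := by
    rw [div_le_one h2]
    push_cast at hε
    linarith
  have h3 := hh_rpow c r ((2 * (r : ℝ) + 1) / c) (Nat.cast_nonneg r) hε0 hε1
  rw [e2]
  refine h3.trans ?_
  have e3 : (r : ℝ) + ((c + 2 : ℕ) : ℝ) - 1 = r + c + 1 := by
    push_cast
    ring
  rw [e3] at key
  have h4 : hh (c + 2 + 1) (r : ℝ) = hh c r * ((((c + 2 : ℕ) : ℝ) - 1) * ((c + 2 : ℕ) : ℝ) *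
      (((c + 2 : ℕ) : ℝ) + 1) / (((r : ℝ) + c + 1) * ((r : ℝ) + ((c + 2 : ℕ) : ℝ)) *
        ((r : ℝ) + ((c + 2 : ℕ) : ℝ) + 1))) := by
    rw [hh_succ, hh_succ, hh_succ]
    push_cast
    have d1 : (r : ℝ) + ((c : ℝ) + 1) ≠ 0 := by positivity
    have d2 : (r : ℝ) + ((c : ℝ) + 1 + 1) ≠ 0 := by positivity
    have d3 : (r : ℝ) + ((c : ℝ) + 2 + 1) ≠ 0 := by positivity
    have d4 : (r : ℝ) + c + 1 ≠ 0 := by positivity
    have d5 : (r : ℝ) + ((c : ℝ) + 2) ≠ 0 := by positivity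
    have d6 : (r : ℝ) + ((c : ℝ) + 2) + 1 ≠ 0 := by positivity
    field_simp
    ring
  rw [h4]
  exact mul_le_mul_of_nonneg_left key (hh_pos c (Nat.cast_nonneg r)).le

end Pool.Agent.LRF
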