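import Mathlib
import Pool.Agent.LRF.A9
import Pool.Agent.LRF.C1
import Pool.Agent.LRF.C2
import Pool.Agent.LRF.C3
import Pool.Agent.LRF.C4

set_option autoImplicit false

namespace Pool.Agent.LRF

open Finset
open Pool.Agent.LRE Pool.Agent.LRT

/-- Row LRF-C5a. One dimension equals `h`: `(r+1) h - δ = |τ|`, `δ ≤ h - 1`; `S1 (r+1) h δ` for `τ` or
`conj τ` (`conj_sup`, `conj_card`, `conj_sum`, `psi_conj`, see `crude` in LRT/J4.lean);
`hh h (r+1) = hh h r (r+1)/(r+h+1)`, `hh (h+1) r = hh h r (h+1)/(r+h+1)`, `C1_num`. -/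
theorem crude_eq (r h : ℕ) (τ : Multiset ℕ) (hr : 2 ≤ r) (hR : RC r h ∨ (r = 4 ∧ h = 10))
    (hpos : ∀ x ∈ τ, 0 < x)
    (hc : τ.card ≤ h) (hs : τ.sup ≤ h) (hmax : h ≤ max τ.card τ.sup)
    (h1 : r * h < τ.sum) (h2 : τ.sum ≤ (r + 1) * h) : psi τ ≤ hh (h + 1) (r : ℝ) := by
  have hrh : R1 (r + 1) h := by
    unfold R1
    unfold RC at hR
    omega
  obtain ⟨δ, hδ⟩ : ∃ δ, τ.sum + δ = (r + 1) * h := ⟨(r + 1) * h - τ.sum, by omega⟩
  have hδh : δ < h := by
    rw [Nat.succ_mul] at hδ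
    omega
  have key : psi τ ≤ hh h ((r + 1 : ℕ) : ℝ) * max (AA (r + 1) h δ) (6 / 5 * GP (r + 1) h δ) := by
    rcases le_total τ.card τ.sup with h3 | h3
    · have h4 : τ.sup = h := by
        rw [max_eq_right h3] at hmax
        omega
      exact S1 (r + 1) h δ τ (by omega) hrh hpos h4 hc hδ hδh
    · have h4 : τ.card = h := by
        rw [max_eq_left h3] at hmax
        omega
      have h5 := S1 (r + 1) h δ (conj τ) (by omega) hrh (conj_pos τ)
        (by rw [conj_sup τ hpos, h4]) (by rw [conj_card]; exact hs)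
        (by rw [conj_sum]; exact hδ) hδh
      rwa [psi_conj] at h5
  refine key.trans ?_
  rw [hh_nat_succ, hh_succ h (r : ℝ)]
  have hhp := hh_pos h (Nat.cast_nonneg r : (0 : ℝ) ≤ (r : ℝ))
  have hD : (0 : ℝ) < (r : ℝ) + h + 1 := by positivity
  have hnum := C1_num r h δ hr hR hδh
  set X := max (AA (r + 1) h δ) (6 / 5 * GP (r + 1) h δ) with hX
  rw [mul_assoc]
  apply mul_le_mul_of_nonneg_left _ hhp.le
  have e2 : (r : ℝ) + ((h : ℝ) + 1) = (r : ℝ) + h + 1 := by ring
  rw [e2, div_mul_eq_mul_div]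
  exact div_le_div_of_nonneg_right hnum hD.le

/-- Row LRF-C5b. `N = |τ|`. `N = r (h+1)`: `crude_top`. Otherwise `N < r (h+1)`.
`max card sup = h`: `crude_eq` (`N ≤ (r+1) h`). Let `max card sup ≤ h - 1`.
`r = 2`: `N = 2h + 1`; `sb τ (h-1)` and `C2_num`.
`r ≥ 3` and `max = h - 1`: `S1 (r+1) (h-1) δ` (for `τ` or `conj τ`), `δ = (r+1)(h-1) - N`,
`h - 2r ≤ δ ≤ h - r - 2`; its range `R1`: `r = 3`: `h ≥ 8`, `h - 1 ≥ 7`; `r ≥ 4`: `h - 1 ≥ 2 (r+1)`.
`hh (h-1) (r+1) = hh (h-1) r (r+1)/(r+h)` and `hh (h+1) r = hh (h-1) r (h/(r+h)) ((h+1)/(r+h+1))`;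
`C3_num`.
`r ≥ 3` and `max ≤ h - 2`: `sb τ (h-2)`, `N ≥ r h + 1`, `hh_anti`, `C4_num`. -/
theorem crudeF (r h : ℕ) (τ : Multiset ℕ) (hr : 2 ≤ r) (hR : RC r h) (hpos : ∀ x ∈ τ, 0 < x)
    (hc : τ.card ≤ h) (hs : τ.sup ≤ h) (h1 : r * h < τ.sum) (h2 : τ.sum ≤ r * (h + 1)) :
    psi τ ≤ hh (h + 1) (r : ℝ) := by
  by_cases hN : τ.sum = r * (h + 1)
  · exact crude_top r h τ (by omega) hc hs h1 hN
  have hN' : τ.sum < r * (h + 1) := lt_of_le_of_ne h2 hN
  have hrle : r ≤ h := by
    unfold RC at hR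
    omega
  have hbig : 3 * r ≤ h + 2 := by
    unfold RC at hR
    omega
  by_cases hmax : h ≤ max τ.card τ.sup
  · refine crude_eq r h τ hr (Or.inl hR) hpos hc hs hmax h1 (h2.trans ?_)
    rw [Nat.mul_succ, Nat.succ_mul]
    omega
  push Not at hmax
  have hcard : τ.card < h := lt_of_le_of_lt (le_max_left _ _) hmax
  have hsup : τ.sup < h := lt_of_le_of_lt (le_max_right _ _) hmax
  rw [Nat.mul_succ] at hN'
  rcases Nat.lt_or_ge r 3 with hr3 | hr3
  · obtain rfl : r = 2 := by omega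
    have h5 : 5 ≤ h := by
      unfold RC at hR
      omega
    have hsum : τ.sum = 2 * h + 1 := by omega
    have h6 := sb τ (h - 1) (by omega) (by omega) (by omega)
    have h7 := C2_num h h5
    have h8 : ((h - 1 : ℕ) : ℝ) = (h : ℝ) - 1 := by
      rw [Nat.cast_sub (by omega), Nat.cast_one]
    rw [hsum, h8] at h6
    push_cast at h6 ⊢
    exact h6.trans h7
  · rcases Nat.lt_or_ge (max τ.card τ.sup) (h - 1) with hn | hn
    · -- `max ≤ h - 2`
      have hc2 : τ.card ≤ h - 2 := by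
        have := le_max_left τ.card τ.sup
        omega
      have hs2 : τ.sup ≤ h - 2 := by
        have := le_max_right τ.card τ.sup
        omega
      have hh7 : 3 ≤ h := by omega
      have h6 := sb τ (h - 2) (by omega) hc2 hs2
      have h7 := C4_num r h hr3 hR
      have h8 : ((h - 2 : ℕ) : ℝ) = (h : ℝ) - 2 := by
        rw [Nat.cast_sub (by omega)]
        norm_num
      have h9 : (0 : ℝ) < (h : ℝ) - 2 := by
        have : (3 : ℝ) ≤ h := by exact_mod_cast hh7
        linarith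
      rw [h8] at h6
      refine h6.trans ((hh_anti (h - 2) (by positivity) ?_).trans h7)
      apply div_le_div_of_nonneg_right _ h9.le
      have h10 : r * h + 1 ≤ τ.sum := h1
      exact_mod_cast h10
    · -- `max = h - 1`
      obtain ⟨g, rfl⟩ : ∃ g, h = g + 1 := ⟨h - 1, by omega⟩
      simp only [Nat.add_sub_cancel] at hn
      have hrg : R1 (r + 1) g := by
        unfold R1
        unfold RC at hR
        omega
      rw [Nat.mul_succ] at h1 hN'
      have hle : τ.sum ≤ (r + 1) * g := by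
        rw [Nat.succ_mul]
        omega
      obtain ⟨δ, hδ⟩ : ∃ δ, τ.sum + δ = (r + 1) * g := ⟨(r + 1) * g - τ.sum, by omega⟩
      have hδg : δ + r + 2 ≤ g + 1 := by
        rw [Nat.succ_mul] at hδ
        omega
      have key : psi τ ≤ hh g ((r + 1 : ℕ) : ℝ) * max (AA (r + 1) g δ) (6 / 5 * GP (r + 1) g δ) := by
        rcases le_total τ.card τ.sup with h3 | h3
        · have h4 : τ.sup = g := by
            rw [max_eq_right h3] at hn
            omega
          exact S1 (r + 1) g δ τ (by omega) hrg hpos h4 (by omega) hδ (by omega)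
        · have h4 : τ.card = g := by
            rw [max_eq_left h3] at hn
            omega
          have h5 := S1 (r + 1) g δ (conj τ) (by omega) hrg (conj_pos τ)
            (by rw [conj_sup τ hpos, h4]) (by rw [conj_card]; omega)
            (by rw [conj_sum]; exact hδ) (by omega)
          rwa [psi_conj] at h5
      refine key.trans ?_
      have hnum := C3_num r (g + 1) δ hr3 hR hδg
      simp only [Nat.add_sub_cancel] at hnum
      set X := max (AA (r + 1) g δ) (6 / 5 * GP (r + 1) g δ) with hX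
      rw [hh_nat_succ, hh_succ (g + 1) (r : ℝ), hh_succ g (r : ℝ)]
      have hhp := hh_pos g (Nat.cast_nonneg r : (0 : ℝ) ≤ (r : ℝ))
      rw [mul_assoc, mul_assoc]
      apply mul_le_mul_of_nonneg_left _ hhp.le
      push_cast at hnum ⊢
      have hD : (0 : ℝ) < (r : ℝ) + g + 1 := by positivity
      have hD2 : (0 : ℝ) < (r : ℝ) + g + 2 := by positivity
      have e1 : ((r : ℝ) + 1) / ((r : ℝ) + g + 1) * X =
          (((r : ℝ) + 1) * X * ((g : ℝ) + 1 + r + 1)) / (((r : ℝ) + g + 1) * ((r : ℝ) + g + 2)) := by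
        field_simp
        ring
      have e2 : ((g : ℝ) + 1) / ((r : ℝ) + ((g : ℝ) + 1)) * (((g : ℝ) + 1 + 1) / ((r : ℝ) + ((g : ℝ) + 1 + 1))) =
          (((g : ℝ) + 1) * ((g : ℝ) + 1 + 1)) / (((r : ℝ) + g + 1) * ((r : ℝ) + g + 2)) := by
        rw [div_mul_div_comm]
        congr 1
        ring
      rw [e1, e2]
      exact div_le_div_of_nonneg_right hnum (by positivity)

end Pool.Agent.LRF
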