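import Mathlib
import Pool.Agent.LRF.A7
import Pool.Agent.LRF.C5

set_option autoImplicit false

namespace Pool.Agent.LRF

open Finset
open Pool.Agent.LRE Pool.Agent.LRT

theorem C6_arith (r w X : ℕ) (hr : 3 ≤ r) (hw : 3 * (r + 1) ≤ w) (h : (r - 1) * w < r * X) :
    3 * r ≤ X := by
  obtain ⟨q, rfl⟩ : ∃ q, r = q + 1 := ⟨r - 1, by omega⟩
  rw [Nat.add_sub_cancel] at h
  by_contra hcon
  rw [not_le] at hcon
  have h1 : X ≤ 3 * (q + 1) - 1 := by omega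
  have h2 : q * (3 * (q + 1 + 1)) ≤ q * w := Nat.mul_le_mul_left q hw
  have h3 : (q + 1) * X ≤ (q + 1) * (3 * q + 2) := Nat.mul_le_mul_left _ (by omega)
  have h4 : q * (3 * (q + 1 + 1)) < (q + 1) * (3 * q + 2) := by omega
  nlinarith

/-- Row LRF-C6. `stageF 1 le_rfl (fun m w => 3 * m ≤ w)`.
`hRA` (`r ≥ 3`): `r L > (r-1) w ≥ 3 (r-1)(r+1) = 3r² - 3`, so `L ≥ 3 r` (`r (3r-1) ≤ 3r² - 3`).
`hRB`: `B_one` with `psi τ ≤ hh (h+1) r`: `r ≥ 3`: `r (h+1) ≥ N > 3r² - 3`, so `h + 1 ≥ 3 r`: `RC`,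
`crudeF`. `r = 2`: `w ≥ 9`, `N > w ≥ 9`, so `h ≥ 4`; `h ≥ 5`: `crudeF`; `h = 4`: `N = 10`:
`crude_top`. -/
theorem S2 (m w δ : ℕ) (s : Multiset ℕ) (hm : 3 ≤ m) (hR : 3 * m ≤ w) (hpos : ∀ x ∈ s, 0 < x)
    (hsup : s.sup = w) (hcard : s.card ≤ w) (hsum : s.sum + δ = m * w) (hδ : δ < w) :
    psi s ≤ hh w (m : ℝ) * max (AA m w δ) (GP m w δ) := by
  have key := stageF 1 le_rfl (fun m w => 3 * m ≤ w) ?_ ?_ m w δ s hm hR hpos hsup hcard hsum hδ
  · rw [one_mul] at key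
    exact key
  · intro r w L hr hw hL hLw
    exact C6_arith r w L hr hw hL
  · intro r w h τ hr hw hpos hc hs h1 h2 h3 h4 hhw
    refine B_one w h r τ (by omega) (hs.trans (Nat.le_succ h)) h2 hhw ?_
    rcases Nat.lt_or_ge r 3 with h5 | h5
    · have hr2 : r = 2 := by omega
      subst hr2
      have hw' : 9 ≤ w := by
        have := hw
        omega
      have h10 : 10 ≤ τ.sum := by omega
      rcases Nat.lt_or_ge h 5 with h6 | h6
      · have h7 : h = 4 := by omega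
        subst h7
        exact crude_top 2 4 τ (by omega) hc hs h1 (by omega)
      · exact crudeF 2 h τ le_rfl (Or.inl (by omega)) hpos hc hs h1 h2
    · have h6 : 3 * r ≤ h + 1 := C6_arith r w (h + 1) h5 hw (lt_of_lt_of_le h3 h2)
      exact crudeF r h τ hr (Or.inl h6) hpos hc hs h1 h2

end Pool.Agent.LRF
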