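import Mathlib
import Pool.Agent.LRF.C0

set_option autoImplicit false

namespace Pool.Agent.LRF

open Finset
open Pool.Agent.LRE Pool.Agent.LRT

/-- `120 r⁴ (w+1)⁵` times the Bonferroni bound -/
noncomputable def D2_Bp (m w : ℝ) : ℝ :=
  120 * (m - 1) ^ 4 * (w + 1) ^ 5 - 120 * (m - 1) ^ 4 * (3 * m - 1) * (w + 1) ^ 4 +
    60 * (m - 1) ^ 3 * (m - 2) * (3 * m - 1) ^ 2 * (w + 1) ^ 3 -
    20 * (m - 1) ^ 2 * (m - 2) * (m - 3) * (3 * m - 1) ^ 3 * (w + 1) ^ 2 +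
    5 * (m - 1) * (m - 2) * (m - 3) * (m - 4) * (3 * m - 1) ^ 4 * (w + 1) -
    (m - 2) * (m - 3) * (m - 4) * (m - 5) * (3 * m - 1) ^ 5

theorem D2_poly (a b : ℝ) (ha : 0 ≤ a) (hb : 0 ≤ b) :
    120 * (15 + 4 * a + b + 1) ^ 5 * (4 + a - 1) ^ 4 * (15 + 4 * a + b) ^ 2 ≤
      D2_Bp (4 + a) (15 + 4 * a + b) *
        (2 * (15 + 4 * a + b + (4 + a)) ^ 2 - (15 + 4 * a + b) ^ 2) := by
  have e : D2_Bp (4 + a) (15 + 4 * a + b) *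
        (2 * (15 + 4 * a + b + (4 + a)) ^ 2 - (15 + 4 * a + b) ^ 2) -
      120 * (15 + 4 * a + b + 1) ^ 5 * (4 + a - 1) ^ 4 * (15 + 4 * a + b) ^ 2 =
      6498 * a ^ 11 + 92694 * a ^ 10 * b + 500346 * a ^ 10 + 116997 * a ^ 9 * b ^ 2 + 3740010 *
      a ^ 9 * b + 12777171 * a ^ 9 + 61725 * a ^ 8 * b ^ 3 + 4038969 * a ^ 8 * b ^ 2 + 66211845
      * a ^ 8 * b + 171845597 * a ^ 8 + 16500 * a ^ 7 * b ^ 4 + 1842450 * a ^ 7 * b ^ 3 +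
      61080063 * a ^ 7 * b ^ 2 + 680441320 * a ^ 7 * b + 1429033681 * a ^ 7 + 2220 * a ^ 6 * b ^
      5 + 420360 * a ^ 6 * b ^ 4 + 23779545 * a ^ 6 * b ^ 3 + 531989161 * a ^ 6 * b ^ 2 +
      4508674441 * a ^ 6 * b + 7894595473 * a ^ 6 + 120 * a ^ 5 * b ^ 6 + 47100 * a ^ 5 * b ^ 5
      + 4538220 * a ^ 5 * b ^ 4 + 173529190 * a ^ 5 * b ^ 3 + 2944541825 * a ^ 5 * b ^ 2 +
      20166553948 * a ^ 5 * b + 29884458947 * a ^ 5 + 2040 * a ^ 4 * b ^ 6 + 411360 * a ^ 4 * b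
      ^ 5 + 26944160 * a ^ 4 * b ^ 4 + 783818615 * a ^ 4 * b ^ 3 + 10750660139 * a ^ 4 * b ^ 2 +
      61740546175 * a ^ 4 * b + 77866189967 * a ^ 4 + 13680 * a ^ 3 * b ^ 6 + 1895880 * a ^ 3 *
      b ^ 5 + 95100780 * a ^ 3 * b ^ 4 + 2245687430 * a ^ 3 * b ^ 3 + 25908738573 * a ^ 3 * b ^
      2 + 127842297600 * a ^ 3 * b + 136889739649 * a ^ 3 + 45360 * a ^ 2 * b ^ 6 + 4869180 * a
      ^ 2 * b ^ 5 + 199703560 * a ^ 2 * b ^ 4 + 3987799675 * a ^ 2 * b ^ 3 + 39761915691 * a ^ 2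
      * b ^ 2 + 171387789085 * a ^ 2 * b + 154031582857 * a ^ 2 + 74520 * a * b ^ 6 + 6614460 *
      a * b ^ 5 + 231175860 * a * b ^ 4 + 4014820290 * a * b ^ 3 + 35273278702 * a * b ^ 2 +
      134308084882 * a * b + 98864105654 * a + 48600 * b ^ 6 + 3716280 * b ^ 5 + 113870160 * b ^
      4 + 1755281880 * b ^ 3 + 13783903560 * b ^ 2 + 46691262720 * b + 26849986560 := by
    unfold D2_Bp
    ring
  rw [← sub_nonneg, e]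
  positivity

/-- Row LRF-D2. `phi r z = ((1 - z/r)^r)⁻¹`, `r = m - 1`, `z = (3m-1)/(w+1)`. `bonf5` with `n = r`,
`x = z/r` gives `(1 - z/r)^r ≥ B`, and `B (2 (1+m/w)² - 1) ≥ 1`: multiply by `(w+1)⁵ r⁴ w²`; after
the substitution `m = 4 + a`, `w = 4m - 1 + b` ALL COEFFICIENTS of the difference in `a, b` are
positive (checked). (It is convenient to prove the polynomial inequality as a separate lemma in real
variables `a, b ≥ 0`, by `ring_nf; positivity` or `nlinarith`/`positivity` after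
`have : RHS - LHS = (explicit polynomial) := by ring`.) -/
theorem N5_q2 (m w : ℕ) (hm : 4 ≤ m) (hw : 4 * m ≤ w + 1) :
    phi (m - 1) ((3 * (m : ℝ) - 1) / ((w : ℝ) + 1)) ≤ 2 * (1 + (m : ℝ) / w) ^ 2 - 1 := by
  have hm' : (4 : ℝ) ≤ m := by exact_mod_cast hm
  have hw' : 4 * (m : ℝ) ≤ w + 1 := by exact_mod_cast hw
  have hr : ((m - 1 : ℕ) : ℝ) = (m : ℝ) - 1 := by
    rw [Nat.cast_sub (by omega)]
    norm_num
  have hw0 : (0 : ℝ) < w := by linarith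
  have hw1 : (0 : ℝ) < (w : ℝ) + 1 := by linarith
  have hr0 : (0 : ℝ) < (m : ℝ) - 1 := by linarith
  have hx0 : 0 ≤ (3 * (m : ℝ) - 1) / ((w : ℝ) + 1) / ((m : ℝ) - 1) :=
    div_nonneg (div_nonneg (by linarith) hw1.le) hr0.le
  have hx1 : (3 * (m : ℝ) - 1) / ((w : ℝ) + 1) / ((m : ℝ) - 1) ≤ 1 := by
    rw [div_le_one hr0, div_le_iff₀ hw1]
    nlinarith
  have hB := bonf5 (m - 1) ((3 * (m : ℝ) - 1) / ((w : ℝ) + 1) / ((m : ℝ) - 1)) hx0 hx1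
  unfold phi
  rw [hr] at hB ⊢
  set x := (3 * (m : ℝ) - 1) / ((w : ℝ) + 1) / ((m : ℝ) - 1) with hx
  set B := 1 - ((m : ℝ) - 1) * x + ((m : ℝ) - 1) * ((m : ℝ) - 1 - 1) / 2 * x ^ 2 -
      ((m : ℝ) - 1) * ((m : ℝ) - 1 - 1) * ((m : ℝ) - 1 - 2) / 6 * x ^ 3 +
      ((m : ℝ) - 1) * ((m : ℝ) - 1 - 1) * ((m : ℝ) - 1 - 2) * ((m : ℝ) - 1 - 3) / 24 * x ^ 4 -
      ((m : ℝ) - 1) * ((m : ℝ) - 1 - 1) * ((m : ℝ) - 1 - 2) * ((m : ℝ) - 1 - 3) *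
        ((m : ℝ) - 1 - 4) / 120 * x ^ 5 with hBd
  have hBp : B * (120 * ((w : ℝ) + 1) ^ 5 * ((m : ℝ) - 1) ^ 4) = D2_Bp m w := by
    rw [hBd, hx]
    unfold D2_Bp
    have h1 := hw1.ne'
    have h2 := hr0.ne'
    field_simp
    ring
  have hX : (2 * (1 + (m : ℝ) / w) ^ 2 - 1) * (w : ℝ) ^ 2 =
      2 * ((w : ℝ) + m) ^ 2 - (w : ℝ) ^ 2 := by
    have h3 := hw0.ne'
    field_simp
  have hXpos : 0 < 2 * (1 + (m : ℝ) / w) ^ 2 - 1 := by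
    have h4 : 0 ≤ (m : ℝ) / w := by positivity
    nlinarith
  have hpoly := D2_poly ((m : ℝ) - 4) ((w : ℝ) + 1 - 4 * m) (by linarith) (by linarith)
  have e1 : (4 : ℝ) + ((m : ℝ) - 4) = m := by ring
  have e2 : (15 : ℝ) + 4 * ((m : ℝ) - 4) + ((w : ℝ) + 1 - 4 * m) = w := by ring
  rw [e1, e2] at hpoly
  have hBX : 1 ≤ B * (2 * (1 + (m : ℝ) / w) ^ 2 - 1) := by
    have hpos : 0 < 120 * ((w : ℝ) + 1) ^ 5 * ((m : ℝ) - 1) ^ 4 * (w : ℝ) ^ 2 := by positivity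
    refine le_of_mul_le_mul_right ?_ hpos
    rw [one_mul]
    refine hpoly.trans (le_of_eq ?_)
    rw [← hBp, ← hX]
    ring
  have h5 : 1 ≤ (1 - x) ^ (m - 1) * (2 * (1 + (m : ℝ) / w) ^ 2 - 1) :=
    hBX.trans (mul_le_mul_of_nonneg_right hB hXpos.le)
  have h6 : 0 < (1 - x) ^ (m - 1) := by
    by_contra hneg
    rw [not_lt] at hneg
    have := mul_nonpos_of_nonpos_of_nonneg hneg hXpos.le
    linarith
  rw [inv_eq_one_div, div_le_iff₀ h6]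
  linarith

end Pool.Agent.LRF
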