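import Mathlib
import Pool.Agent.LRF.Defs
import Pool.Agent.LRE.W4

set_option autoImplicit false

namespace Pool.Agent.LRF

open Finset
open Pool.Agent.LRE Pool.Agent.LRT

theorem D3_anti (r r' : ℕ) (hr : 1 ≤ r) (h : r ≤ r') (z : ℝ) (hz1 : z < r) :
    phi r' z ≤ phi r z := by
  have hr0 : (0 : ℝ) < r := by exact_mod_cast hr
  have hrr : (r : ℝ) ≤ r' := by exact_mod_cast h
  have hr0' : (0 : ℝ) < r' := lt_of_lt_of_le hr0 hrr
  have hp : 0 < 1 - z / r := by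
    have : z / r < 1 := by
      rw [div_lt_one hr0]
      exact hz1
    linarith
  have hp' : 0 < 1 - z / r' := by
    have : z / r' < 1 := by
      rw [div_lt_one hr0']
      linarith
    linarith
  have h5 : 1 + ((r' : ℝ) / r) * (-(z / r')) ≤ (1 + (-(z / r'))) ^ ((r' : ℝ) / r) :=
    one_add_mul_self_le_rpow_one_add (by linarith) (by
      rw [le_div_iff₀ hr0]
      linarith)
  have h6 : 1 + ((r' : ℝ) / r) * (-(z / r')) = 1 - z / r := by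
    field_simp
    ring
  have h7 : 1 + (-(z / (r' : ℝ))) = 1 - z / r' := by ring
  rw [h6, h7] at h5
  have h8 : ((1 - z / r') ^ ((r' : ℝ) / r)) ^ r = (1 - z / r') ^ r' := by
    rw [← Real.rpow_natCast, ← Real.rpow_mul hp'.le]
    have : (r' : ℝ) / r * (r : ℝ) = r' := by field_simp
    rw [this, Real.rpow_natCast]
  unfold phi
  apply inv_anti₀ (by positivity)
  rw [← h8]
  exact pow_le_pow_left₀ hp.le h5 r

theorem D3_step (q : ℕ) : ((q : ℝ) + 3) ^ q * ((q : ℝ) + 3) ^ (q + 1) ≤ ((q : ℝ) + 2) ^ q * ((q : ℝ) + 4) ^ (q + 1) := by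
  have hq : (0 : ℝ) ≤ q := Nat.cast_nonneg q
  have h1 : 1 + (q : ℝ) * (-(1 / ((q : ℝ) + 3) ^ 2)) ≤ (1 + (-(1 / ((q : ℝ) + 3) ^ 2))) ^ q := by
    apply one_add_mul_le_pow
    have : 1 / ((q : ℝ) + 3) ^ 2 ≤ 1 := by
      rw [div_le_one (by positivity)]
      nlinarith
    linarith
  have h2 : 1 + (-(1 / ((q : ℝ) + 3) ^ 2)) = ((q : ℝ) + 2) * (q + 4) / (q + 3) ^ 2 := by
    field_simp
    ring
  have h3 : 1 + (q : ℝ) * (-(1 / ((q : ℝ) + 3) ^ 2)) = (((q : ℝ) + 3) ^ 2 - q) / (q + 3) ^ 2 := by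
    field_simp
    ring
  rw [h2, h3, div_pow, div_le_div_iff₀ (by positivity) (by positivity)] at h1
  have h4 : ((q : ℝ) + 3) ^ 3 ≤ (((q : ℝ) + 3) ^ 2 - q) * (q + 4) := by nlinarith
  have h5 : 0 < ((q : ℝ) + 3) ^ 2 := by positivity
  have h6 : ((q : ℝ) + 3) * (((q : ℝ) + 3) ^ 2) ^ q ≤ (((q : ℝ) + 2) * (q + 4)) ^ q * (q + 4) := by
    have h7 : ((q : ℝ) + 3) ^ 3 * (((q : ℝ) + 3) ^ 2) ^ q ≤
        (((q : ℝ) + 2) * (q + 4)) ^ q * (q + 3) ^ 2 * (q + 4) := by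
      calc ((q : ℝ) + 3) ^ 3 * (((q : ℝ) + 3) ^ 2) ^ q ≤
          ((((q : ℝ) + 3) ^ 2 - q) * (q + 4)) * (((q : ℝ) + 3) ^ 2) ^ q :=
            mul_le_mul_of_nonneg_right h4 (by positivity)
        _ = (((q : ℝ) + 3) ^ 2 - q) * (((q : ℝ) + 3) ^ 2) ^ q * (q + 4) := by ring
        _ ≤ _ := mul_le_mul_of_nonneg_right h1 (by positivity)
    apply le_of_mul_le_mul_left _ h5
    calc ((q : ℝ) + 3) ^ 2 * (((q : ℝ) + 3) * (((q : ℝ) + 3) ^ 2) ^ q) =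
        ((q : ℝ) + 3) ^ 3 * (((q : ℝ) + 3) ^ 2) ^ q := by ring
      _ ≤ _ := h7
      _ = _ := by ring
  calc ((q : ℝ) + 3) ^ q * ((q : ℝ) + 3) ^ (q + 1) = ((q : ℝ) + 3) * (((q : ℝ) + 3) ^ 2) ^ q := by
        rw [← pow_mul, two_mul, pow_add, pow_succ]
        ring
    _ ≤ _ := h6
    _ = _ := by
        rw [mul_pow, pow_succ]
        ring

theorem D3_mono (q : ℕ) : (1 + 1 / ((q : ℝ) + 2)) ^ q ≤ (1 + 1 / (((q + 1 : ℕ) : ℝ) + 2)) ^ (q + 1) := by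
  have hq : (0 : ℝ) ≤ q := Nat.cast_nonneg q
  have h := D3_step q
  have e1 : 1 + 1 / ((q : ℝ) + 2) = (q + 3) / (q + 2) := by
    field_simp
    ring
  have e2 : 1 + 1 / (((q + 1 : ℕ) : ℝ) + 2) = (q + 4) / (q + 3) := by
    push_cast
    field_simp
    ring
  rw [e1, e2, div_pow, div_pow, div_le_div_iff₀ (by positivity) (by positivity)]
  linarith

theorem D3_mono' (q₀ q : ℕ) (h : q₀ ≤ q) : (1 + 1 / ((q₀ : ℝ) + 2)) ^ q₀ ≤ (1 + 1 / ((q : ℝ) + 2)) ^ q := by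
  induction q, h using Nat.le_induction with
  | base => exact le_rfl
  | succ n _ ih => exact ih.trans (D3_mono n)

/-- Row LRF-D3a. Scaling. `1 - λ x ≥ (1-x)^λ` (Bernoulli, `0 ≤ λ ≤ 1`), so
`phi r (λ z) ≤ (phi r z)^λ ≤ (2Y-1)^λ`, `Y = (1+y)^q`; `(1+λy)^q ≥ Y^λ`, and
`Y^λ ≥ ((2Y-1)^λ + 1)/2` (concavity of `x ↦ x^λ`, `Real.concaveOn_rpow`). -/
theorem D3_scale (r q : ℕ) (z y t : ℝ) (hr : 1 ≤ r) (hz0 : 0 ≤ z) (hz1 : z < r) (hy : 0 ≤ y)
    (h0 : 0 ≤ t) (h1 : t ≤ 1) (h : phi r z ≤ 2 * (1 + y) ^ q - 1) :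
    phi r (t * z) ≤ 2 * (1 + t * y) ^ q - 1 := by
  have hr0 : (0 : ℝ) < r := by exact_mod_cast hr
  have hx0 : 0 ≤ z / r := div_nonneg hz0 hr0.le
  have hx1 : z / r < 1 := by
    rw [div_lt_one hr0]
    exact hz1
  set x := z / r with hx
  have hp : 0 < 1 - x := by linarith
  have b1 : (1 + (-x)) ^ t ≤ 1 + t * (-x) :=
    rpow_one_add_le_one_add_mul_self (by linarith) h0 h1
  have b1' : (1 - x) ^ t ≤ 1 - t * x := by
    have e1 : 1 + (-x) = 1 - x := by ring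
    have e2 : 1 + t * (-x) = 1 - t * x := by ring
    rw [e1, e2] at b1
    exact b1
  have b2 : (1 + y) ^ t ≤ 1 + t * y := rpow_one_add_le_one_add_mul_self (by linarith) h0 h1
  set Y := (1 + y) ^ q with hY
  have hY1 : 1 ≤ Y := one_le_pow₀ (by linarith)
  have hpx : 0 < (1 - x) ^ t := Real.rpow_pos_of_pos hp t
  have s1 : phi r (t * z) ≤ (phi r z) ^ t := by
    have e1 : phi r (t * z) = ((1 - t * x) ^ r)⁻¹ := by
      unfold phi
      rw [hx, mul_div_assoc]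
    have e2 : (phi r z) ^ t = (((1 - x) ^ t) ^ r)⁻¹ := by
      unfold phi
      rw [← hx, Real.inv_rpow (by positivity), ← Real.rpow_natCast, ← Real.rpow_natCast,
        ← Real.rpow_mul hp.le, ← Real.rpow_mul hp.le, mul_comm]
    rw [e1, e2]
    exact inv_anti₀ (by positivity) (pow_le_pow_left₀ hpx.le b1' r)
  have s2 : (phi r z) ^ t ≤ (2 * Y - 1) ^ t := by
    apply Real.rpow_le_rpow _ h h0
    unfold phi
    rw [← hx]
    positivity
  have s3 : (2 * Y - 1) ^ t ≤ 2 * Y ^ t - 1 := by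
    have hcc := (Real.concaveOn_rpow h0 h1).2
    have hc := @hcc (2 * Y - 1) (show (0 : ℝ) ≤ 2 * Y - 1 by linarith) 1
      (show (0 : ℝ) ≤ 1 by norm_num) (1 / 2) (1 / 2) (by norm_num) (by norm_num) (by norm_num)
    simp only [smul_eq_mul, Real.one_rpow] at hc
    have e : 1 / 2 * (2 * Y - 1) + 1 / 2 * 1 = Y := by ring
    rw [e] at hc
    linarith
  have s4 : Y ^ t ≤ (1 + t * y) ^ q := by
    have e1 : Y ^ t = ((1 + y) ^ t) ^ q := by
      rw [hY, ← Real.rpow_natCast, ← Real.rpow_natCast, ← Real.rpow_mul (by linarith),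
        ← Real.rpow_mul (by linarith), mul_comm]
    rw [e1]
    exact pow_le_pow_left₀ (Real.rpow_nonneg (by linarith) t) b2 q
  linarith

/-- Row LRF-D3b. `phi 4 z = (1 - z/4)^{-4}`. `q ≥ 7`: `phi 4 z ≤ phi 4 1 = 256/81 ≤ 2 (10/9)^7 - 1` and
`((q+3)/(q+2))^q` is increasing in `q` (Bernoulli). `q = 3, 4, 5, 6`: numbers. -/
theorem D3_four (q : ℕ) (hq : 3 ≤ q) :
    phi 4 (((q : ℝ) + 1) / ((q : ℝ) + 2)) ≤ 2 * (1 + 1 / ((q : ℝ) + 2)) ^ q - 1 := by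
  by_cases h7 : 7 ≤ q
  · have hq0 : (0 : ℝ) ≤ q := Nat.cast_nonneg q
    have h1 : ((q : ℝ) + 1) / ((q : ℝ) + 2) ≤ 1 := by
      rw [div_le_one (by positivity)]
      linarith
    have h2 := phi_mono 4 (by norm_num) _ 1 h1 le_rfl
    have h3 := D3_mono' 7 q h7
    have h4 : phi 4 1 ≤ 2 * (1 + 1 / (((7 : ℕ) : ℝ) + 2)) ^ 7 - 1 := by
      unfold phi
      norm_num
    linarith
  · have : q = 3 ∨ q = 4 ∨ q = 5 ∨ q = 6 := by omega
    rcases this with rfl | rfl | rfl | rfl <;>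
    · unfold phi
      norm_num

/-- Row LRF-D3b. `phi 3 z = (1 - z/3)^{-3}`. `q ≥ 9`: `phi 3 z ≤ phi 3 1 = 27/8 ≤ 2 (12/11)^9 - 1`.
`3 ≤ q ≤ 8`: numbers. -/
theorem D3_three (q : ℕ) (hq : 3 ≤ q) :
    phi 3 (((q : ℝ) + 3 / 4) / ((q : ℝ) + 2)) ≤ 2 * (1 + 1 / ((q : ℝ) + 2)) ^ q - 1 := by
  by_cases h9 : 9 ≤ q
  · have hq0 : (0 : ℝ) ≤ q := Nat.cast_nonneg q
    have h1 : ((q : ℝ) + 3 / 4) / ((q : ℝ) + 2) ≤ 1 := by
      rw [div_le_one (by positivity)]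
      linarith
    have h2 := phi_mono 3 (by norm_num) _ 1 h1 le_rfl
    have h3 := D3_mono' 9 q h9
    have h4 : phi 3 1 ≤ 2 * (1 + 1 / (((9 : ℕ) : ℝ) + 2)) ^ 9 - 1 := by
      unfold phi
      norm_num
    linarith
  · have : q = 3 ∨ q = 4 ∨ q = 5 ∨ q = 6 ∨ q = 7 ∨ q = 8 := by omega
    rcases this with rfl | rfl | rfl | rfl | rfl | rfl <;>
    · unfold phi
      norm_num

/-- Row LRF-D3c. `y = m/(w+1) ≤ 1/(q+2)`, `t = (q+2) y ≤ 1`, argument `z = (q+1) y - 1/(w+1)`.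
`m ≥ 5`: `phi (m-1) z ≤ phi 4 z ≤ phi 4 ((q+1) y)` (`phi_step`, `phi_mono` in LRE/W4.lean, or
directly; `z ≤ 1`), `D3_four` and `D3_scale` with `t`. `m = 4`: `z = (q + 3/4) y`, `D3_three`.
Finally `1 + m/w ≥ 1 + y`. -/
theorem N5_q3 (m w q : ℕ) (hm : 4 ≤ m) (hq : 3 ≤ q) (hw : (q + 2) * m ≤ w + 1) :
    phi (m - 1) ((((q : ℝ) + 1) * m - 1) / ((w : ℝ) + 1)) ≤ 2 * (1 + (m : ℝ) / w) ^ q - 1 := by
  have hq0 : (0 : ℝ) ≤ q := Nat.cast_nonneg q
  have hm0 : (4 : ℝ) ≤ m := by exact_mod_cast hm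
  have hw0 : (0 : ℝ) < w := by
    have : 5 * 4 ≤ (q + 2) * m := Nat.mul_le_mul (by omega) hm
    have h2 : 0 < w := by omega
    exact_mod_cast h2
  have hwR : ((q : ℝ) + 2) * m ≤ w + 1 := by exact_mod_cast hw
  set t : ℝ := ((q : ℝ) + 2) * m / (w + 1) with ht
  have ht0 : 0 ≤ t := by positivity
  have ht1 : t ≤ 1 := by
    rw [ht, div_le_one (by positivity)]
    exact hwR
  have hy : t * (1 / ((q : ℝ) + 2)) = m / (w + 1) := by
    rw [ht]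
    field_simp
  have hz : t * (((q : ℝ) + 1) / ((q : ℝ) + 2)) = ((q : ℝ) + 1) * m / (w + 1) := by
    rw [ht]
    field_simp
  have hz3 : t * (((q : ℝ) + 3 / 4) / ((q : ℝ) + 2)) = ((q : ℝ) + 3 / 4) * m / (w + 1) := by
    rw [ht]
    field_simp
  have hfin : 2 * (1 + t * (1 / ((q : ℝ) + 2))) ^ q - 1 ≤ 2 * (1 + (m : ℝ) / w) ^ q - 1 := by
    have h1 : 1 + t * (1 / ((q : ℝ) + 2)) ≤ 1 + (m : ℝ) / w := by
      rw [hy]
      have : (m : ℝ) / (w + 1) ≤ m / w := div_le_div_of_nonneg_left (by linarith) hw0 (by linarith)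
      linarith
    have h2 := pow_le_pow_left₀ (by positivity) h1 q
    linarith
  have hz01 : ((q : ℝ) + 1) * m / (w + 1) ≤ 1 := by
    rw [div_le_one (by positivity)]
    nlinarith
  have hzz : (((q : ℝ) + 1) * m - 1) / ((w : ℝ) + 1) ≤ ((q : ℝ) + 1) * m / (w + 1) :=
    div_le_div_of_nonneg_right (by linarith) (by positivity)
  refine le_trans ?_ hfin
  by_cases h5 : 5 ≤ m
  · have s1 := D3_anti 4 (m - 1) (by norm_num) (by omega) ((((q : ℝ) + 1) * m - 1) / ((w : ℝ) + 1))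
      (by push_cast; linarith)
    have s2 := phi_mono 4 (by norm_num) _ _ hzz hz01
    have s3 := D3_scale 4 q (((q : ℝ) + 1) / ((q : ℝ) + 2)) (1 / ((q : ℝ) + 2)) t (by norm_num)
      (by positivity) (by
        have : ((q : ℝ) + 1) / ((q : ℝ) + 2) ≤ 1 := by
          rw [div_le_one (by positivity)]
          linarith
        push_cast
        linarith) (by positivity) ht0 ht1 (D3_four q hq)
    rw [hz] at s3
    linarith
  · obtain rfl : m = 4 := by omega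
    have s3 := D3_scale 3 q (((q : ℝ) + 3 / 4) / ((q : ℝ) + 2)) (1 / ((q : ℝ) + 2)) t (by norm_num)
      (by positivity) (by
        have : ((q : ℝ) + 3 / 4) / ((q : ℝ) + 2) ≤ 1 := by
          rw [div_le_one (by positivity)]
          linarith
        push_cast
        linarith) (by positivity) ht0 ht1 (D3_three q hq)
    rw [hz3] at s3
    have e : ((q : ℝ) + 3 / 4) * ((4 : ℕ) : ℝ) / (w + 1) = (((q : ℝ) + 1) * ((4 : ℕ) : ℝ) - 1) / ((w : ℝ) + 1) := by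
      congr 1
      push_cast
      ring
    rw [e] at s3
    exact s3

end Pool.Agent.LRF
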