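import Mathlib
import Pool.Agent.LRF.Defs

set_option autoImplicit false

namespace Pool.Agent.LRF

open Finset
open Pool.Agent.LRE Pool.Agent.LRT

theorem D4_poly0 (a b : ℝ) (ha : 0 ≤ a) (hb : 0 ≤ b) :
    ((2 * (((3 * (b + 2) + 0) + 3 + a) + 1) - (3 * (b + 2) + 0)) ^ 2 + 4 * (((3 * (b + 2) + 0) + 3 + a) + 1) ^ 2) * (((((3 * (b + 2) + 0) + 3 + a) - (b + 2)) + 1) * ((((3 * (b + 2) + 0) + 3 + a) - (b + 2)) + 2) * ((((3 * (b + 2) + 0) + 3 + a) - (b + 2)) + 3)) ≤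
      2 * ((((3 * (b + 2) + 0) + 3 + a) + 1) * (((3 * (b + 2) + 0) + 3 + a) + 2) * (((3 * (b + 2) + 0) + 3 + a) + 3)) * (2 * (((3 * (b + 2) + 0) + 3 + a) + 1) - (3 * (b + 2) + 0)) ^ 2 := by
  have e : 2 * ((((3 * (b + 2) + 0) + 3 + a) + 1) * (((3 * (b + 2) + 0) + 3 + a) + 2) * (((3 * (b + 2) + 0) + 3 + a) + 3)) * (2 * (((3 * (b + 2) + 0) + 3 + a) + 1) - (3 * (b + 2) + 0)) ^ 2 -
      ((2 * (((3 * (b + 2) + 0) + 3 + a) + 1) - (3 * (b + 2) + 0)) ^ 2 + 4 * (((3 * (b + 2) + 0) + 3 + a) + 1) ^ 2) * (((((3 * (b + 2) + 0) + 3 + a) - (b + 2)) + 1) * ((((3 * (b + 2) + 0) + 3 + a) - (b + 2)) + 2) * ((((3 * (b + 2) + 0) + 3 + a) - (b + 2)) + 3)) =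
      12 * a ^ 4 * b + 24 * a ^ 4 + 93 * a ^ 3 * b ^ 2 + 576 * a ^ 3 * b + 780 * a ^ 3 + 260 * a
      ^ 2 * b ^ 3 + 2715 * a ^ 2 * b ^ 2 + 9028 * a ^ 2 * b + 9276 * a ^ 2 + 306 * a * b ^ 4 +
      4528 * a * b ^ 3 + 24546 * a * b ^ 2 + 57224 * a * b + 47592 * a + 126 * b ^ 5 + 2430 * b
      ^ 4 + 18488 * b ^ 3 + 69048 * b ^ 2 + 125728 * b + 88320 := by
    ring
  rw [← sub_nonneg, e]
  positivity

theorem D4_poly1 (a b : ℝ) (ha : 0 ≤ a) (hb : 0 ≤ b) :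
    ((2 * (((3 * (b + 2) + 1) + 3 + a) + 1) - (3 * (b + 2) + 1)) ^ 2 + 4 * (((3 * (b + 2) + 1) + 3 + a) + 1) ^ 2) * (((((3 * (b + 2) + 1) + 3 + a) - (b + 2)) + 1) * ((((3 * (b + 2) + 1) + 3 + a) - (b + 2)) + 2) * ((((3 * (b + 2) + 1) + 3 + a) - (b + 2)) + 3)) ≤
      2 * ((((3 * (b + 2) + 1) + 3 + a) + 1) * (((3 * (b + 2) + 1) + 3 + a) + 2) * (((3 * (b + 2) + 1) + 3 + a) + 3)) * (2 * (((3 * (b + 2) + 1) + 3 + a) + 1) - (3 * (b + 2) + 1)) ^ 2 := by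
  have e : 2 * ((((3 * (b + 2) + 1) + 3 + a) + 1) * (((3 * (b + 2) + 1) + 3 + a) + 2) * (((3 * (b + 2) + 1) + 3 + a) + 3)) * (2 * (((3 * (b + 2) + 1) + 3 + a) + 1) - (3 * (b + 2) + 1)) ^ 2 -
      ((2 * (((3 * (b + 2) + 1) + 3 + a) + 1) - (3 * (b + 2) + 1)) ^ 2 + 4 * (((3 * (b + 2) + 1) + 3 + a) + 1) ^ 2) * (((((3 * (b + 2) + 1) + 3 + a) - (b + 2)) + 1) * ((((3 * (b + 2) + 1) + 3 + a) - (b + 2)) + 2) * ((((3 * (b + 2) + 1) + 3 + a) - (b + 2)) + 3)) =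
      12 * a ^ 4 * b + 20 * a ^ 4 + 93 * a ^ 3 * b ^ 2 + 570 * a ^ 3 * b + 677 * a ^ 3 + 260 * a
      ^ 2 * b ^ 3 + 2754 * a ^ 2 * b ^ 2 + 8956 * a ^ 2 * b + 8206 * a ^ 2 + 306 * a * b ^ 4 +
      4612 * a * b ^ 3 + 24969 * a * b ^ 2 + 56054 * a * b + 41359 * a + 126 * b ^ 5 + 2460 * b
      ^ 4 + 18682 * b ^ 3 + 68106 * b ^ 2 + 116288 * b + 70290 := by
    ring
  rw [← sub_nonneg, e]
  positivity

theorem D4_poly2 (a b : ℝ) (ha : 0 ≤ a) (hb : 0 ≤ b) :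
    ((2 * (((3 * (b + 2) + 2) + 3 + a) + 1) - (3 * (b + 2) + 2)) ^ 2 + 4 * (((3 * (b + 2) + 2) + 3 + a) + 1) ^ 2) * (((((3 * (b + 2) + 2) + 3 + a) - (b + 2)) + 1) * ((((3 * (b + 2) + 2) + 3 + a) - (b + 2)) + 2) * ((((3 * (b + 2) + 2) + 3 + a) - (b + 2)) + 3)) ≤
      2 * ((((3 * (b + 2) + 2) + 3 + a) + 1) * (((3 * (b + 2) + 2) + 3 + a) + 2) * (((3 * (b + 2) + 2) + 3 + a) + 3)) * (2 * (((3 * (b + 2) + 2) + 3 + a) + 1) - (3 * (b + 2) + 2)) ^ 2 := by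
  have e : 2 * ((((3 * (b + 2) + 2) + 3 + a) + 1) * (((3 * (b + 2) + 2) + 3 + a) + 2) * (((3 * (b + 2) + 2) + 3 + a) + 3)) * (2 * (((3 * (b + 2) + 2) + 3 + a) + 1) - (3 * (b + 2) + 2)) ^ 2 -
      ((2 * (((3 * (b + 2) + 2) + 3 + a) + 1) - (3 * (b + 2) + 2)) ^ 2 + 4 * (((3 * (b + 2) + 2) + 3 + a) + 1) ^ 2) * (((((3 * (b + 2) + 2) + 3 + a) - (b + 2)) + 1) * ((((3 * (b + 2) + 2) + 3 + a) - (b + 2)) + 2) * ((((3 * (b + 2) + 2) + 3 + a) - (b + 2)) + 3)) =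
      12 * a ^ 4 * b + 16 * a ^ 4 + 93 * a ^ 3 * b ^ 2 + 564 * a ^ 3 * b + 544 * a ^ 3 + 260 * a
      ^ 2 * b ^ 3 + 2793 * a ^ 2 * b ^ 2 + 8728 * a ^ 2 * b + 6272 * a ^ 2 + 306 * a * b ^ 4 +
      4696 * a * b ^ 3 + 25074 * a * b ^ 2 + 51488 * a * b + 26240 * a + 126 * b ^ 5 + 2490 * b
      ^ 4 + 18616 * b ^ 3 + 63240 * b ^ 2 + 87296 * b + 19968 := by
    ring
  rw [← sub_nonneg, e]
  positivity

theorem D4_main (w d v : ℝ) (hw : 0 < w) (hd : d ≤ w) (hv : 0 ≤ v)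
    (h : ((2 * (w + 1) - d) ^ 2 + 4 * (w + 1) ^ 2) * ((v + 1) * (v + 2) * (v + 3)) ≤
      2 * ((w + 1) * (w + 2) * (w + 3)) * (2 * (w + 1) - d) ^ 2) :
    6 / ((w + 1) * (w + 2) * (w + 3)) * ((1 + ((1 - d / (w + 1) / 2) ^ 2)⁻¹) / 2) ≤
      6 / ((v + 1) * (v + 2) * (v + 3)) := by
  have h1 : 0 < w + 1 := by linarith
  have h2 : 0 < 2 * (w + 1) - d := by linarith
  have h3 : 1 - d / (w + 1) / 2 = (2 * (w + 1) - d) / (2 * (w + 1)) := by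
    have := h1.ne'
    field_simp
  have hW : 0 < (w + 1) * (w + 2) * (w + 3) := by positivity
  have hV : 0 < (v + 1) * (v + 2) * (v + 3) := by positivity
  have h4 : 6 / ((w + 1) * (w + 2) * (w + 3)) * ((1 + ((1 - d / (w + 1) / 2) ^ 2)⁻¹) / 2) =
      3 * ((2 * (w + 1) - d) ^ 2 + 4 * (w + 1) ^ 2) /
        (((w + 1) * (w + 2) * (w + 3)) * (2 * (w + 1) - d) ^ 2) := by
    have h5 : ∀ A B C : ℝ, A ≠ 0 → B ≠ 0 →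
        6 / B * ((1 + (2 * C) ^ 2 / A ^ 2) / 2) = 3 * (A ^ 2 + 4 * C ^ 2) / (B * A ^ 2) := by
      intro A B C hA hB
      field_simp
      ring
    rw [h3, div_pow, inv_div]
    exact h5 _ _ _ h2.ne' hW.ne'
  rw [h4, div_le_div_iff₀ (by positivity) hV]
  linarith

theorem D4_hh (v : ℕ) : hh 3 (v : ℝ) = 6 / (((v : ℝ) + 1) * ((v : ℝ) + 2) * ((v : ℝ) + 3)) := by
  rw [hh_succ, hh_succ, hh_succ, hh_zero]
  have h1 : (v : ℝ) + 1 ≠ 0 := by positivity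
  have h2 : (v : ℝ) + 2 ≠ 0 := by positivity
  have h3 : (v : ℝ) + 3 ≠ 0 := by positivity
  push_cast
  have e1 : (v : ℝ) + (0 + 1) = v + 1 := by ring
  have e2 : (v : ℝ) + (1 + 1) = v + 2 := by ring
  have e3 : (v : ℝ) + (2 + 1) = v + 3 := by ring
  rw [e1, e2, e3]
  field_simp
  norm_num

/-- Row LRF-D4. `m = 3`, `q = δ/3`, `δ ≤ 3q + 2`, `δ + 3 ≤ w`.
`hh w 3 = 6/((w+1)(w+2)(w+3))`, `hh 3 (w-q) = 6/((w-q+1)(w-q+2)(w-q+3))` (`hh_symm`),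
`GP 3 w δ = (1 + (1 - δ/(2(w+1)))^{-2})/2`. So the claim is
`1 + (2(w+1)/(2(w+1)-δ))² ≤ 2 (w+1)(w+2)(w+3)/((w-q+1)(w-q+2)(w-q+3))`.
`w ≥ 3q + 5`: replace `δ` by `3q + 2` (monotone); with `q = 2 + b`, `w = 3q + 5 + a` ALL COEFFICIENTS
of the difference are positive (checked). `w = 3q + 3` or `3q + 4`: replace `δ` by `w - 3`; again all
coefficients in `b` are positive (`w ≥ δ + 3 ≥ 3q + 3`). -/
theorem N5_three (w δ : ℕ) (h1 : 6 ≤ δ) (h2 : δ + 3 ≤ w) :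
    hh w (3 : ℝ) * GP 3 w δ ≤ hh 3 ((w - δ / 3 : ℕ) : ℝ) := by
  have e0 : hh w (3 : ℝ) = hh 3 (w : ℝ) := by
    have := hh_symm w 3
    rw [← this]
    norm_num
  rw [e0, D4_hh, D4_hh]
  unfold GP phi
  have e1 : ((3 - 1 : ℕ) : ℝ) = 2 := by norm_num
  rw [e1, show (3 - 1 : ℕ) = 2 from rfl]
  have hw : (0 : ℝ) < w := by
    have : 0 < w := by omega
    exact_mod_cast this
  have hd : (δ : ℝ) ≤ w := by
    have : δ ≤ w := by omega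
    exact_mod_cast this
  apply D4_main (w : ℝ) (δ : ℝ) _ hw hd (Nat.cast_nonneg _)
  obtain ⟨b, a, e, he, hδ, hw2, hv⟩ : ∃ b a e : ℕ, (e = 0 ∨ e = 1 ∨ e = 2) ∧
      δ = 3 * (b + 2) + e ∧ w = 3 * (b + 2) + e + 3 + a ∧ w - δ / 3 + (b + 2) = w :=
    ⟨δ / 3 - 2, w - δ - 3, δ % 3, by omega, by omega, by omega, by omega⟩
  have hδ' : (δ : ℝ) = 3 * ((b : ℝ) + 2) + e := by rw [hδ]; push_cast; ring
  have hw' : (w : ℝ) = 3 * ((b : ℝ) + 2) + e + 3 + a := by rw [hw2]; push_cast; ring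
  have hv' : ((w - δ / 3 : ℕ) : ℝ) = 3 * ((b : ℝ) + 2) + e + 3 + a - ((b : ℝ) + 2) := by
    rw [← hw', eq_sub_iff_add_eq]
    exact_mod_cast hv
  rw [hv', hδ', hw']
  rcases he with rfl | rfl | rfl
  · have := D4_poly0 (a : ℝ) (b : ℝ) (Nat.cast_nonneg _) (Nat.cast_nonneg _)
    simpa using this
  · have := D4_poly1 (a : ℝ) (b : ℝ) (Nat.cast_nonneg _) (Nat.cast_nonneg _)
    simpa using this
  · have := D4_poly2 (a : ℝ) (b : ℝ) (Nat.cast_nonneg _) (Nat.cast_nonneg _)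
    simpa using this

end Pool.Agent.LRF
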