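import Mathlib
import Pool.Agent.LRF.D2
import Pool.Agent.LRF.D3
import Pool.Agent.LRF.D4

set_option autoImplicit false

namespace Pool.Agent.LRF

open Finset
open Pool.Agent.LRE Pool.Agent.LRT

/-- `N5_q2` and `N5_q3` together -/
theorem D5_q (m w q : ℕ) (hm : 4 ≤ m) (hq : 2 ≤ q) (hw : (q + 2) * m ≤ w + 1) :
    phi (m - 1) ((((q : ℝ) + 1) * m - 1) / ((w : ℝ) + 1)) ≤ 2 * (1 + (m : ℝ) / w) ^ q - 1 := by
  rcases eq_or_lt_of_le hq with h | h
  · subst h
    have h1 := N5_q2 m w hm (by omega)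
    have e : ((2 : ℕ) : ℝ) + 1 = 3 := by norm_num
    rw [e]
    exact h1
  · exact N5_q3 m w q hm h hw

/-- Row LRF-D5. `m = 3`: `N5_three`. `m ≥ 4`, `q = δ/m ≥ 2`: `hh_drop m w q` (LRT/F3.lean):
`hh w m (1+m/w)^q ≤ hh m (w-q)`; so `phi (m-1) (δ/(w+1)) ≤ 2 (1+m/w)^q - 1` is enough
(`GP m w δ = (1 + phi (m-1) (δ/(w+1)))/2`). `phi (m-1)` is increasing on `[0,1]`.
If `(q+2) m ≤ w + 1`: `δ ≤ (q+1) m - 1`, `N5_q2` or `N5_q3`.
Otherwise put `w' = (q+2) m - 1 > w`: `δ/(w+1) ≤ (w-m)/(w+1) ≤ (w'-m)/(w'+1) = ((q+1)m-1)/(w'+1)`, and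
`1 + m/w ≥ 1 + m/w'`; use `N5_q2`/`N5_q3` for `w'`. -/
theorem N5 (m w δ : ℕ) (hm : 3 ≤ m) (h1 : 2 * m ≤ δ) (h2 : δ + m ≤ w) :
    hh w (m : ℝ) * GP m w δ ≤ hh m ((w - δ / m : ℕ) : ℝ) := by
  rcases eq_or_lt_of_le hm with h3 | h4
  · subst h3
    have h := N5_three w δ (by omega) h2
    exact_mod_cast h
  · have hm0 : 0 < m := by omega
    obtain ⟨q, hq⟩ : ∃ q, q = δ / m := ⟨_, rfl⟩
    have hq2 : 2 ≤ q := by
      rw [hq, Nat.le_div_iff_mul_le hm0]
      exact h1
    have hqδ : q * m ≤ δ := by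
      rw [hq]
      exact Nat.div_mul_le_self δ m
    have hδq : δ + 1 ≤ (q + 1) * m := by
      have := Nat.lt_div_mul_add hm0 (a := δ)
      rw [← hq] at this
      have e : (q + 1) * m = q * m + m := by ring
      omega
    have hqw : q ≤ w := by
      have : q * 1 ≤ q * m := Nat.mul_le_mul_left q (by omega)
      omega
    rw [← hq]
    have hw1 : 1 ≤ w := by omega
    have hdrop := hh_drop m w q hw1 hqw
    refine le_trans ?_ hdrop
    have e0 : hh w (m : ℝ) = hh m (w : ℝ) := hh_symm w m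
    rw [e0]
    refine mul_le_mul_of_nonneg_left ?_ (hh_pos m (Nat.cast_nonneg w)).le
    unfold GP
    have hwR : (0 : ℝ) < w := by exact_mod_cast hw1
    have hmR : (4 : ℝ) ≤ m := by exact_mod_cast h4
    have hkey : phi (m - 1) ((δ : ℝ) / ((w : ℝ) + 1)) ≤ 2 * (1 + (m : ℝ) / w) ^ q - 1 := by
      rcases Nat.lt_or_ge (w + 1) ((q + 2) * m) with hA | hA
      · obtain ⟨w', hw'⟩ : ∃ w', w' + 1 = (q + 2) * m := ⟨(q + 2) * m - 1, by omega⟩
        have h5 := D5_q m w' q (by omega) hq2 hw'.ge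
        have hww : w ≤ w' := by omega
        have hwwR : (w : ℝ) ≤ w' := by exact_mod_cast hww
        have hw'R : (w' : ℝ) + 1 = ((q : ℝ) + 2) * m := by exact_mod_cast hw'
        have h6 : (δ : ℝ) / ((w : ℝ) + 1) ≤ (((q : ℝ) + 1) * m - 1) / ((w' : ℝ) + 1) := by
          have e1 : ((q : ℝ) + 1) * m - 1 = (w' : ℝ) - m := by
            have : ((q : ℝ) + 1) * m = ((q : ℝ) + 2) * m - m := by ring
            rw [this, ← hw'R]
            ring
          rw [e1, div_le_div_iff₀ (by positivity) (by positivity)]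
          have h7 : (δ : ℝ) + m ≤ w := by exact_mod_cast h2
          have h8 : (δ : ℝ) * ((w' : ℝ) + 1) ≤ ((w : ℝ) - m) * ((w' : ℝ) + 1) :=
            mul_le_mul_of_nonneg_right (by linarith) (by positivity)
          have h9 : ((w : ℝ) - m) * ((w' : ℝ) + 1) ≤ ((w' : ℝ) - m) * ((w : ℝ) + 1) := by
            nlinarith
          linarith
        have h10 : (((q : ℝ) + 1) * m - 1) / ((w' : ℝ) + 1) ≤ 1 := by
          rw [div_le_one (by positivity), hw'R]
          nlinarith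
        have h11 := phi_mono (m - 1) (by omega) _ _ h6 h10
        refine h11.trans (h5.trans ?_)
        have h12 : (1 + (m : ℝ) / w') ^ q ≤ (1 + (m : ℝ) / w) ^ q := by
          apply pow_le_pow_left₀ (by positivity)
          have : (m : ℝ) / w' ≤ (m : ℝ) / w := by
            apply div_le_div_of_nonneg_left (by positivity) hwR hwwR
          linarith
        linarith
      · have h5 := D5_q m w q (by omega) hq2 hA
        have hAR : ((q : ℝ) + 2) * m ≤ (w : ℝ) + 1 := by exact_mod_cast hA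
        have h6 : (δ : ℝ) / ((w : ℝ) + 1) ≤ (((q : ℝ) + 1) * m - 1) / ((w : ℝ) + 1) := by
          apply div_le_div_of_nonneg_right _ (by positivity)
          have : (δ : ℝ) + 1 ≤ ((q : ℝ) + 1) * m := by exact_mod_cast hδq
          linarith
        have h10 : (((q : ℝ) + 1) * m - 1) / ((w : ℝ) + 1) ≤ 1 := by
          rw [div_le_one (by positivity)]
          nlinarith
        exact (phi_mono (m - 1) (by omega) _ _ h6 h10).trans h5
    linarith

end Pool.Agent.LRF
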