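import Mathlib
import Pool.Agent.LRF.Defs

set_option autoImplicit false

namespace Pool.Agent.LRF

open Finset
open Pool.Agent.LRE Pool.Agent.LRT

/-- Row LRF-E0. Induction on `w` for the sum: `gq m e ≤ e/(m+1-a)` for `e ≤ a`, so
`Ph m d w ≤ (1/(m+1-a)) Σ_{p<w} (d (p+1)/(p+1)) PP d p`, and `PP d (p+1) - PP d p` is the summand
(`PP_succ`), so the sum is `PP d w - 1` (telescoping). -/
theorem Ph_PP (m a : ℕ) (d : ℕ → ℕ) (w : ℕ) (ha : a ≤ m) (h : ∀ p, p < w → d (p + 1) ≤ a) :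
    Ph m d w ≤ (PP d w - 1) / ((m : ℝ) + 1 - a) := by
  have hma : (0 : ℝ) < (m : ℝ) + 1 - a := by
    have : (a : ℝ) ≤ m := by exact_mod_cast ha
    linarith
  induction w with
  | zero => simp [Ph_zero, PP_zero]
  | succ w ih =>
    have ih' := ih (fun p hp => h p (by omega))
    rw [Ph_succ, PP_succ]
    have h1 : gq m (d (w + 1)) ≤ (d (w + 1) : ℝ) / ((m : ℝ) + 1 - a) := by
      unfold gq
      apply div_le_div_of_nonneg_left (Nat.cast_nonneg _) hma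
      have : (d (w + 1) : ℝ) ≤ a := by exact_mod_cast h w (Nat.lt_succ_self w)
      linarith
    have hP := (PP_pos d w).le
    have h2 : gq m (d (w + 1)) / ((w : ℝ) + 1) * PP d w ≤
        (d (w + 1) : ℝ) / ((m : ℝ) + 1 - a) / ((w : ℝ) + 1) * PP d w :=
      mul_le_mul_of_nonneg_right (div_le_div_of_nonneg_right h1 (by positivity)) hP
    have e : (PP d w * (1 + (d (w + 1) : ℝ) / ((w : ℝ) + 1)) - 1) / ((m : ℝ) + 1 - a) =
        (PP d w - 1) / ((m : ℝ) + 1 - a) +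
          (d (w + 1) : ℝ) / ((m : ℝ) + 1 - a) / ((w : ℝ) + 1) * PP d w := by
      field_simp
      ring
    rw [e]
    linarith

/-- Row LRF-E0. `PP d w = PP d (w-1) (1 + a/w)`, `PP d (w-1) ≤ w/(w - (δ - a))` (`PP_le`), so
`PP d w - 1 ≤ (w+a)/(w+a-δ) - 1`. (`w ≥ 1`; `SD d (w-1) = δ - a ≤ w - 1`.) -/
theorem PP_last (d : ℕ → ℕ) (hm : Monotone d) (w : ℕ) (hw : 1 ≤ w) (h1 : 1 ≤ d w)
    (h : SD d w ≤ w) :
    PP d w - 1 ≤ (SD d w : ℝ) / ((w : ℝ) + d w - SD d w) := by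
  obtain ⟨v, rfl⟩ : ∃ v, w = v + 1 := ⟨w - 1, by omega⟩
  have hS := SD_succ d v
  have h2 := PP_le d hm v (by omega)
  rw [PP_succ]
  have hSv : ((SD d v : ℕ) : ℝ) ≤ v := by
    have : SD d v ≤ v := by omega
    exact_mod_cast this
  have hSc : ((SD d (v + 1) : ℕ) : ℝ) = SD d v + d (v + 1) := by
    rw [hS]
    push_cast
    ring
  have hD : (0 : ℝ) < (v : ℝ) + 1 - SD d v := by linarith
  have e1 : ((v + 1 : ℕ) : ℝ) + d (v + 1) - SD d (v + 1) = (v : ℝ) + 1 - SD d v := by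
    rw [hSc]
    push_cast
    ring
  rw [e1, hSc]
  have h3 : (0 : ℝ) ≤ 1 + (d (v + 1) : ℝ) / ((v : ℝ) + 1) := by positivity
  have h4 := mul_le_mul_of_nonneg_right h2 h3
  have e2 : ((v : ℝ) + 1) / ((v : ℝ) + 1 - SD d v) * (1 + (d (v + 1) : ℝ) / ((v : ℝ) + 1)) =
      1 + ((SD d v : ℝ) + d (v + 1)) / ((v : ℝ) + 1 - SD d v) := by
    have h5 : (v : ℝ) + 1 ≠ 0 := by positivity
    field_simp
    ring
  rw [e2] at h4
  linarith

end Pool.Agent.LRF
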