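import Mathlib
import Pool.Agent.LRF.E0

set_option autoImplicit false

namespace Pool.Agent.LRF

open Finset
open Pool.Agent.LRE Pool.Agent.LRT

/-- Row LRF-E1a. `gq m (ρ+1) = (ρ+1)/(m-ρ)`, `gq m ρ = ρ/(m+1-ρ)`. With `ρ = 1 + t`,
`m = ρ + 2 + s`, `w = 3m - 2 + v` and all denominators cleared, ALL COEFFICIENTS of the difference
in `t, s, v` are positive (checked). -/
theorem e1_A (m ρ w : ℝ) (h1 : 1 ≤ ρ) (h2 : ρ + 2 ≤ m) (h3 : 3 * m ≤ w + 2) :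
    (ρ + 1) / (m - ρ) / (w - 1) + (m - 1) / 2 / (w - ρ - 1) ≤ (m + ρ / (m + 1 - ρ)) / w := by
  obtain ⟨t, rfl⟩ : ∃ t, ρ = 1 + t := ⟨ρ - 1, by ring⟩
  obtain ⟨s, rfl⟩ : ∃ s, m = 1 + t + 2 + s := ⟨m - (1 + t + 2), by ring⟩
  obtain ⟨v, rfl⟩ : ∃ v, w = 3 * (1 + t + 2 + s) - 2 + v := ⟨w - (3 * (1 + t + 2 + s) - 2), by ring⟩
  have ht : 0 ≤ t := by linarith
  have hs : 0 ≤ s := by linarith
  have hv : 0 ≤ v := by linarith
  have e1 : (1 + t + 1) / (1 + t + 2 + s - (1 + t)) / (3 * (1 + t + 2 + s) - 2 + v - 1) +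
      (1 + t + 2 + s - 1) / 2 / (3 * (1 + t + 2 + s) - 2 + v - (1 + t) - 1) =
      ((t + 2) * (2 * (5 + 2 * t + 3 * s + v)) + (2 + t + s) * ((2 + s) * (6 + 3 * t + 3 * s + v))) /
        ((2 + s) * (6 + 3 * t + 3 * s + v) * (2 * (5 + 2 * t + 3 * s + v))) := by
    have d1 : 1 + t + 2 + s - (1 + t) = 2 + s := by ring
    have d2 : 3 * (1 + t + 2 + s) - 2 + v - 1 = 6 + 3 * t + 3 * s + v := by ring
    have d3 : 3 * (1 + t + 2 + s) - 2 + v - (1 + t) - 1 = 5 + 2 * t + 3 * s + v := by ring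
    have d4 : 1 + t + 2 + s - 1 = 2 + t + s := by ring
    rw [d1, d2, d3, d4, div_div, div_div, div_add_div _ _ (by positivity) (by positivity)]
    congr 1
    ring
  have e2 : (1 + t + 2 + s + (1 + t) / (1 + t + 2 + s + 1 - (1 + t))) /
      (3 * (1 + t + 2 + s) - 2 + v) =
      ((3 + t + s) * (3 + s) + (1 + t)) / ((3 + s) * (7 + 3 * t + 3 * s + v)) := by
    have d1 : 1 + t + 2 + s + 1 - (1 + t) = 3 + s := by ring
    have d2 : 3 * (1 + t + 2 + s) - 2 + v = 7 + 3 * t + 3 * s + v := by ring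
    have d3 : 1 + t + 2 + s = 3 + t + s := by ring
    rw [d1, d2, d3]
    have h3 : (3 : ℝ) + s ≠ 0 := by positivity
    have h4 : (7 : ℝ) + 3 * t + 3 * s + v ≠ 0 := by positivity
    field_simp
  rw [e1, e2, div_le_div_iff₀ (by positivity) (by positivity), ← sub_nonneg]
  ring_nf
  positivity

theorem E1_poly1 (m ρ w : ℝ) (h1 : 1 ≤ ρ) (h2 : ρ + 2 ≤ m) (h3 : 3 * m ≤ w + 2) :
    (m + ρ) * w * (m + 1 - ρ) ≤ 3 * (m * (m + 1 - ρ) + ρ) * (w - 2 - ρ) := by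
  obtain ⟨t, rfl⟩ : ∃ t, ρ = 1 + t := ⟨ρ - 1, by ring⟩
  obtain ⟨s, rfl⟩ : ∃ s, m = 1 + t + 2 + s := ⟨m - (1 + t + 2), by ring⟩
  obtain ⟨v, rfl⟩ : ∃ v, w = 3 * (1 + t + 2 + s) - 2 + v := ⟨w - (3 * (1 + t + 2 + s) - 2), by ring⟩
  have ht : 0 ≤ t := by linarith
  have hs : 0 ≤ s := by linarith
  have hv : 0 ≤ v := by linarith
  rw [← sub_nonneg]
  ring_nf
  positivity

theorem E1_poly2 (m w : ℝ) (hm : 3 ≤ m) (h3 : 3 * m ≤ w + 1) :
    (m + (m - 1)) * w * (m + 1 - (m - 1)) ≤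
      3 * (m * (m + 1 - (m - 1)) + (m - 1)) * (w - 2 - (m - 1)) := by
  obtain ⟨s, rfl⟩ : ∃ s, m = 3 + s := ⟨m - 3, by ring⟩
  obtain ⟨v, rfl⟩ : ∃ v, w = 3 * (3 + s) - 1 + v := ⟨w - (3 * (3 + s) - 1), by ring⟩
  have hs : 0 ≤ s := by linarith
  have hv : 0 ≤ v := by linarith
  rw [← sub_nonneg]
  ring_nf
  positivity

/-- Row LRF-E1b. The function `f(a) = (m+1-a)(w+a-δ)`, `δ = m + ρ`, is concave, so it is enough to
have the claim for `a = 1` and `a = m - 2` (`(m-3) f(a) ≥ (m-2-a) f(1) + (a-1) f(m-2)`; for `m = 3`,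
`a = 1`); i.e. `(m+ρ) w ≤ (m + ρ/(m+1-ρ)) f(1)` and `≤ (m + ρ/(m+1-ρ)) f(m-2)`. For `ρ ≤ m - 2`
put `ρ = 1 + t`, `m = ρ + 2 + s`, `w = 3m - 2 + v`; for `ρ = m - 1` put `m = 3 + s`,
`w = 3m - 1 + v`: ALL COEFFICIENTS of the differences are positive (checked, all four). -/
theorem e1_B (m ρ a w : ℝ) (hm : 3 ≤ m) (h1 : 1 ≤ ρ) (ha : 1 ≤ a) (ha2 : a ≤ m - 2)
    (h : (ρ + 2 ≤ m ∧ 3 * m ≤ w + 2) ∨ (ρ = m - 1 ∧ 3 * m ≤ w + 1)) :
    (m + ρ) / (w + a - (m + ρ)) / (m + 1 - a) ≤ (m + ρ / (m + 1 - ρ)) / w := by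
  have hρm : ρ + 1 ≤ m := by
    rcases h with ⟨h2, h3⟩ | ⟨h2, h3⟩ <;> linarith
  have hwδ : m + (m + ρ) ≤ w := by
    rcases h with ⟨h2, h3⟩ | ⟨h2, h3⟩ <;> linarith
  have hw0 : 0 < w := by linarith
  have hd1 : 0 < w + a - (m + ρ) := by linarith
  have hd2 : 0 < m + 1 - a := by linarith
  have hd3 : 0 < m + 1 - ρ := by linarith
  have hC : m + ρ / (m + 1 - ρ) = (m * (m + 1 - ρ) + ρ) / (m + 1 - ρ) := by
    field_simp
  have hkey : (m + ρ) * w * (m + 1 - ρ) ≤ 3 * (m * (m + 1 - ρ) + ρ) * (w - 2 - ρ) := by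
    rcases h with ⟨h2, h3⟩ | ⟨h2, h3⟩
    · exact E1_poly1 m ρ w h1 h2 h3
    · rw [h2]
      exact E1_poly2 m w hm h3
  have hf : 3 * (w - 2 - ρ) ≤ (m + 1 - a) * (w + a - (m + ρ)) := by
    have h5 : 0 ≤ (m - 2 - a) * (w - (m + ρ) + a - 3) :=
      mul_nonneg (by linarith) (by linarith)
    nlinarith
  have hnum : 0 ≤ m * (m + 1 - ρ) + ρ := by
    have : 0 ≤ m * (m + 1 - ρ) := mul_nonneg (by linarith) hd3.le
    linarith
  rw [hC, div_div, div_div, div_le_div_iff₀ (by positivity) (by positivity)]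
  have h6 := mul_le_mul_of_nonneg_left hf hnum
  nlinarith

theorem E1_Ph (m ρ w : ℕ) (d : ℕ → ℕ) (hm : 3 ≤ m) (hdm : Monotone d)
    (hdlt : ∀ p, p < w → d (p + 1) + 1 ≤ m) (hSD : SD d w = m + ρ) (hρ1 : 1 ≤ ρ) (hρ2 : ρ + 1 ≤ m)
    (hδw : m + ρ + m ≤ w) (hw : 3 * m ≤ w + 2) : Ph m d w ≤ ((m : ℝ) + gq m ρ) / w := by
  have hmR : (3 : ℝ) ≤ m := by exact_mod_cast hm
  have hρR : (1 : ℝ) ≤ ρ := by exact_mod_cast hρ1
  have hρR2 : (ρ : ℝ) + 1 ≤ m := by exact_mod_cast hρ2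
  have hwR : 3 * (m : ℝ) ≤ (w : ℝ) + 2 := by exact_mod_cast hw
  have hδR : (m : ℝ) + ρ + m ≤ w := by exact_mod_cast hδw
  have hw0 : (0 : ℝ) < w := by linarith
  obtain ⟨v, rfl⟩ : ∃ v, w = v + 1 := ⟨w - 1, by omega⟩
  have ha1 : 1 ≤ d (v + 1) := by
    by_contra hcon
    have h0 : d (v + 1) = 0 := by omega
    have h1 : SD d (v + 1) = 0 := by
      unfold SD
      apply sum_eq_zero
      intro p hp
      rw [mem_range] at hp
      have h2 : d (p + 1) ≤ d (v + 1) := hdm (by omega)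
      omega
    omega
  have ham := hdlt v (by omega)
  have hall : ∀ p, p < v + 1 → d (p + 1) ≤ d (v + 1) := fun p hp => hdm (by omega)
  have hlast := PP_last d hdm (v + 1) (by omega) ha1 (by omega)
  rw [hSD] at hlast
  have hPh := Ph_PP m (d (v + 1)) d (v + 1) (by omega) hall
  have hgq : gq m ρ = (ρ : ℝ) / ((m : ℝ) + 1 - ρ) := rfl
  rw [hgq]
  rcases Nat.lt_or_ge (d (v + 1) + 1) m with hc | hc
  · -- `a ≤ m - 2`
    have haR : (d (v + 1) : ℝ) + 2 ≤ m := by exact_mod_cast hc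
    have ha1R : (1 : ℝ) ≤ (d (v + 1) : ℝ) := by exact_mod_cast ha1
    have hB := e1_B m ρ (d (v + 1)) ((v + 1 : ℕ) : ℝ) hmR hρR ha1R (by linarith) (by
      rcases Nat.lt_or_ge (ρ + 1) m with h5 | h5
      · left
        refine ⟨?_, hwR⟩
        exact_mod_cast h5
      · right
        have h6 : (m : ℝ) ≤ (ρ : ℝ) + 1 := by exact_mod_cast h5
        constructor
        · linarith
        · linarith)
    refine hPh.trans (le_trans ?_ hB)
    have hden : (0 : ℝ) < (m : ℝ) + 1 - d (v + 1) := by linarith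
    refine div_le_div_of_nonneg_right ?_ hden.le
    push_cast at hlast ⊢
    exact hlast
  · have ha : d (v + 1) = m - 1 := by omega
    have haR : (d (v + 1) : ℝ) = (m : ℝ) - 1 := by
      rw [ha, Nat.cast_sub (by omega), Nat.cast_one]
    rcases Nat.lt_or_ge (ρ + 1) m with h5 | h5
    · -- `ρ ≤ m - 2`
      have h6 : (ρ : ℝ) + 2 ≤ m := by exact_mod_cast h5
      have hS := SD_succ d v
      have hSv : SD d v = ρ + 1 := by omega
      have h8 := Ph_T1b m d hdm v (by omega) (by omega) (by omega)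
      have h9 := PP_le d hdm v (by omega)
      rw [hSv] at h8 h9
      rw [Ph_succ]
      have hgq2 : gq m (d (v + 1)) = ((m : ℝ) - 1) / 2 := by
        unfold gq
        rw [haR]
        congr 1
        ring
      rw [hgq2]
      have hA := e1_A m ρ ((v + 1 : ℕ) : ℝ) hρR h6 hwR
      refine le_trans ?_ hA
      push_cast at h8 h9 hδR ⊢
      have hv0 : (0 : ℝ) < v := by linarith
      have hmρ : (0 : ℝ) < (m : ℝ) - ρ := by linarith
      have hvρ : (0 : ℝ) < (v : ℝ) + 1 - (ρ + 1) := by linarith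
      have h10 : (ρ + 1 : ℝ) / ((v : ℝ) * ((m : ℝ) + 1 - (ρ + 1))) =
          ((ρ : ℝ) + 1) / ((m : ℝ) - ρ) / ((v : ℝ) + 1 - 1) := by
        rw [div_div]
        congr 1
        ring
      rw [h10] at h8
      have h11 : ((m : ℝ) - 1) / 2 / ((v : ℝ) + 1) * PP d v ≤
          ((m : ℝ) - 1) / 2 / ((v : ℝ) + 1 - ρ - 1) := by
        have h12 : 0 ≤ ((m : ℝ) - 1) / 2 / ((v : ℝ) + 1) := by
          have : 0 ≤ (m : ℝ) - 1 := by linarith
          positivity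
        refine (mul_le_mul_of_nonneg_left h9 h12).trans (le_of_eq ?_)
        have e : (v : ℝ) + 1 - ρ - 1 = (v : ℝ) + 1 - (ρ + 1) := by ring
        rw [e]
        field_simp
      linarith
    · -- `ρ = m - 1`
      have h6 : (ρ : ℝ) = (m : ℝ) - 1 := by
        have : (m : ℝ) ≤ (ρ : ℝ) + 1 := by exact_mod_cast h5
        linarith
      rw [haR] at hPh hlast
      rw [h6] at hδR
      have h13 : (((m + ρ : ℕ) : ℝ)) = 2 * m - 1 := by
        push_cast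
        linarith
      rw [h13] at hlast
      have hwm : (0 : ℝ) < ((v + 1 : ℕ) : ℝ) - m := by linarith
      have h14 : PP d (v + 1) - 1 ≤ (2 * (m : ℝ) - 1) / (((v + 1 : ℕ) : ℝ) - m) := by
        refine hlast.trans (le_of_eq ?_)
        congr 1
        ring
      have h15 : (m : ℝ) + 1 - ((m : ℝ) - 1) = 2 := by ring
      rw [h15] at hPh
      rw [h6, h15]
      refine hPh.trans ?_
      refine (div_le_div_of_nonneg_right h14 (by norm_num)).trans ?_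
      rw [div_div, div_le_div_iff₀ (by positivity) hw0]
      nlinarith

/-- Row LRF-E1c. `w = ω.sup`, `d = dd ω` (`dd_mono`), `d (p+1) + 1 ≤ m` for `p < w` (`dd_lt`),
`SD d w = δ` (`SD_dd`), and `PB`: `psi ω ≤ hh w m (1 + Ph m d w)` — see the beginning of the proof of
`exact_m` (LRT/F4.lean).
`δ ≤ m`: `Ph_T1b`, `NN_T1b` as there (`m < w`).
`δ = m + ρ`, `1 ≤ ρ ≤ m - 1`: by `NN_c1` it is enough that `Ph m d w ≤ (m + gq m ρ)/w`. `a = d w ≥ 1`.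
* `a ≤ m - 2`: `Ph_PP m a`, `PP_last`, `e1_B` (if `ρ = m-1` then `w ≥ δ + m = 3m - 1`).
* `a = m - 1`, `ρ = m - 1`: `Ph_PP m (m-1)`, `PP_last`: `Ph ≤ (2m-1)/(w-m)/2 ≤ (m + (m-1)/2)/w`, as
  `w ≥ 3m - 1`.
* `a = m - 1`, `ρ ≤ m - 2`: `SD d (w-1) = ρ + 1`; `Ph_succ`, `Ph_T1b m d _ (w-1)`,
  `PP d (w-1) ≤ w/(w-(ρ+1))` (`PP_le`), `gq m (m-1) = (m-1)/2`; `e1_A`. -/
theorem exact3 (m δ : ℕ) (ω : Multiset ℕ) (hm : 3 ≤ m) (hc : ω.card = m)
    (hδ : ω.sum + δ = m * ω.sup) (hδw : δ + m ≤ ω.sup) (hδ2 : δ < 2 * m) (hw : 3 * m ≤ ω.sup + 2) :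
    psi ω ≤ NN m ω.sum := by
  have hne : ω ≠ 0 := by
    rintro rfl
    rw [Multiset.card_zero] at hc
    omega
  have h1 := PB ω ω.sup (fun x hx => Multiset.le_sup hx)
  have h2 := SD_dd ω ω.sup (fun x hx => Multiset.le_sup hx)
  have h3 : SD (dd ω) ω.sup = δ := by rw [hc] at h2; omega
  have hh0 : 0 < hh ω.sup (m : ℝ) := hh_pos _ (Nat.cast_nonneg _)
  have hk : ω.sum = m * ω.sup - δ := by omega
  have hdlt : ∀ p, p < ω.sup → dd ω (p + 1) + 1 ≤ m := by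
    intro p hp
    have := dd_lt ω hne (p + 1) (by omega)
    omega
  rw [hc] at h1
  have hdm := dd_mono ω
  rcases Nat.lt_or_ge m δ with hd1 | hd1
  swap
  · have h4 := Ph_T1b m (dd ω) hdm ω.sup (by omega) (by omega) (by omega)
    have h5 := NN_T1b m ω.sup δ (by omega) hd1 (by omega)
    rw [hk]
    refine le_trans h1 (le_trans ?_ h5)
    rw [h3] at h4
    exact mul_le_mul_of_nonneg_left (by linarith) hh0.le
  obtain ⟨ρ, rfl⟩ : ∃ ρ, δ = m + ρ := ⟨δ - m, by omega⟩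
  have h7 := NN_c1 m ω.sup ρ (by omega) (by omega)
  rw [hk]
  refine le_trans h1 (le_trans ?_ h7)
  refine mul_le_mul_of_nonneg_left ?_ hh0.le
  have hgoal : Ph m (dd ω) ω.sup ≤ ((m : ℝ) + gq m ρ) / ω.sup := by
    generalize hd : dd ω = d at *
    generalize hwd : ω.sup = w at *
    exact E1_Ph m ρ w d hm hdm hdlt h3 (by omega) (by omega) hδw hw
  linarith

end Pool.Agent.LRF
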