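import Mathlib
import Pool.Agent.LRF.E1
import Pool.Agent.LRT.J1

set_option autoImplicit false

namespace Pool.Agent.LRF

open Finset
open Pool.Agent.LRE Pool.Agent.LRT

/-- Row LRF-E2a. Family `p = 1`. With `b = 2 + t`, `r = b + 1 + s`, `w = 3r + 1 + v` and all
denominators cleared, ALL COEFFICIENTS of the difference are positive (checked). -/
theorem e2_A (r b w : ℝ) (hb : 2 ≤ b) (hbr : b + 1 ≤ r) (hw : 3 * r + 1 ≤ w) :
    (1 + b / (r + 1 - b) / (w - 1)) * (1 + r / w / 2) ≤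
      1 + (r + 1 + (b - 1) / (r + 3 - b)) / w := by
  obtain ⟨t, rfl⟩ : ∃ t, b = 2 + t := ⟨b - 2, by ring⟩
  obtain ⟨s, rfl⟩ : ∃ s, r = 2 + t + 1 + s := ⟨r - (2 + t + 1), by ring⟩
  obtain ⟨v, rfl⟩ : ∃ v, w = 3 * (2 + t + 1 + s) + 1 + v := ⟨w - (3 * (2 + t + 1 + s) + 1), by ring⟩
  have ht : 0 ≤ t := by linarith
  have hs : 0 ≤ s := by linarith
  have hv : 0 ≤ v := by linarith
  have d1 : 2 + t + 1 + s + 1 - (2 + t) = s + 2 := by ring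
  have d2 : 2 + t + 1 + s + 3 - (2 + t) = s + 4 := by ring
  have d3 : 3 * (2 + t + 1 + s) + 1 + v - 1 = 3 * t + 3 * s + v + 9 := by ring
  have d4 : 3 * (2 + t + 1 + s) + 1 + v = 3 * t + 3 * s + v + 10 := by ring
  rw [d1, d2, d3, d4, ← sub_nonneg]
  have e : 1 + (2 + t + 1 + s + 1 + (2 + t - 1) / (s + 4)) / (3 * t + 3 * s + v + 10) -
      (1 + (2 + t) / (s + 2) / (3 * t + 3 * s + v + 9)) *
        (1 + (2 + t + 1 + s) / (3 * t + 3 * s + v + 10) / 2) =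
      (3 * t ^ 2 * s ^ 2 + 17 * t ^ 2 * s + 8 * t ^ 2 + 6 * t * s ^ 3 + 1 * t * s ^ 2 * v + 59 *
      t * s ^ 2 + 6 * t * s * v + 163 * t * s + 4 * t * v + 92 * t + 3 * s ^ 4 + 1 * s ^ 3 * v +
      42 * s ^ 3 + 11 * s ^ 2 * v + 205 * s ^ 2 + 36 * s * v + 390 * s + 28 * v + 212) /
        ((3 * t + 3 * s + 1 * v + 10) * (1 * s + 4) * (1 * s + 2) * (3 * t + 3 * s + 1 * v + 9) * (2)) := by
    field_simp
    ring
  rw [e]
  positivity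

/-- Row LRF-E2b. Family `p = 2`, `b = 2`, `f = 0`. `r = 3 + s`, `w = 3r + 4 + v`: ALL COEFFICIENTS
positive (checked). -/
theorem e2_B (r w : ℝ) (hr : 3 ≤ r) (hw : 3 * r + 4 ≤ w) :
    (1 + 2 / (r - 1) / (w - 2)) * (1 + ((1 + r / (w - 1)) * (1 + r / w) - 1) / 3) ≤
      1 + (r + 2 + r / 3) / w := by
  obtain ⟨s, rfl⟩ : ∃ s, r = 3 + s := ⟨r - 3, by ring⟩
  obtain ⟨v, rfl⟩ : ∃ v, w = 3 * (3 + s) + 4 + v := ⟨w - (3 * (3 + s) + 4), by ring⟩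
  have hs : 0 ≤ s := by linarith
  have hv : 0 ≤ v := by linarith
  have d1 : 3 + s - 1 = s + 2 := by ring
  have d2 : 3 * (3 + s) + 4 + v - 2 = 3 * s + v + 11 := by ring
  have d3 : 3 * (3 + s) + 4 + v - 1 = 3 * s + v + 12 := by ring
  have d4 : 3 * (3 + s) + 4 + v = 3 * s + v + 13 := by ring
  rw [d1, d2, d3, d4, ← sub_nonneg]
  have e : 1 + (3 + s + 2 + (3 + s) / 3) / (3 * s + v + 13) -
      (1 + 2 / (s + 2) / (3 * s + v + 11)) *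
        (1 + ((1 + (3 + s) / (3 * s + v + 12)) * (1 + (3 + s) / (3 * s + v + 13)) - 1) / 3) =
      (15 * s ^ 4 + 11 * s ^ 3 * v + 244 * s ^ 3 + 2 * s ^ 2 * v ^ 2 + 133 * s ^ 2 * v + 1339 * s
      ^ 2 + 16 * s * v ^ 2 + 446 * s * v + 2862 * s + 18 * v ^ 2 + 366 * v + 1800) /
        ((3) * (3 * s + 1 * v + 13) * (1 * s + 2) * (3 * s + 1 * v + 11) * (3 * s + 1 * v + 12)) := by
    field_simp
    ring
  rw [e]
  positivity

/-- Row LRF-E2c. Family `p = 2`, `b = 2`, `f = 1`. `r = 3 + s`, `w = 3r + 5 + v`: ALL COEFFICIENTS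
positive (checked). -/
theorem e2_C (r w : ℝ) (hr : 3 ≤ r) (hw : 3 * r + 5 ≤ w) :
    (1 + 2 / (r - 1) / (w - 2)) * (1 + ((1 + r / (w - 1)) * (1 + (r + 1) / w) - 1) / 2) ≤
      1 + (r + 2 + (r + 1) / 2) / w := by
  obtain ⟨s, rfl⟩ : ∃ s, r = 3 + s := ⟨r - 3, by ring⟩
  obtain ⟨v, rfl⟩ : ∃ v, w = 3 * (3 + s) + 5 + v := ⟨w - (3 * (3 + s) + 5), by ring⟩
  have hs : 0 ≤ s := by linarith
  have hv : 0 ≤ v := by linarith
  have d1 : 3 + s - 1 = s + 2 := by ring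
  have d2 : 3 * (3 + s) + 5 + v - 2 = 3 * s + v + 12 := by ring
  have d3 : 3 * (3 + s) + 5 + v - 1 = 3 * s + v + 13 := by ring
  have d4 : 3 * (3 + s) + 5 + v = 3 * s + v + 14 := by ring
  rw [d1, d2, d3, d4, ← sub_nonneg]
  have e : 1 + (3 + s + 2 + (3 + s + 1) / 2) / (3 * s + v + 14) -
      (1 + 2 / (s + 2) / (3 * s + v + 12)) *
        (1 + ((1 + (3 + s) / (3 * s + v + 13)) * (1 + (3 + s + 1) / (3 * s + v + 14)) - 1) / 2) =
      (6 * s ^ 4 + 5 * s ^ 3 * v + 114 * s ^ 3 + 1 * s ^ 2 * v ^ 2 + 69 * s ^ 2 * v + 694 * s ^ 2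
      + 9 * s * v ^ 2 + 250 * s * v + 1558 * s + 10 * v ^ 2 + 198 * v + 884) /
        ((2) * (3 * s + 1 * v + 14) * (1 * s + 2) * (3 * s + 1 * v + 12) * (3 * s + 1 * v + 13)) := by
    field_simp
    ring
  rw [e]
  positivity

/-- Row LRF-E2d. Family `p = 2`, `b = 3`, `f = 0`. `r = 4 + s`, `w = 3r + 5 + v`: ALL COEFFICIENTS
positive (checked). -/
theorem e2_D (r w : ℝ) (hr : 4 ≤ r) (hw : 3 * r + 5 ≤ w) :
    (1 + 3 / (r - 2) / (w - 2)) * (1 + ((1 + r / (w - 1)) * (1 + r / w) - 1) / 3) ≤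
      1 + (r + 2 + (r + 1) / 2) / w := by
  obtain ⟨s, rfl⟩ : ∃ s, r = 4 + s := ⟨r - 4, by ring⟩
  obtain ⟨v, rfl⟩ : ∃ v, w = 3 * (4 + s) + 5 + v := ⟨w - (3 * (4 + s) + 5), by ring⟩
  have hs : 0 ≤ s := by linarith
  have hv : 0 ≤ v := by linarith
  have d1 : 4 + s - 2 = s + 2 := by ring
  have d2 : 3 * (4 + s) + 5 + v - 2 = 3 * s + v + 15 := by ring
  have d3 : 3 * (4 + s) + 5 + v - 1 = 3 * s + v + 16 := by ring
  have d4 : 3 * (4 + s) + 5 + v = 3 * s + v + 17 := by ring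
  rw [d1, d2, d3, d4, ← sub_nonneg]
  have e : 1 + (4 + s + 2 + (4 + s + 1) / 2) / (3 * s + v + 17) -
      (1 + 3 / (s + 2) / (3 * s + v + 15)) *
        (1 + ((1 + (4 + s) / (3 * s + v + 16)) * (1 + (4 + s) / (3 * s + v + 17)) - 1) / 3) =
      (39 * s ^ 4 + 28 * s ^ 3 * v + 774 * s ^ 3 + 5 * s ^ 2 * v ^ 2 + 403 * s ^ 2 * v + 5253 * s
      ^ 2 + 45 * s * v ^ 2 + 1619 * s * v + 13758 * s + 52 * v ^ 2 + 1448 * v + 9816) /
        ((3 * s + 1 * v + 17) * (2) * (1 * s + 2) * (3 * s + 1 * v + 15) * (3 * s + 1 * v + 16) * (3)) := by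
    field_simp
    ring
  rw [e]
  positivity

/-- Row LRF-E2e. Family `p = 3`. `w = 17 + v`: ALL COEFFICIENTS positive (checked). -/
theorem e2_E (w : ℝ) (hw : 17 ≤ w) :
    (1 + 1 / (w - 3)) * (1 + ((1 + 3 / (w - 2)) * (1 + 3 / (w - 1)) * (1 + 3 / w) - 1) / 4) ≤
      1 + (6 + 5 / 2) / w := by
  obtain ⟨v, rfl⟩ : ∃ v, w = 17 + v := ⟨w - 17, by ring⟩
  have hv : 0 ≤ v := by linarith
  have d1 : 17 + v - 3 = v + 14 := by ring
  have d2 : 17 + v - 2 = v + 15 := by ring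
  have d3 : 17 + v - 1 = v + 16 := by ring
  have d4 : 17 + v = v + 17 := by ring
  rw [d1, d2, d3, d4, ← sub_nonneg]
  have e : 1 + (6 + 5 / 2) / (v + 17) -
      (1 + 1 / (v + 14)) * (1 + ((1 + 3 / (v + 15)) * (1 + 3 / (v + 16)) * (1 + 3 / (v + 17)) - 1) / 4) =
      (42 * v ^ 3 + 1776 * v ^ 2 + 24726 * v + 113040) /
        ((1 * v + 17) * (2) * (1 * v + 14) * (1 * v + 15) * (1 * v + 16) * (4)) := by
    field_simp
    ring
  rw [e]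
  positivity

end Pool.Agent.LRF
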