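import Mathlib
import Pool.Agent.LRF.E2

set_option autoImplicit false

namespace Pool.Agent.LRF

open Finset
open Pool.Agent.LRE Pool.Agent.LRT

theorem E3_zero (d : ℕ → ℕ) (n : ℕ) (h : ∀ p, p < n → d (p + 1) = 0) : SD d n = 0 ∧ PP d n = 1 := by
  induction n with
  | zero => exact ⟨SD_zero d, PP_zero d⟩
  | succ n ih =>
    obtain ⟨h1, h2⟩ := ih fun p hp => h p (by omega)
    rw [SD_succ, PP_succ, h1, h2, h n (Nat.lt_succ_self n)]
    refine ⟨rfl, ?_⟩
    simp

theorem E3_dd_zero (L r : ℕ) (ν : Multiset ℕ) (hν : ∀ x ∈ ν, L ≤ x) (q : ℕ) (hq : q ≤ L) :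
    dd (ν + Multiset.replicate r L) q = 0 := by
  unfold dd
  rw [Multiset.countP_eq_zero]
  intro x hx
  rcases Multiset.mem_add.1 hx with h | h
  · have := hν x h
    omega
  · rw [Multiset.eq_of_mem_replicate h]
    omega

theorem E3_dd_ge (L r : ℕ) (ν : Multiset ℕ) (q : ℕ) (hq : L < q) :
    r ≤ dd (ν + Multiset.replicate r L) q := by
  unfold dd
  rw [Multiset.countP_add]
  have h : Multiset.countP (fun x => x < q) (Multiset.replicate r L) = r := by
    have h1 : Multiset.countP (fun x => x < q) (Multiset.replicate r L) =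
        (Multiset.replicate r L).card := by
      rw [Multiset.countP_eq_card]
      intro x hx
      rw [Multiset.eq_of_mem_replicate hx]
      exact hq
    rw [h1, Multiset.card_replicate]
  omega

/-- Row LRF-E3. Adapt the proof of `Pool.Agent.LRT.tail_small` (LRT/J1.lean) (the same statement for
`w ≥ 30 (m-1)`). `b ≤ 1`: `dom_near` (as there) and `exact3`. `b ≥ 2`: `dom` gives
`psi (ν+τ) ≤ (1 + gq r b/L) psi ω`, `ω = ν + L^r`, `ω.card = m`, `ω.sup = w`, and by `NN_c1`
(`δ = m + ρ`) it is enough that `(1 + gq r b/L)(1 + Ph m (dd ω) w) ≤ 1 + (m + gq m ρ)/w` (as there).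
`w = L + e`, `e ≥ p = ν.card`, and `r e + b ≤ δ < 2m = 2r + 2p` leaves (as there) `p = 1, e = 1`;
`p = 2, e = 2, b ≤ 3`; `p = 3, r = 3, e = 3, b = 2`. `SD (dd ω) w = δ - b`.
`Ph_PP` with `a = dd ω w`: `Ph ≤ (PP (dd ω) w - 1)/(m+1-a)`; `dd ω (p+1) = 0` for `p + 1 ≤ L`.
* `p = 1`: `m = r + 1`, `dd ω w = r` (`= SD - 0`), `PP = 1 + r/w`, `ρ = b - 1`, `e2_A`
  (`w ≥ 3m - 2 = 3r + 1`).
* `p = 2`: `m = r + 2`; `f = δ - 2r - b ≤ 1`; `dd ω (w-1) ≥ r`, `dd ω w ≥ dd ω (w-1)`,
  `dd ω (w-1) + dd ω w = 2r + f`, so `dd ω (w-1) = r`, `dd ω w = r + f`;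
  `PP = (1 + r/(w-1))(1 + (r+f)/w)`, `ρ = r + b + f - 2`, `m + 1 - a = 3 - f`,
  `(b,f) = (2,0), (2,1), (3,0)`: `e2_B`, `e2_C`, `e2_D` (`w ≥ 3m - 2`, `w ≥ δ + m`).
* `p = 3`: `m = 6`, `δ = 11`, `dd ω (w-2) = dd ω (w-1) = dd ω w = 3`, `ρ = 5`, `w ≥ δ + m = 17`,
  `gq 3 2 = 1`, `gq 6 5 = 5/2`, `e2_E`. -/
theorem tail_small3 (m w L b δ r : ℕ) (ν τ : Multiset ℕ) (hm : ν.card + r = m) (hr : 2 ≤ r)
    (hp : 1 ≤ ν.card) (hw : 3 * m ≤ w + 2) (hδm : δ + m ≤ w) (hL : 1 ≤ L) (hν : ∀ x ∈ ν, L ≤ x)
    (hsup : ν.sup = w) (hLw : L + ν.card ≤ w) (hτ : ∀ x ∈ τ, x ≤ L)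
    (hK : τ.sum + b = r * L) (hb : b < r) (hδ : (ν + τ).sum + δ = m * w) (hδ2 : δ < 2 * m)
    (h : psi τ ≤ NN r τ.sum) :
    psi (ν + τ) ≤ NN m (ν + τ).sum := by
  have hKe : τ.sum = r * L - b := by omega
  have hm3 : 3 ≤ m := by omega
  rw [Multiset.sum_add] at hδ
  by_cases hb1 : b ≤ 1
  · rw [hKe, NN_one r L b hr hL hb1] at h
    have h1 := dom_near L (r - 1) (L - b) ν τ 1 hL le_rfl (by omega) hν hτ (by rwa [one_mul])
    rw [one_mul] at h1
    set ω := ν + (Multiset.replicate (r - 1) L + {L - b}) with hω
    have hsum : ω.sum = (ν + τ).sum := by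
      rw [hω, Multiset.sum_add, Multiset.sum_add, Multiset.sum_add, Multiset.sum_replicate,
        Multiset.sum_singleton, hKe, smul_eq_mul]
      obtain ⟨q, rfl⟩ : ∃ q, r = q + 1 := ⟨r - 1, by omega⟩
      rw [Nat.add_sub_cancel, Nat.succ_mul]
      omega
    have hωs : ω.sup = w := by
      apply le_antisymm
      · rw [Multiset.sup_le]
        intro x hx
        rcases Multiset.mem_add.1 hx with h2 | h2
        · rw [← hsup]
          exact Multiset.le_sup h2
        · rcases Multiset.mem_add.1 h2 with h3 | h3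
          · rw [Multiset.eq_of_mem_replicate h3]
            omega
          · rw [Multiset.mem_singleton.1 h3]
            omega
      · rw [← hsup, hω, Multiset.sup_add]
        exact le_sup_left
    have hωc : ω.card = m := by
      rw [hω, Multiset.card_add, Multiset.card_add, Multiset.card_replicate,
        Multiset.card_singleton]
      omega
    have h2 := exact3 m δ ω hm3 hωc
      (by rw [hsum, hωs, Multiset.sum_add]; exact hδ) (by rw [hωs]; exact hδm) hδ2
      (by rw [hωs]; exact hw)
    rw [hsum] at h2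
    exact h1.trans h2
  · push Not at hb1
    have hLr : (0 : ℝ) < L := by exact_mod_cast hL
    have hkap : 0 ≤ gq r b / (L : ℝ) := div_nonneg (gq_nonneg hb.le) hLr.le
    have h0 : psi τ ≤ (1 + gq r b / L) * psi (Multiset.replicate r L) := by
      rw [psi_rect, ← hh_symm r L, mul_comm, ← NN_near r L b hb hL, ← hKe]
      exact h
    have h1 := dom L r ν τ (1 + gq r b / L) hL (by linarith) hν hτ h0
    have hd0 := E3_dd_zero L r ν hν
    have hd1 := E3_dd_ge L r ν
    set ω := ν + Multiset.replicate r L with hω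
    have hωc : ω.card = m := by
      rw [hω, Multiset.card_add, Multiset.card_replicate]
      omega
    have hωw : ∀ x ∈ ω, x ≤ w := by
      intro x hx
      rcases Multiset.mem_add.1 hx with h2 | h2
      · rw [← hsup]
        exact Multiset.le_sup h2
      · rw [Multiset.eq_of_mem_replicate h2]
        omega
    have hωs : ω.sup = w := by
      apply le_antisymm
      · rw [Multiset.sup_le]
        exact hωw
      · rw [← hsup, hω, Multiset.sup_add]
        exact le_sup_left
    have hne : ω ≠ 0 := by
      rintro h2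
      rw [h2, Multiset.card_zero] at hωc
      omega
    have h2 := PB ω w hωw
    rw [hωc] at h2
    have h3 := SD_dd ω w hωw
    have hωsum : ω.sum = ν.sum + r * L := by
      rw [hω, Multiset.sum_add, Multiset.sum_replicate, smul_eq_mul]
    have hνs : ν.sum ≤ ν.card * w := s2_sum_le ν w (fun x hx => by
      rw [← hsup]
      exact Multiset.le_sup hx)
    -- the families
    obtain ⟨e, he⟩ : ∃ e, w = L + e := ⟨w - L, by omega⟩
    have hmw : m * w = ν.card * w + (r * L + r * e) := by
      rw [← hm, he]
      ring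
    have hre : r * e + b ≤ δ := by omega
    have hSD : SD (dd ω) w + b = δ := by
      rw [hωc] at h3
      omega
    have hpe : ν.card ≤ e := by omega
    have hmδ : m + 1 ≤ δ := by
      have h4 : r * ν.card ≤ r * e := Nat.mul_le_mul_left r hpe
      obtain ⟨p', hp'⟩ : ∃ p', ν.card = p' + 1 := ⟨ν.card - 1, by omega⟩
      obtain ⟨r', hr'⟩ : ∃ r', r = r' + 1 := ⟨r - 1, by omega⟩
      have h5 : r * ν.card = r' * p' + r' + p' + 1 := by
        rw [hp', hr']
        ring
      omega
    obtain ⟨ρ, hρ⟩ : ∃ ρ, δ = m + ρ := ⟨δ - m, by omega⟩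
    have h5 := NN_c1 m w ρ (by omega) (by omega)
    have hk : (ν + τ).sum = m * w - (m + ρ) := by
      rw [Multiset.sum_add]
      omega
    rw [hk]
    refine le_trans ?_ h5
    refine h1.trans ?_
    have hh0 : 0 < hh w (m : ℝ) := hh_pos _ (Nat.cast_nonneg _)
    have hdq : ∀ p, p < w → dd ω (p + 1) + 1 ≤ m := by
      intro p hp
      have := dd_lt ω hne (p + 1) (by omega)
      omega
    obtain ⟨hSD0, hPP0⟩ := E3_zero (dd ω) L fun p hp => hd0 (p + 1) (by omega)
    have hmono := dd_mono ω
    have hwR : ((w : ℕ) : ℝ) = (L : ℝ) + e := by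
      rw [he]
      push_cast
      ring
    have hPhle : ∀ a : ℕ, a ≤ m → dd ω w = a → Ph m (dd ω) w ≤ (PP (dd ω) w - 1) / ((m : ℝ) + 1 - a) :=
      fun a ha hda => Ph_PP m a (dd ω) w ha fun p hp => by
        rw [← hda]
        exact hmono (by omega)
    have hfin : (1 + gq r b / L) * (1 + Ph m (dd ω) w) ≤
        1 + ((m : ℝ) + gq m ρ) / w := by
      have hbr : (b : ℝ) + 1 ≤ r := by exact_mod_cast hb
      have hb2 : (2 : ℝ) ≤ b := by exact_mod_cast hb1
      have hstep : ∀ c : ℝ, Ph m (dd ω) w ≤ c →
          (1 + gq r b / L) * (1 + c) ≤ 1 + ((m : ℝ) + gq m ρ) / w →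
          (1 + gq r b / L) * (1 + Ph m (dd ω) w) ≤ 1 + ((m : ℝ) + gq m ρ) / w := by
        intro c hc1 hc2
        refine le_trans ?_ hc2
        apply mul_le_mul_of_nonneg_left _ (by linarith)
        linarith
      by_cases hp1 : ν.card = 1
      · -- family A
        have he1 : e = 1 := by
          have h9 : r * e < r * 2 := by omega
          have h10 := Nat.lt_of_mul_lt_mul_left h9
          omega
        subst he1
        obtain ⟨x, hx⟩ := Multiset.card_eq_one.1 hp1
        have hxw : x = w := by
          rw [← hsup, hx, Multiset.sup_singleton]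
        have hνsum : ν.sum = w := by rw [hx, Multiset.sum_singleton, hxw]
        have hmr : m = r + 1 := by omega
        have hδe : δ = r + b := by
          rw [hp1] at hmw
          omega
        have hρe : ρ + 1 = b := by omega
        have hSDe : SD (dd ω) w = r := by omega
        have hdw : dd ω w = r := by
          rw [he, SD_succ, hSD0, zero_add] at hSDe
          rw [he]
          exact hSDe
        have hPPw : PP (dd ω) w = 1 + (r : ℝ) / w := by
          have e1 : PP (dd ω) w = PP (dd ω) L * (1 + (dd ω (L + 1) : ℝ) / ((L : ℝ) + 1)) := by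
            rw [he, PP_succ]
          rw [e1, hPP0, one_mul, ← he, hdw, hwR]
          push_cast
          rfl
        have h9 := hPhle r (by omega) hdw
        rw [hPPw] at h9
        refine hstep _ h9 ?_
        have hLe : (L : ℝ) = (w : ℝ) - 1 := by
          rw [hwR]
          push_cast
          ring
        have hwr : 3 * (r : ℝ) + 1 ≤ w := by
          have : 3 * r + 1 ≤ w := by omega
          exact_mod_cast this
        have h10 := e2_A r b w hb2 hbr hwr
        have hρr : (ρ : ℝ) = b - 1 := by
          have : ((ρ + 1 : ℕ) : ℝ) = b := by exact_mod_cast hρe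
          push_cast at this
          linarith
        have hmr' : (m : ℝ) = r + 1 := by rw [hmr]; push_cast; ring
        have e2 : (1 + (r : ℝ) / w - 1) / ((m : ℝ) + 1 - r) = r / w / 2 := by
          rw [hmr']
          congr 1
          · ring
          · ring
        rw [e2, hLe]
        unfold gq
        rw [hρr, hmr']
        have e3 : (r : ℝ) + 1 + 1 - (b - 1) = r + 3 - b := by ring
        rw [e3]
        exact h10
      · -- families B, C
        have hr3 : 3 ≤ r := by omega
        have hcase : (ν.card = 2 ∧ e = 2 ∧ b ≤ 3) ∨ (ν.card = 3 ∧ r = 3 ∧ e = 3 ∧ b = 2) := by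
          have hp2 : 2 ≤ ν.card := by omega
          rcases Nat.lt_or_ge ν.card 3 with h9 | h9
          · left
            have hp2' : ν.card = 2 := by omega
            have he2 : e = 2 := by
              by_contra hc
              have h10 : 3 ≤ e := by omega
              have h11 : r * 3 ≤ r * e := Nat.mul_le_mul_left r h10
              omega
            subst he2
            refine ⟨hp2', rfl, by omega⟩
          · right
            have hc1 : r = 3 ∧ ν.card = 3 := by
              obtain ⟨r', hr'⟩ : ∃ r', r = r' + 2 := ⟨r - 2, by omega⟩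
              obtain ⟨p', hp'⟩ : ∃ p', ν.card = p' + 2 := ⟨ν.card - 2, by omega⟩
              have h10 : r * ν.card ≤ r * e := Nat.mul_le_mul_left r hpe
              have h11 : r * ν.card = r' * p' + 2 * r' + 2 * p' + 4 := by
                rw [hr', hp']
                ring
              have h12 : r' * p' ≤ 1 := by omega
              have h13 : r' = 1 ∧ p' = 1 := by
                have h14 : r' * p' = 1 := by
                  have : 0 < r' * p' := Nat.mul_pos (by omega) (by omega)
                  omega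
                exact ⟨Nat.eq_one_of_mul_eq_one_right h14, Nat.eq_one_of_mul_eq_one_left h14⟩
              omega
            obtain ⟨hc2, hc3⟩ := hc1
            rw [hc2] at hre
            refine ⟨hc3, hc2, by omega, by omega⟩
        rcases hcase with ⟨hp2, he2, hb3⟩ | ⟨hp3, hr3', he3, hb2'⟩
        · subst he2
          have hmr : m = r + 2 := by omega
          have hSDw : SD (dd ω) w = dd ω (L + 1) + dd ω (L + 2) := by
            have e1 : SD (dd ω) w = SD (dd ω) (L + 2) := by rw [he]
            rw [e1, SD_succ, SD_succ, hSD0, zero_add]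
          have hg1 := hd1 (L + 1) (by omega)
          have hg2 : dd ω (L + 1) ≤ dd ω (L + 2) := hmono (by omega)
          have hPPw : PP (dd ω) w = (1 + (dd ω (L + 1) : ℝ) / ((w : ℝ) - 1)) *
              (1 + (dd ω (L + 2) : ℝ) / w) := by
            have e1 : PP (dd ω) w = PP (dd ω) (L + 2) := by rw [he]
            rw [e1, PP_succ, PP_succ, hPP0, one_mul, hwR]
            have e2 : (L : ℝ) + ((2 : ℕ) : ℝ) - 1 = (L : ℝ) + 1 := by push_cast; ring
            have e3 : ((L + 1 : ℕ) : ℝ) + 1 = (L : ℝ) + ((2 : ℕ) : ℝ) := by push_cast; ring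
            rw [e2, e3]
          have hwL : dd ω w = dd ω (L + 2) := by rw [he]
          have hLe : (L : ℝ) = (w : ℝ) - 2 := by
            rw [hwR]
            push_cast
            ring
          have hmr' : (m : ℝ) = r + 2 := by rw [hmr]; push_cast; ring
          have hr3r : (3 : ℝ) ≤ r := by exact_mod_cast hr3
          obtain ⟨f, hf⟩ : ∃ f, δ = 2 * r + b + f := ⟨δ - (2 * r + b), by omega⟩
          have hbf : (b = 2 ∧ f = 0) ∨ (b = 2 ∧ f = 1) ∨ (b = 3 ∧ f = 0) := by omega
          have hdL1 : dd ω (L + 1) = r := by omega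
          have hdL2 : dd ω (L + 2) = r + f := by omega
          have h9 := hPhle (r + f) (by omega) (hwL.trans hdL2)
          rw [hPPw, hdL1, hdL2] at h9
          refine hstep _ h9 ?_
          rcases hbf with ⟨hb', hf'⟩ | ⟨hb', hf'⟩ | ⟨hb', hf'⟩
          · subst hb' hf'
            have hρe : ρ = r := by omega
            have hwr : 3 * (r : ℝ) + 4 ≤ w := by
              have : 3 * r + 4 ≤ w := by omega
              exact_mod_cast this
            have h10 := e2_B r w hr3r hwr
            rw [hLe, hmr', hρe]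
            unfold gq
            rw [hmr']
            have e1 : (r : ℝ) + 1 - ((2 : ℕ) : ℝ) = r - 1 := by push_cast; ring
            have e2 : (r : ℝ) + 2 + 1 - ((r + 0 : ℕ) : ℝ) = 3 := by push_cast; ring
            have e3 : (r : ℝ) + 2 + 1 - (r : ℝ) = 3 := by ring
            rw [e1, e2, e3, Nat.add_zero]
            push_cast
            exact h10
          · subst hb' hf'
            have hρe : ρ = r + 1 := by omega
            have hwr : 3 * (r : ℝ) + 5 ≤ w := by
              have : 3 * r + 5 ≤ w := by omega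
              exact_mod_cast this
            have h10 := e2_C r w hr3r hwr
            rw [hLe, hmr', hρe]
            unfold gq
            rw [hmr']
            have e1 : (r : ℝ) + 1 - ((2 : ℕ) : ℝ) = r - 1 := by push_cast; ring
            have e2 : (r : ℝ) + 2 + 1 - ((r + 1 : ℕ) : ℝ) = 2 := by push_cast; ring
            rw [e1, e2]
            push_cast
            exact h10
          · subst hb' hf'
            have hρe : ρ = r + 1 := by omega
            have hwr : 3 * (r : ℝ) + 5 ≤ w := by
              have : 3 * r + 5 ≤ w := by omega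
              exact_mod_cast this
            have hr4r : (4 : ℝ) ≤ r := by
              have : 4 ≤ r := by omega
              exact_mod_cast this
            have h10 := e2_D r w hr4r hwr
            rw [hLe, hmr', hρe]
            unfold gq
            rw [hmr']
            have e1 : (r : ℝ) + 1 - ((3 : ℕ) : ℝ) = r - 2 := by push_cast; ring
            have e2 : (r : ℝ) + 2 + 1 - ((r + 0 : ℕ) : ℝ) = 3 := by push_cast; ring
            have e3 : (r : ℝ) + 2 + 1 - ((r + 1 : ℕ) : ℝ) = 2 := by push_cast; ring
            rw [e1, e2, e3, Nat.add_zero]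
            push_cast
            exact h10
        · subst he3 hb2' hr3'
          have hm6 : m = 6 := by omega
          have hδ11 : δ = 11 := by omega
          have hSDw : SD (dd ω) w = dd ω (L + 1) + dd ω (L + 2) + dd ω (L + 3) := by
            have e1 : SD (dd ω) w = SD (dd ω) (L + 3) := by rw [he]
            rw [e1, SD_succ, SD_succ, SD_succ, hSD0, zero_add]
          have hg1 := hd1 (L + 1) (by omega)
          have hg2 := hd1 (L + 2) (by omega)
          have hg3 := hd1 (L + 3) (by omega)
          have hdL1 : dd ω (L + 1) = 3 := by omega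
          have hdL2 : dd ω (L + 2) = 3 := by omega
          have hdL3 : dd ω (L + 3) = 3 := by omega
          have hPPw : PP (dd ω) w = (1 + 3 / ((w : ℝ) - 2)) * (1 + 3 / ((w : ℝ) - 1)) *
              (1 + 3 / (w : ℝ)) := by
            have e1 : PP (dd ω) w = PP (dd ω) (L + 3) := by rw [he]
            rw [e1, PP_succ, PP_succ, PP_succ, hPP0, one_mul, hwR, hdL1, hdL2, hdL3]
            have e2 : (L : ℝ) + ((3 : ℕ) : ℝ) - 2 = (L : ℝ) + 1 := by push_cast; ring
            have e3 : (L : ℝ) + ((3 : ℕ) : ℝ) - 1 = ((L + 1 : ℕ) : ℝ) + 1 := by push_cast; ring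
            have e4 : (L : ℝ) + ((3 : ℕ) : ℝ) = ((L + 2 : ℕ) : ℝ) + 1 := by push_cast; ring
            rw [e2, e3, e4]
            push_cast
            rfl
          have hwL : dd ω w = dd ω (L + 3) := by rw [he]
          have hLe : (L : ℝ) = (w : ℝ) - 3 := by
            rw [hwR]
            push_cast
            ring
          have h9 := hPhle 3 (by omega) (hwL.trans hdL3)
          rw [hPPw] at h9
          refine hstep _ h9 ?_
          have hw17 : (17 : ℝ) ≤ w := by
            have : 17 ≤ w := by omega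
            exact_mod_cast this
          have h10 := e2_E w hw17
          have hρe : ρ = 5 := by omega
          rw [hLe, hm6, hρe]
          unfold gq
          have e1 : ((2 : ℕ) : ℝ) / (((3 : ℕ) : ℝ) + 1 - ((2 : ℕ) : ℝ)) = 1 := by norm_num
          have e2 : (((6 : ℕ) : ℝ) + 1 - ((3 : ℕ) : ℝ)) = 4 := by norm_num
          have e3 : (((6 : ℕ) : ℝ) + ((5 : ℕ) : ℝ) / (((6 : ℕ) : ℝ) + 1 - ((5 : ℕ) : ℝ))) = 6 + 5 / 2 := by
            norm_num
          rw [e1, e2, e3]
          exact h10
    have hpos1 : 0 ≤ 1 + gq r b / (L : ℝ) := by linarith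
    calc (1 + gq r b / L) * psi ω ≤ (1 + gq r b / L) * (hh w m * (1 + Ph m (dd ω) w)) :=
          mul_le_mul_of_nonneg_left h2 hpos1
      _ = hh w m * ((1 + gq r b / L) * (1 + Ph m (dd ω) w)) := by ring
      _ ≤ hh w m * (1 + ((m : ℝ) + gq m ρ) / w) := mul_le_mul_of_nonneg_left hfin hh0.le

end Pool.Agent.LRF
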