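import Mathlib
import Pool.Agent.LRF.C5
import Pool.Agent.LRT.F3
import Pool.Agent.LRT.M1

set_option autoImplicit false

namespace Pool.Agent.LRF

open Finset
open Pool.Agent.LRE Pool.Agent.LRT

theorem E4_wlog (s : Multiset ℕ) (hpos : ∀ x ∈ s, 0 < x) : ∃ s' : Multiset ℕ,
    (∀ x ∈ s', 0 < x) ∧ psi s' = psi s ∧ s'.sum = s.sum ∧ s'.card ≤ s'.sup ∧
      s'.sup = max s.card s.sup := by
  rcases le_total s.card s.sup with h | h
  · exact ⟨s, hpos, rfl, rfl, h, (max_eq_right h).symm⟩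
  · exact ⟨conj s, conj_pos s, psi_conj s, conj_sum s, by rw [conj_card, conj_sup s hpos]; exact h,
      by rw [conj_sup s hpos, max_eq_left h]⟩

/-- Row LRF-E4a. `K = 4`, `|s| = 9`. If `s.card, s.sup ≤ 3`: `sb s 3`: `hh 3 3 = 1/20`. Otherwise the
larger of the two is `4`: `S1 3 4 3` for `s` or `conj s` (`conj_card`, `conj_sup`, `conj_sum`,
`psi_conj`; see `crude` in LRT/J4.lean). `NN 2 9 = hh 2 5 (1 + gq 2 1/5)` (`NN_near 2 5 1`)
`= (11/10)/21`, and the bound of `S1` is `(1/35) max(1 + 3/(3·2), (6/5)(1 + (1-3/10)^{-2})/2)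
≤ 0.0522 ≤ 0.0523`. -/
theorem mid3_two (s : Multiset ℕ) (hpos : ∀ x ∈ s, 0 < x) (hc : s.card ≤ 4) (hs : s.sup ≤ 4)
    (h : s.sum = 9) : psi s ≤ NN 2 9 := by
  obtain ⟨t, ht1, ht2, ht3, ht4, ht5⟩ := E4_wlog s hpos
  have hsup : t.sup ≤ 4 := by
    rw [ht5]
    exact max_le hc hs
  have hNN : NN 2 9 = 11 / 210 := by
    have h1 := NN_near 2 5 1 (by norm_num) (by norm_num)
    norm_num [hh, gq, Finset.prod_range_succ] at h1
    rw [h1]
  rw [hNN, ← ht2]
  rcases Nat.lt_or_ge t.sup 4 with h4 | h4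
  · have h1 := sb t 3 (by norm_num) (by omega) (by omega)
    refine h1.trans ?_
    rw [ht3, h]
    norm_num [hh, Finset.prod_range_succ]
  · have h5 : t.sup = 4 := by omega
    have h1 := S1 3 4 3 t le_rfl (Or.inl rfl) ht1 h5 (by omega) (by omega) (by norm_num)
    refine h1.trans ?_
    norm_num [hh, AA, GP, phi, Finset.prod_range_succ]

/-- Row LRF-E4b. `K = 7`, `|s| = 22, 23`. `card, sup ≤ 6`: `sb s 6`, `hh 6 (22/6) ≤ (9/8)/165`,
`hh 6 (23/6) ≤ (25/24)/165`. Otherwise the larger is `7`: `S1 4 7 δ`, `δ = 6, 5`;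
`NN 3 22 = hh 3 8 (1 + gq 3 2/8) = (9/8)/165`, `NN 3 23 = hh 3 8 (1 + gq 3 1/8) = (25/24)/165`. -/
theorem mid3_three (s : Multiset ℕ) (hpos : ∀ x ∈ s, 0 < x) (hc : s.card ≤ 7) (hs : s.sup ≤ 7)
    (h1 : 22 ≤ s.sum) (h2 : s.sum ≤ 23) : psi s ≤ NN 3 s.sum := by
  obtain ⟨t, ht1, ht2, ht3, ht4, ht5⟩ := E4_wlog s hpos
  have hsup : t.sup ≤ 7 := by
    rw [ht5]
    exact max_le hc hs
  have hN22 : NN 3 22 = 9 / 8 / 165 := by
    have h1 := NN_near 3 8 2 (by norm_num) (by norm_num)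
    norm_num [hh, gq, Finset.prod_range_succ] at h1
    rw [h1]
    norm_num
  have hN23 : NN 3 23 = 25 / 24 / 165 := by
    have h1 := NN_near 3 8 1 (by norm_num) (by norm_num)
    norm_num [hh, gq, Finset.prod_range_succ] at h1
    rw [h1]
    norm_num
  have h12 : s.sum = 22 ∨ s.sum = 23 := by omega
  rw [← ht2]
  rcases Nat.lt_or_ge t.sup 7 with h4 | h4
  · have h3 := sb t 6 (by norm_num) (by omega) (by omega)
    refine h3.trans ?_
    rw [ht3]
    rcases h12 with h | h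
    · rw [h, hN22]
      norm_num [hh, Finset.prod_range_succ]
    · rw [h, hN23]
      norm_num [hh, Finset.prod_range_succ]
  · have h5 : t.sup = 7 := by omega
    rcases h12 with h | h
    · have h3 := S1 4 7 6 t (by norm_num) (Or.inr (Or.inl ⟨rfl, le_rfl⟩)) ht1 h5 (by omega)
        (by omega) (by norm_num)
      refine h3.trans ?_
      rw [h, hN22]
      norm_num [hh, AA, GP, phi, Finset.prod_range_succ]
    · have h3 := S1 4 7 5 t (by norm_num) (Or.inr (Or.inl ⟨rfl, le_rfl⟩)) ht1 h5 (by omega)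
        (by omega) (by norm_num)
      refine h3.trans ?_
      rw [h, hN23]
      norm_num [hh, AA, GP, phi, Finset.prod_range_succ]

/-- Row LRF-E4c. `K = 10`, `|s| = 41, 42, 43`. `card, sup ≤ 9`: `sb s 9`,
`hh 9 (41/9) ≤ (1 + 3/22)/1365 = NN 4 41`, `hh 9 (42/9) ≤ 1/1365`, `hh 9 (43/9) ≤ 1/1365`
(`hh 4 11 = 1/1365 ≤ NN 4 |s|`, `NN_ge_rect`; for `41`: `NN_near 4 11 3`).
Otherwise the larger is `10`: `crude_eq 4 10`. -/
theorem mid3_four (s : Multiset ℕ) (hpos : ∀ x ∈ s, 0 < x) (hc : s.card ≤ 10) (hs : s.sup ≤ 10)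
    (h1 : 41 ≤ s.sum) (h2 : s.sum ≤ 43) : psi s ≤ NN 4 s.sum := by
  have hrect : hh 4 ((11 : ℕ) : ℝ) = 1 / 1365 := by
    norm_num [hh, Finset.prod_range_succ]
  have hge := NN_ge_rect 4 11 s.sum (by norm_num) (by omega)
  rw [hrect] at hge
  rcases Nat.lt_or_ge (max s.card s.sup) 10 with h4 | h4
  · have h5 := le_max_left s.card s.sup
    have h6 := le_max_right s.card s.sup
    have h3 := sb s 9 (by norm_num) (by omega) (by omega)
    refine h3.trans ?_
    have h123 : s.sum = 41 ∨ s.sum = 42 ∨ s.sum = 43 := by omega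
    rcases h123 with h | h | h
    · rw [h]
      have h1 := NN_near 4 11 3 (by norm_num) (by norm_num)
      rw [hrect] at h1
      norm_num [gq] at h1
      rw [h1]
      norm_num [hh, Finset.prod_range_succ]
    · refine le_trans ?_ hge
      rw [h]
      norm_num [hh, Finset.prod_range_succ]
    · refine le_trans ?_ hge
      rw [h]
      norm_num [hh, Finset.prod_range_succ]
  · have h3 := crude_eq 4 10 s (by norm_num) (Or.inr ⟨rfl, rfl⟩) hpos hc hs h4 (by omega) (by omega)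
    refine h3.trans (le_trans (le_of_eq ?_) hge)
    norm_num [hh, Finset.prod_range_succ]

theorem E4_arith (m M K N : ℕ) (hm : 2 ≤ m) (hM : 3 * m ≤ M) (h1 : (m - 1) * (M + 1) < N)
    (h2 : N < m * (K + 1)) : 3 * m ≤ K + 2 := by
  obtain ⟨q, rfl⟩ : ∃ q, m = q + 1 := ⟨m - 1, by omega⟩
  rw [Nat.add_sub_cancel] at h1
  by_contra hcon
  rw [not_le] at hcon
  have h3 : q * (3 * (q + 1) + 1) ≤ q * (M + 1) := Nat.mul_le_mul_left q (by omega)
  have h4 : (q + 1) * (K + 1) ≤ (q + 1) * (3 * q + 1) := Nat.mul_le_mul_left _ (by omega)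
  nlinarith

/-- Row LRF-E4d. `(m-1)(M+1) < m (K+1)`, `M ≥ 3 m`: `K ≥ 3 m - 2`. `|s| = m K`: `sb s K`,
`NN_ge_rect m K`, `hh_symm`. `|s| > m K`: if `RC m K`: `crudeF m K`, `NN_ge_rect m (K+1)`, `hh_symm`.
Otherwise `K = 3m - 2`, `m ∈ {2,3,4}`: the three lemmas. -/
theorem mid3 (m M K : ℕ) (s : Multiset ℕ) (hm : 2 ≤ m) (hM : 3 * m ≤ M) (hpos : ∀ x ∈ s, 0 < x)
    (hc : s.card ≤ K) (hs : s.sup ≤ K) (h1 : (m - 1) * (M + 1) < s.sum) (hK1 : m * K ≤ s.sum)
    (hK2 : s.sum < m * (K + 1)) : psi s ≤ NN m s.sum := by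
  have hK := E4_arith m M K s.sum hm hM h1 hK2
  have hKpos : 1 ≤ K := by omega
  have hK0 : (0 : ℝ) < K := by exact_mod_cast hKpos
  rcases Nat.eq_or_lt_of_le hK1 with h2 | h2
  · have h3 := sb s K hKpos hc hs
    have e1 : (s.sum : ℝ) / K = m := by
      rw [← h2]
      push_cast
      field_simp
    rw [e1, hh_symm K m] at h3
    refine h3.trans ?_
    exact NN_ge_rect m K s.sum (by omega) h2.ge
  · by_cases hRC : RC m K
    · have h3 := crudeF m K s hm hRC hpos hc hs h2 hK2.le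
      have h4 := hh_symm (K + 1) m
      rw [h4] at h3
      exact h3.trans (NN_ge_rect m (K + 1) s.sum (by omega) hK2.le)
    · unfold RC at hRC
      push Not at hRC
      have h3 : K + 1 < 3 * m := hRC.1
      have h4 : m < 5 := by
        by_contra hcon
        have h5 := hRC.2 (by omega)
        omega
      have h5 : m = 2 ∨ m = 3 ∨ m = 4 := by omega
      rcases h5 with rfl | rfl | rfl
      · have h6 : K = 4 := by omega
        subst h6
        have h7 : s.sum = 9 := by omega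
        rw [h7]
        exact mid3_two s hpos hc hs h7
      · have h6 : K = 7 := by omega
        subst h6
        exact mid3_three s hpos hc hs (by omega) (by omega)
      · have h6 : K = 10 := by omega
        subst h6
        exact mid3_four s hpos hc hs (by omega) (by omega)

end Pool.Agent.LRF
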