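import Mathlib
import Pool.Agent.LRF.E4
import Pool.Agent.LRT.Z2

set_option autoImplicit false

namespace Pool.Agent.LRF

open Finset
open Pool.Agent.LRE Pool.Agent.LRT

/-- `(m-1)(M+1) + 1 < m (K+1)`, `M ≥ 3 m`: `K ≥ 3 m - 2` -/
theorem e5_K (m M K : ℕ) (hm : 2 ≤ m) (hM : 3 * m ≤ M) (h : (m - 1) * (M + 1) + 1 < m * (K + 1)) :
    3 * m ≤ K + 2 := by
  by_contra hc
  push Not at hc
  obtain ⟨q, rfl⟩ : ∃ q, m = q + 1 := ⟨m - 1, by omega⟩
  rw [Nat.add_sub_cancel] at h
  have h2 : q * (3 * (q + 1) + 1) ≤ q * (M + 1) := Nat.mul_le_mul_left q (by omega)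
  have h3 : (q + 1) * (K + 1) ≤ (q + 1) * (3 * q + 1) := Nat.mul_le_mul_left (q + 1) (by omega)
  nlinarith

/-- case `m < c ≤ ⌊k/m⌋` -/
theorem NN_mid3 (m M k K c : ℕ) (hm : 2 ≤ m) (hM : 3 * m ≤ M) (h1 : (m - 1) * (M + 1) < k)
    (hK1 : m * K ≤ k) (hK2 : k < m * (K + 1)) (hc1 : m < c) (hc2 : c ≤ K) :
    NN c k ≤ NN m k := by
  have hK := e5_K m M K hm hM (by omega)
  set s : Multiset ℕ := (Multiset.replicate (k / c) c + {k % c}).filter (fun x => 0 < x) with hs
  have hpsi : NN c k = psi s := by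
    unfold NN
    rw [hs, psi_filter_pos]
  have hpos : ∀ x ∈ s, 0 < x := fun x hx => Multiset.of_mem_filter hx
  have hc0 : 0 < c := by omega
  have hkc := Nat.div_add_mod k c
  have hrc := Nat.mod_lt k hc0
  have hsum : s.sum = k := by
    have h4 := Multiset.filter_add_not (fun x => 0 < x) (Multiset.replicate (k / c) c + {k % c})
    have h5 := congrArg Multiset.sum h4
    have h3 : ((Multiset.replicate (k / c) c + {k % c}).filter (fun x => ¬ 0 < x)).sum = 0 := by
      apply Multiset.sum_eq_zero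
      intro x hx
      have := Multiset.of_mem_filter hx
      omega
    rw [Multiset.sum_add, h3, add_zero, Multiset.sum_add, Multiset.sum_replicate,
      Multiset.sum_singleton, smul_eq_mul, Nat.mul_comm, hkc] at h5
    exact h5
  -- `k < c K`
  have hcK : k < c * K := by
    have h3 : (m + 1) * K ≤ c * K := Nat.mul_le_mul_right _ hc1
    have h4 : (m + 1) * K = m * K + K := by ring
    have h5 : m * (K + 1) = m * K + m := by ring
    omega
  have hdiv : k / c + 1 ≤ K := by
    have : k / c < K := Nat.div_lt_of_lt_mul hcK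
    omega
  have hcard1 : s.card ≤ k / c + 1 := by
    have h3 := Multiset.card_le_card (Multiset.filter_le (fun x => 0 < x)
      (Multiset.replicate (k / c) c + {k % c}))
    rw [Multiset.card_add, Multiset.card_replicate, Multiset.card_singleton] at h3
    exact h3
  have hsup : s.sup ≤ K := by
    rw [Multiset.sup_le]
    intro b hb
    have hb2 := Multiset.mem_of_mem_filter hb
    rw [Multiset.mem_add, Multiset.mem_singleton] at hb2
    rcases hb2 with hb2 | hb2
    · exact (Multiset.eq_of_mem_replicate hb2).le.trans hc2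
    · omega
  rw [hpsi]
  have := mid3 m M K s hm hM hpos (by omega) hsup (by rw [hsum]; exact h1)
    (by rw [hsum]; exact hK1) (by rw [hsum]; exact hK2)
  rwa [hsum] at this

/-- among the near rectangles with `m ≤ c ≤ M`, the largest value is at an end -/
theorem NN_max3 (m M k c : ℕ) (hm : 1 ≤ m) (hM : 3 * m ≤ M) (h1 : (m - 1) * (M + 1) < k)
    (h2 : k ≤ m * M) (hc1 : m ≤ c) (hc2 : c ≤ M) : NN c k ≤ max (NN m k) (NN M k) := by
  rcases Nat.lt_or_ge m 2 with hm2 | hm2
  · have hm1 : m = 1 := by omega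
    subst hm1
    apply le_max_of_le_left
    have h3 := NN_ge_rect 1 k k le_rfl (by omega)
    rw [hh_one_left] at h3
    have h4 : NN c k ≤ 1 / ((k : ℝ) + 1) := by
      have h5 := psi_le_inv (Multiset.replicate (k / c) c + {k % c})
      rw [Multiset.sum_add, Multiset.sum_replicate, Multiset.sum_singleton, smul_eq_mul,
        Nat.mul_comm, Nat.div_add_mod] at h5
      exact h5
    exact h4.trans h3
  rcases Nat.eq_or_lt_of_le hc1 with heq | hlt
  · subst heq
    exact le_max_left _ _
  obtain ⟨K, hK⟩ : ∃ K, K = k / m := ⟨_, rfl⟩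
  have hkm := Nat.div_add_mod k m
  have hrm := Nat.mod_lt k (show 0 < m by omega)
  rw [← hK] at hkm
  have hK1 : m * K ≤ k := by omega
  have hK2 : k < m * (K + 1) := by
    have : m * (K + 1) = m * K + m := by ring
    omega
  rcases Nat.lt_or_ge K c with hKc | hKc
  · have hKm := e5_K m M K hm2 hM (by omega)
    have hmm : m - 1 + 1 = m := by omega
    have hform : ∀ c', K + 1 ≤ c' → c' ≤ M → NN c' k = FF k (m - 1) c' := by
      intro c' h3 h4
      apply NN_FF
      · have h5 : (m - 1) * c' ≤ (m - 1) * (M + 1) := Nat.mul_le_mul_left _ (by omega)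
        omega
      · rw [hmm]
        have : m * (K + 1) ≤ m * c' := Nat.mul_le_mul_left _ h3
        omega
    have hle : ∀ c', c' ≤ M → (m - 1) * c' ≤ k := by
      intro c' h4
      have h5 : (m - 1) * c' ≤ (m - 1) * (M + 1) := Nat.mul_le_mul_left _ (by omega)
      omega
    have hconv := conv_max (fun c' => FF k (m - 1) c') (K + 1) M
      (fun c' _ h4 => FF_pos k (m - 1) c' (hle c' h4))
      (fun c' _ h4 => FF_conv k (m - 1) c' (by omega) (hle (c' + 2) h4)) c (by omega) hc2
    rw [hform c (by omega) hc2, hform M (by omega) le_rfl]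
    refine hconv.trans (max_le_max ?_ le_rfl)
    have h6 := FF_le_NN m K (k % m) hrm (by omega)
    rw [hkm] at h6
    exact h6
  · exact le_max_of_le_left (NN_mid3 m M k K c hm2 hM h1 hK1 hK2 hlt hKc)

end Pool.Agent.LRF
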