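import Mathlib
import Pool.Agent.LRF.C6
import Pool.Agent.LRF.D5
import Pool.Agent.LRF.E3
import Pool.Agent.LRF.E5
import Pool.Agent.LRT.J5

set_option autoImplicit false

namespace Pool.Agent.LRF

open Finset
open Pool.Agent.LRE Pool.Agent.LRT

/-- The box theorem with exact width `w`. -/
theorem TT3 (m : ℕ) : ∀ (w δ : ℕ) (s : Multiset ℕ), 2 ≤ m → (∀ x ∈ s, 0 < x) → s.sup = w →
    s.card ≤ w → s.sum + δ = m * w → δ + m ≤ w → 3 * m ≤ w + 2 →
    psi s ≤ max (NN m s.sum) (NN w s.sum) := by
  induction m using Nat.strong_induction_on with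
  | _ m ih =>
  intro w δ s hm hpos hsup hcard hsum hδm h3m
  have hs0 : s ≠ 0 := by
    rintro rfl
    rw [Multiset.sup_zero] at hsup
    have : (⊥ : ℕ) = 0 := rfl
    omega
  rcases Nat.lt_or_ge m 3 with hm3 | hm3
  · -- two lines
    have hm2 : m = 2 := by omega
    subst hm2
    have hw : w ∈ s := hsup ▸ a2_sup_mem s hs0
    obtain ⟨τ, rfl⟩ := Multiset.exists_cons_of_mem hw
    rw [← Multiset.singleton_add] at *
    have hτw : τ.sup ≤ w := by
      rw [← hsup, Multiset.sup_add]
      exact le_sup_right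
    have hsum' := hsum
    rw [Multiset.sum_add, Multiset.sum_singleton] at hsum'
    have hK1 : 1 ≤ τ.sum := by omega
    have hKw : τ.sum ≤ w := by omega
    have h1 : psi τ ≤ 1 * psi (Multiset.replicate 0 w + {τ.sum}) := by
      rw [one_mul, Multiset.replicate_zero, zero_add]
      have h2 := psi_rect 1 τ.sum
      rw [Multiset.replicate_one] at h2
      rw [h2, Nat.cast_one]
      obtain ⟨h, hh'⟩ : ∃ h, τ.sum = h + 1 := ⟨τ.sum - 1, by omega⟩
      have h3 := tl1 h τ hh'.ge
      rw [hh']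
      exact h3
    have h2 := dom_near w 0 τ.sum {w} τ 1 (by omega) le_rfl hKw
      (fun x hx => by rw [Multiset.mem_singleton] at hx; omega)
      (fun x hx => (Multiset.le_sup hx).trans hτw) h1
    rw [one_mul, Multiset.replicate_zero, zero_add] at h2
    have e1 : ({w} + {τ.sum} : Multiset ℕ).sup = w := by
      rw [Multiset.sup_add, Multiset.sup_singleton, Multiset.sup_singleton]
      exact sup_eq_left.2 hKw
    have e2 : ({w} + {τ.sum} : Multiset ℕ).sum = ({w} + τ).sum := by
      rw [Multiset.sum_add, Multiset.sum_add, Multiset.sum_singleton, Multiset.sum_singleton]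
    have h3 := exact_m 2 δ ({w} + {τ.sum}) le_rfl (by simp) (by rw [e1, e2]; exact hsum)
      (by rw [e1]; exact hδm) (Or.inl rfl)
    rw [e1, e2] at h3
    exact h2.trans h3
  have hhw : 0 < hh w (m : ℝ) := hh_pos _ (Nat.cast_nonneg _)
  rcases Nat.lt_or_ge δ (2 * m) with hδ2 | hδ2
  swap
  · -- large deficit
    have h1 := S2 m w δ s hm3 (by omega) hpos hsup hcard hsum (by omega)
    have hk : s.sum = m * w - δ := by omega
    rw [hk]
    refine h1.trans ?_
    rw [mul_max_of_nonneg _ _ hhw.le]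
    apply max_le
    · exact le_max_of_le_right (NN_B m w δ (by omega) (by omega) (by omega))
    · refine le_max_of_le_left ?_
      refine (N5 m w δ hm3 hδ2 hδm).trans (NN_ge_rect m _ _ (by omega) ?_)
      rw [Nat.mul_sub]
      have h3 := Nat.mul_div_le δ m
      omega
  -- small deficit
  have hrow : ∀ x ∈ s, x ≤ w := fun x hx => hsup ▸ Multiset.le_sup hx
  have hcm : m ≤ s.card := by
    by_contra hc
    push Not at hc
    have h1 := s2_sum_le s w hrow
    obtain ⟨q, hq⟩ : ∃ q, m = q + 1 := ⟨m - 1, by omega⟩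
    have h2 : s.card * w ≤ q * w := Nat.mul_le_mul_right w (by omega)
    have h3 : m * w = q * w + w := by rw [hq, Nat.succ_mul]
    omega
  rcases Nat.eq_or_lt_of_le hcm with hceq | hclt
  · have h1 := exact3 m δ s hm3 hceq.symm (by rw [hsup]; exact hsum)
      (by rw [hsup]; exact hδm) hδ2 (by rw [hsup]; exact h3m)
    exact le_max_of_le_left h1
  by_cases hH : ∀ (ν τ : Multiset ℕ) (r L : ℕ), s = ν + τ → ν.card + r = m → 1 ≤ r → ν ≠ 0 →
      (∀ x ∈ ν, L ≤ x) → (∀ x ∈ τ, x < L) → r * (L - 1) < τ.sum → τ.sum ≤ r * L → 2 ≤ L →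
      psi τ ≤ 1 * psi (Multiset.replicate r L)
  · obtain ⟨ω, c1, c2, c3, c4, c5⟩ := stage_dom m s 1 (by omega) le_rfl hpos hclt
      (by rw [hsup]; omega) hH
    rw [one_mul] at c5
    have h1 := exact3 m δ ω hm3 c1 (by rw [c3, c4, hsup]; exact hsum)
      (by rw [c3, hsup]; exact hδm) hδ2 (by rw [c3, hsup]; exact h3m)
    rw [c4] at h1
    exact le_max_of_le_left (c5.trans h1)
  push Not at hH
  obtain ⟨ν, τ, r, L, hs, hcr, hr1, hν0, hνL, hτL, hlow, hup, hL2, hfail⟩ := hH
  rw [one_mul, psi_rect] at hfail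
  have hτpos : ∀ x ∈ τ, 0 < x := fun x hx => hpos x (by rw [hs]; exact Multiset.mem_add.2 (Or.inr hx))
  have hp1 : 1 ≤ ν.card := Multiset.card_pos.2 hν0
  obtain ⟨z, hz⟩ := Multiset.exists_mem_of_ne_zero hν0
  have hνw : ν.sup = w := by
    rw [← hsup, hs, Multiset.sup_add]
    refine (sup_eq_left.2 (Multiset.sup_le.2 fun x hx => ?_)).symm
    exact (hτL x hx).le.trans ((hνL z hz).trans (Multiset.le_sup hz))
  have hLw : L ≤ w := (hνL z hz).trans (hνw ▸ Multiset.le_sup hz)
  have hνrow : ∀ x ∈ ν, x ≤ w := fun x hx => hνw ▸ Multiset.le_sup hx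
  have hτc : s.card = ν.card + τ.card := by rw [hs, Multiset.card_add]
  have hτs : s.sum = ν.sum + τ.sum := by rw [hs, Multiset.sum_add]
  have hνs : ν.sum ≤ ν.card * w := s2_sum_le ν w hνrow
  obtain ⟨e, he⟩ : ∃ e, w = L + e := ⟨w - L, by omega⟩
  have hmw : m * w = ν.card * w + (r * L + r * e) := by
    rw [← hcr, he]
    ring
  obtain ⟨b, hb⟩ : ∃ b, τ.sum + b = r * L := ⟨r * L - τ.sum, by omega⟩
  have hbr : b < r := by
    obtain ⟨l, hl⟩ : ∃ l, L = l + 1 := ⟨L - 1, by omega⟩
    rw [hl, Nat.add_sub_cancel] at hlow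
    rw [hl, Nat.mul_succ] at hb
    omega
  -- `r ≥ 2`
  have hr2 : 2 ≤ r := by
    by_contra hc
    have hr : r = 1 := by omega
    subst hr
    obtain ⟨l, hl⟩ : ∃ l, L = l + 1 := ⟨L - 1, by omega⟩
    have h1 := tl1 l τ (by omega)
    rw [hl, Nat.cast_one] at hfail
    linarith
  have hre : r * e + b ≤ δ := by omega
  have h2e : 2 * e ≤ r * e := Nat.mul_le_mul_right e hr2
  -- tall
  have htall : L ≤ τ.card := by
    by_contra hc
    push Not at hc
    obtain ⟨l, hl⟩ : ∃ l, L = l + 1 := ⟨L - 1, by omega⟩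
    have hsupl : τ.sup ≤ l := Multiset.sup_le.2 fun x hx => by have := hτL x hx; omega
    rw [hl, Nat.add_sub_cancel] at hlow
    rw [hl] at hfail hup
    rcases Nat.lt_or_ge L (3 * r) with hL3 | hL3
    · -- `L = 3 r - 1`, `b = 0`
      have hb0 : b = 0 := by
        rcases Nat.eq_zero_or_pos e with he0 | he0
        · subst he0
          omega
        · rcases Nat.eq_or_lt_of_le (show 1 ≤ e from he0) with he1 | he1
          · omega
          · obtain ⟨e', he'⟩ : ∃ e', e = e' + 2 := ⟨e - 2, by omega⟩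
            have h5 : r * e = r * e' + 2 * r := by rw [he', Nat.mul_add]; omega
            have h6 : e' ≤ r * e' := Nat.le_mul_of_pos_left e' (by omega)
            omega
      have h1 := crude_top r l τ (by omega) (by omega) hsupl hlow (by rw [← hl]; omega)
      linarith
    · have h1 := crudeF r l τ hr2 (Or.inl (by omega)) hτpos (by omega) hsupl hlow hup
      linarith
  have hpe : ν.card ≤ e := by omega
  have hrp : r * ν.card ≤ r * e := Nat.mul_le_mul_left r hpe
  obtain ⟨r', hr'⟩ : ∃ r', r = r' + 2 := ⟨r - 2, by omega⟩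
  obtain ⟨p', hp'⟩ : ∃ p', ν.card = p' + 1 := ⟨ν.card - 1, by omega⟩
  obtain ⟨t, ht⟩ : ∃ t, t = τ.card := ⟨_, rfl⟩
  have htw : t + ν.card ≤ w := by omega
  have hτrow : ∀ x ∈ τ, x ≤ L := fun x hx => (hτL x hx).le
  have hLt : L ≤ t := by omega
  obtain ⟨f, hf⟩ : ∃ f, t = L + f := ⟨t - L, by omega⟩
  have hfe : f + ν.card ≤ e := by omega
  have hrt : r * t = r * L + r * f := by rw [hf, Nat.mul_add]
  have hrf : r * f + r * ν.card ≤ r * e := by
    rw [← Nat.mul_add]
    exact Nat.mul_le_mul_left r hfe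
  have hrp2 : r * ν.card = r' * p' + r' + 2 * p' + 2 := by
    rw [hr', hp']
    ring
  have hδ'r : (r * f + b) + 1 ≤ 2 * r := by omega
  have h3t : 3 * r ≤ t + 2 := by
    rcases Nat.lt_or_ge e 2 with he2 | he2
    · omega
    · obtain ⟨e', he'⟩ : ∃ e', e = e' + 2 := ⟨e - 2, by omega⟩
      have h5 : r * e = r * e' + 2 * r := by rw [he', Nat.mul_add]; omega
      have h6 : e' ≤ r * e' := Nat.le_mul_of_pos_left e' (by omega)
      omega
  have hδt : (r * f + b) + r ≤ t := by
    obtain ⟨j, hj⟩ : ∃ j, e = f + ν.card + j := ⟨e - (f + ν.card), by omega⟩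
    have h5 : r * e = r * f + r * ν.card + r * j := by rw [hj]; ring
    have h6 : j ≤ r * j := Nat.le_mul_of_pos_left j (by omega)
    have h7 : ν.card ≤ r * ν.card := Nat.le_mul_of_pos_left _ (by omega)
    omega
  have hIH := ih r (by omega) t (r * f + b) (conj τ) hr2 (conj_pos τ)
    (by rw [conj_sup τ hτpos, ht])
    (by
      rw [conj_card]
      exact Multiset.sup_le.2 fun x hx => (hτrow x hx).trans hLt)
    (by
      rw [conj_sum]
      omega)
    hδt h3t
  rw [psi_conj, conj_sum] at hIH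
  rw [hs]
  rcases le_max_iff.1 hIH with hI | hI
  · exact le_max_of_le_left (tail_small3 m w L b δ r ν τ hcr hr2 hp1 h3m hδm (by omega) hνL hνw
      (by omega) hτrow hb hbr (by rw [← hs]; exact hsum) hδ2 hI)
  · -- all rows of `ν` are `≥ t`
    have hνt : ∀ x ∈ ν, t ≤ x := by
      intro x hx
      by_contra hc
      push Not at hc
      have h1 := hνL x hx
      have h2 := Multiset.sum_erase hx
      have h3 := s2_sum_le (ν.erase x) w (fun y hy => hνrow y (Multiset.mem_of_mem_erase hy))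
      rw [Multiset.card_erase_of_mem hx, hp'] at h3
      have h4 : (p' + 1).pred * w = p' * w := rfl
      rw [h4] at h3
      have h5 : ν.card * w = p' * w + w := by rw [hp', Nat.succ_mul]
      have h6 : r * (ν.card + 1) ≤ r * e := Nat.mul_le_mul_left r (by omega)
      rw [Nat.mul_succ] at h6
      omega
    have hK : τ.sum = r * t - (r * f + b) := by omega
    have hIe : psi τ ≤ 1 * psi (Multiset.replicate (r - 1) t + {t - (r * f + b)}) := by
      rw [one_mul, ← NN_last t r (r * f + b) (by omega) (by omega), ← hK]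
      exact hI
    have h1 := dom_near t (r - 1) (t - (r * f + b)) ν τ 1 (by omega) le_rfl (by omega) hνt
      (fun x hx => (hτrow x hx).trans hLt) hIe
    rw [one_mul] at h1
    refine h1.trans ?_
    set ω := ν + (Multiset.replicate (r - 1) t + {t - (r * f + b)}) with hω
    have hωs : ω.sup = w := by
      apply j5_sup ν _ w hνw
      intro x hx
      rcases Multiset.mem_add.1 hx with h2 | h2
      · rw [Multiset.eq_of_mem_replicate h2]
        omega
      · rw [Multiset.mem_singleton.1 h2]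
        omega
    have hωc : ω.card = m := by
      rw [hω, Multiset.card_add, Multiset.card_add, Multiset.card_replicate,
        Multiset.card_singleton]
      omega
    have hωsum : ω.sum = (ν + τ).sum := by
      rw [hω, Multiset.sum_add, Multiset.sum_add, Multiset.sum_add, Multiset.sum_replicate,
        Multiset.sum_singleton, smul_eq_mul]
      obtain ⟨q, hq⟩ : ∃ q, r = q + 1 := ⟨r - 1, by omega⟩
      have h2 : (r - 1) * t + t = r * t := by
        rw [hq, Nat.add_sub_cancel, Nat.succ_mul]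
      omega
    have h2 := exact3 m δ ω hm3 hωc (by rw [hωsum, hωs, ← hs]; exact hsum)
      (by rw [hωs]; exact hδm) hδ2 (by rw [hωs]; exact h3m)
    rw [hωsum] at h2
    exact le_max_of_le_left h2

/-- the case `card ≤ sup` of the box theorem -/
theorem box3_tw (m M : ℕ) (s : Multiset ℕ) (hm : 2 ≤ m) (hM : 3 * m ≤ M)
    (hpos : ∀ x ∈ s, 0 < x) (htw : s.card ≤ s.sup) (hwM : s.sup ≤ M)
    (h1 : (m - 1) * (M + 1) < s.sum) (h2 : s.sum ≤ m * M) :
    psi s ≤ max (NN m s.sum) (NN M s.sum) := by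
  rcases Nat.lt_or_ge (m * s.sup) s.sum with hA | hA
  · refine le_max_of_le_left ?_
    obtain ⟨K, hK⟩ : ∃ K, K = s.sum / m := ⟨_, rfl⟩
    have hd := Nat.div_add_mod s.sum m
    have hr := Nat.mod_lt s.sum (show 0 < m by omega)
    rw [← hK] at hd
    have hmK : s.sum < m * (K + 1) := by
      rw [Nat.mul_succ]
      omega
    have hwK : s.sup ≤ K := by
      have h3 : m * s.sup < m * (K + 1) := by omega
      have := Nat.lt_of_mul_lt_mul_left h3
      omega
    exact mid3 m M K s hm hM hpos (by omega) hwK h1 (by omega) hmK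
  · obtain ⟨δ, hδ⟩ : ∃ δ, s.sum + δ = m * s.sup := ⟨m * s.sup - s.sum, by omega⟩
    obtain ⟨q, hq⟩ : ∃ q, m = q + 1 := ⟨m - 1, by omega⟩
    obtain ⟨j, hj⟩ : ∃ j, M = s.sup + j := ⟨M - s.sup, by omega⟩
    have e1 : (m - 1) * (M + 1) = q * s.sup + q * j + q := by
      rw [hq, Nat.add_sub_cancel, hj]
      ring
    have e2 : m * s.sup = q * s.sup + s.sup := by rw [hq, Nat.succ_mul]
    have hδm : δ + m ≤ s.sup := by omega
    have h3m : 3 * m ≤ s.sup + 2 := by
      have h3 : (m - 1) * (M + 1) + 1 < m * (s.sup + 1) := by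
        have h5 : m * (s.sup + 1) = m * s.sup + m := Nat.mul_succ _ _
        omega
      exact e5_K m M s.sup hm hM h3
    have h3 := TT3 m s.sup δ s hm hpos rfl htw hδ hδm h3m
    have h4 := NN_max3 m M s.sum s.sup (by omega) hM h1 h2 (by omega) hwM
    refine h3.trans (max_le (le_max_left _ _) h4)

/-- **The box theorem.** -/
theorem box3 (m M : ℕ) (s : Multiset ℕ) (hm : 2 ≤ m) (hM : 3 * m ≤ M) (hpos : ∀ x ∈ s, 0 < x)
    (hc : s.card ≤ M) (hs : s.sup ≤ M) (h1 : (m - 1) * (M + 1) < s.sum) (h2 : s.sum ≤ m * M) :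
    psi s ≤ max (NN m s.sum) (NN M s.sum) := by
  rcases le_total s.card s.sup with h | h
  · exact box3_tw m M s hm hM hpos h hs h1 h2
  · have e1 := conj_card s
    have e2 := conj_sup s hpos
    have e3 := conj_sum s
    have h3 := box3_tw m M (conj s) hm hM (conj_pos s) (by omega) (by omega) (by omega) (by omega)
    rw [psi_conj, e3] at h3
    exact h3

end Pool.Agent.LRF
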